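import Pool.Agent.Lib.MP_263316_co.Base

/-!
MP_263316_co, project LOW/EXT, Lemma T: a connected unit interval graph `S` and `1 ≤ s < |S|`: there is a
connected `T` with `s` elements, not containing the first vertex, with `S \ T` connected and at most `s`
edges from `S \ T` to the right into `T`.
-/

set_option autoImplicit false

namespace Pool.Agent.LOW.LEMT

open Finset Pool.Agent.SWC

/-- connected -/
def Cn (m : ℕ → ℕ) (T : Finset ℕ) : Prop :=
  ∀ v ∈ T, (∃ w ∈ T, w < v) → ∃ u ∈ T, u < v ∧ v ≤ m u

theorem aL_pos {m : ℕ → ℕ} {S : Finset ℕ} {v : ℕ} :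
    0 < aL m S v ↔ ∃ u ∈ S, u < v ∧ v ≤ m u := by
  unfold aL
  rw [Finset.card_pos]
  constructor
  · rintro ⟨u, hu⟩
    rw [Finset.mem_filter] at hu
    exact ⟨u, hu.1, hu.2⟩
  · rintro ⟨u, h1, h2⟩
    exact ⟨u, Finset.mem_filter.2 ⟨h1, h2⟩⟩

theorem aL_mono {m : ℕ → ℕ} {S T : Finset ℕ} {v : ℕ}
    (h : ∀ u ∈ S, u < v → v ≤ m u → u ∈ T) : aL m S v ≤ aL m T v := by
  unfold aL
  apply Finset.card_le_card
  intro u hu
  rw [Finset.mem_filter] at hu ⊢
  exact ⟨h u hu.1 hu.2.1 hu.2.2, hu.2⟩

theorem aL_zero {m : ℕ → ℕ} {S : Finset ℕ} {v : ℕ}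
    (h : ∀ u ∈ S, u < v → m u < v) : aL m S v = 0 := by
  unfold aL
  rw [Finset.card_eq_zero, Finset.filter_eq_empty_iff]
  rintro u hu ⟨h1, h2⟩
  have := h u hu h1
  omega

/-- the predecessor -/
theorem lp {m : ℕ → ℕ} (hm : Monotone m) {S : Finset ℕ} {v : ℕ} (hS : Cn m S) (hv : v ∈ S)
    (hw : ∃ w ∈ S, w < v) : ∃ p ∈ S, p < v ∧ v ≤ m p ∧ ∀ u ∈ S, u < v → u ≤ p := by
  obtain ⟨w, hw1, hw2⟩ := hw
  have hne : (S.filter (fun u => u < v)).Nonempty := ⟨w, Finset.mem_filter.2 ⟨hw1, hw2⟩⟩
  obtain ⟨p, hp, hpm⟩ := Finset.exists_max_image _ (fun u : ℕ => u) hne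
  rw [Finset.mem_filter] at hp
  obtain ⟨u, hu1, hu2, hu3⟩ := hS v hv ⟨w, hw1, hw2⟩
  have hup : u ≤ p := hpm u (Finset.mem_filter.2 ⟨hu1, hu2⟩)
  exact ⟨p, hp.1, hp.2, hu3.trans (hm hup), fun x hx hxv => hpm x (Finset.mem_filter.2 ⟨hx, hxv⟩)⟩

/-- peeling -/
theorem peel {m : ℕ → ℕ} (hm : Monotone m) : ∀ (n : ℕ) (T : Finset ℕ) (N : ℕ), T.card = n →
    2 ≤ n → Cn m T → N ∈ T → (∀ u ∈ T, u ≤ N) →
    ∃ x ∈ T, x ≠ N ∧ Cn m (T.erase x) ∧ aR m T x = 1 := by
  intro n
  induction n with
  | zero => intro T N _ h2; omega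
  | succ n ih =>
    intro T N hcard h2 hT hN hmax
    have hexw : ∃ w ∈ T, w < N := by
      have h1 : 0 < (T.erase N).card := by
        rw [Finset.card_erase_of_mem hN]
        omega
      obtain ⟨w, hw⟩ := Finset.card_pos.1 h1
      have hw2 := Finset.mem_erase.1 hw
      exact ⟨w, hw2.2, lt_of_le_of_ne (hmax w hw2.2) hw2.1⟩
    obtain ⟨p, hp, hpN, hpa, hpm⟩ := lp hm hT hN hexw
    have hleN : ∀ u ∈ T, u ≠ N → u ≤ p := fun u hu hne =>
      hpm u hu (lt_of_le_of_ne (hmax u hu) hne)
    have haR : aR m T p = 1 := by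
      unfold aR
      rw [Finset.card_eq_one]
      refine ⟨N, ?_⟩
      ext u
      rw [Finset.mem_filter, Finset.mem_singleton]
      constructor
      · rintro ⟨h1, h3, h4⟩
        by_contra hne
        have := hleN u h1 hne
        omega
      · rintro rfl
        exact ⟨hN, hpN, hpa⟩
    by_cases hq : ∃ w ∈ T, w < p
    · obtain ⟨q, hqT, hqp, hqa, hqm⟩ := lp hm hT hp hq
      by_cases hqN : N ≤ m q
      · refine ⟨p, hp, by omega, ?_, haR⟩
        intro v hv hw
        obtain ⟨hvp, hvT⟩ := Finset.mem_erase.1 hv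
        obtain ⟨w, hw1, hw2⟩ := hw
        by_cases hvN : v = N
        · subst hvN
          exact ⟨q, Finset.mem_erase.2 ⟨by omega, hqT⟩, by omega, hqN⟩
        · have hvp2 : v < p := lt_of_le_of_ne (hleN v hvT hvN) hvp
          obtain ⟨u, hu1, hu2, hu3⟩ := hT v hvT ⟨w, (Finset.mem_erase.1 hw1).2, hw2⟩
          exact ⟨u, Finset.mem_erase.2 ⟨by omega, hu1⟩, hu2, hu3⟩
      · -- recursion
        have hT' : Cn m (T.erase N) := by
          intro v hv hw
          obtain ⟨hvN, hvT⟩ := Finset.mem_erase.1 hv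
          obtain ⟨w, hw1, hw2⟩ := hw
          obtain ⟨u, hu1, hu2, hu3⟩ := hT v hvT ⟨w, (Finset.mem_erase.1 hw1).2, hw2⟩
          have := hmax v hvT
          exact ⟨u, Finset.mem_erase.2 ⟨by omega, hu1⟩, hu2, hu3⟩
        have hc' : (T.erase N).card = n := by
          rw [Finset.card_erase_of_mem hN]
          omega
        have hn2 : 2 ≤ n := by
          rw [← hc']
          have hsub : ({q, p} : Finset ℕ) ⊆ T.erase N := by
            intro y hy
            rw [Finset.mem_insert, Finset.mem_singleton] at hy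
            rcases hy with rfl | rfl
            · exact Finset.mem_erase.2 ⟨by omega, hqT⟩
            · exact Finset.mem_erase.2 ⟨by omega, hp⟩
          have h5 := Finset.card_le_card hsub
          rw [Finset.card_pair (by omega)] at h5
          exact h5
        obtain ⟨x, hx, hxp, hxc, hxa⟩ := ih (T.erase N) p hc' hn2 hT'
          (Finset.mem_erase.2 ⟨by omega, hp⟩)
          (fun u hu => hleN u (Finset.mem_erase.1 hu).2 (Finset.mem_erase.1 hu).1)
        obtain ⟨hxN, hxT⟩ := Finset.mem_erase.1 hx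
        have hxp2 : x < p := lt_of_le_of_ne (hleN x hxT hxN) hxp
        have hxq : x ≤ q := hqm x hxT hxp2
        have hmx : m x < N := lt_of_le_of_lt (hm hxq) (by omega)
        refine ⟨x, hxT, hxN, ?_, ?_⟩
        · intro v hv hw
          obtain ⟨hvx, hvT⟩ := Finset.mem_erase.1 hv
          obtain ⟨w, hw1, hw2⟩ := hw
          obtain ⟨hwx, hwT⟩ := Finset.mem_erase.1 hw1
          by_cases hvN : v = N
          · subst hvN
            exact ⟨p, Finset.mem_erase.2 ⟨by omega, hp⟩, hpN, hpa⟩
          · have hvle := hmax v hvT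
            obtain ⟨u, hu1, hu2, hu3⟩ := hxc v
              (Finset.mem_erase.2 ⟨hvx, Finset.mem_erase.2 ⟨hvN, hvT⟩⟩)
              ⟨w, Finset.mem_erase.2 ⟨hwx, Finset.mem_erase.2 ⟨by omega, hwT⟩⟩, hw2⟩
            obtain ⟨h5, h6⟩ := Finset.mem_erase.1 hu1
            exact ⟨u, Finset.mem_erase.2 ⟨h5, (Finset.mem_erase.1 h6).2⟩, hu2, hu3⟩
        · rw [← hxa]
          unfold aR
          congr 1
          ext u
          rw [Finset.mem_filter, Finset.mem_filter, Finset.mem_erase]
          constructor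
          · rintro ⟨h5, h6, h7⟩
            exact ⟨⟨by omega, h5⟩, h6, h7⟩
          · rintro ⟨⟨_, h5⟩, h6, h7⟩
            exact ⟨h5, h6, h7⟩
    · refine ⟨p, hp, by omega, ?_, haR⟩
      intro v hv hw
      obtain ⟨hvp, hvT⟩ := Finset.mem_erase.1 hv
      obtain ⟨w, hw1, hw2⟩ := hw
      obtain ⟨hwp, hwT⟩ := Finset.mem_erase.1 hw1
      exfalso
      have hwN : w ≠ N := by
        have := hmax v hvT
        omega
      have hwlt : w < p := lt_of_le_of_ne (hleN w hwT hwN) hwp
      exact hq ⟨w, hwT, hwlt⟩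

/-- the greedy path without its last vertex -/
theorem path {m : ℕ → ℕ} (hm : Monotone m) : ∀ (B : Finset ℕ), Cn m B →
    ∀ r N : ℕ, r ∈ B → (∀ u ∈ B, r ≤ u) → N ∈ B → (∀ u ∈ B, u ≤ N) → r < N →
    ∃ Q ⊆ B, N ∉ Q ∧ r ∈ Q ∧ (∀ v ∈ B, v ≠ r → aL m Q v = 1) ∧
      ∀ x ∈ B, (x ∈ Q ∨ x = N) → ∀ u ∈ Q, u < x → ∀ v ∈ B, x < v → m u < v := by
  intro B
  induction B using Finset.induction_on_max with
  | empty => intro _ r N hr; simp at hr
  | insert K B hK ih =>
    intro hC r N hr hmin hN hmax hrN
    have hKB : K ∉ B := fun h => lt_irrefl _ (hK K h)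
    have hNK : N = K := by
      rcases Finset.mem_insert.1 hN with h | h
      · exact h
      · have h1 := hK N h
        have h2 := hmax K (Finset.mem_insert_self _ _)
        omega
    subst hNK
    have hrB : r ∈ B := by
      rcases Finset.mem_insert.1 hr with h | h
      · omega
      · exact h
    have hCB : Cn m B := by
      intro v hv hw
      obtain ⟨w, hw1, hw2⟩ := hw
      obtain ⟨u, hu1, hu2, hu3⟩ := hC v (Finset.mem_insert_of_mem hv)
        ⟨w, Finset.mem_insert_of_mem hw1, hw2⟩
      rcases Finset.mem_insert.1 hu1 with h | h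
      · have := hK v hv
        omega
      · exact ⟨u, h, hu2, hu3⟩
    obtain ⟨N0, hN0, hN0m⟩ := Finset.exists_max_image B (fun u : ℕ => u) ⟨r, hrB⟩
    have hN0K : N0 < N := hK N0 hN0
    have hadj : N ≤ m N0 := by
      obtain ⟨u, hu1, hu2, hu3⟩ := hC N (Finset.mem_insert_self _ _)
        ⟨r, Finset.mem_insert_of_mem hrB, hrN⟩
      rcases Finset.mem_insert.1 hu1 with h | h
      · omega
      · exact hu3.trans (hm (hN0m u h))
    by_cases hr0 : r = N0
    · -- B = {r}
      refine ⟨{r}, ?_, ?_, Finset.mem_singleton_self r, ?_, ?_⟩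
      · intro u hu
        rw [Finset.mem_singleton] at hu
        subst hu
        exact hr
      · rw [Finset.mem_singleton]
        omega
      · intro v hv hvr
        have hvN : v = N := by
          rcases Finset.mem_insert.1 hv with h | h
          · exact h
          · have h1 := hN0m v h
            have h2 := hmin v hv
            omega
        subst hvN
        unfold aL
        rw [Finset.card_eq_one]
        refine ⟨r, ?_⟩
        ext u
        rw [Finset.mem_filter, Finset.mem_singleton]
        constructor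
        · exact fun h => h.1
        · rintro rfl
          refine ⟨rfl, hrN, ?_⟩
          rw [hr0]
          exact hadj
      · intro x _ hx u hu hux v hv hxv
        rw [Finset.mem_singleton] at hu hx
        have h1 := hmax v hv
        omega
    · have hrN0 : r < N0 := lt_of_le_of_ne (hN0m r hrB) hr0
      obtain ⟨Q, hQB, hNQ, hrQ, hQa, hQb⟩ := ih hCB r N0 hrB
        (fun u hu => hmin u (Finset.mem_insert_of_mem hu)) hN0 hN0m hrN0
      have hQlt : ∀ u ∈ Q, u < N0 := fun u hu =>
        lt_of_le_of_ne (hN0m u (hQB hu)) (fun h => hNQ (h ▸ hu))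
      have hq1 := hQa N0 hN0 (by omega)
      unfold aL at hq1
      rw [Finset.card_eq_one] at hq1
      obtain ⟨q, hq⟩ := hq1
      have hqmem : q ∈ Q.filter (fun u => u < N0 ∧ N0 ≤ m u) := by
        rw [hq]
        exact Finset.mem_singleton_self q
      rw [Finset.mem_filter] at hqmem
      obtain ⟨hqQ, hqN0, hqm⟩ := hqmem
      have huniq : ∀ u ∈ Q, N ≤ m u → u = q := by
        intro u hu h1
        have : u ∈ Q.filter (fun u => u < N0 ∧ N0 ≤ m u) :=
          Finset.mem_filter.2 ⟨hu, hQlt u hu, by omega⟩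
        rw [hq, Finset.mem_singleton] at this
        exact this
      by_cases hqN : N ≤ m q
      · refine ⟨Q, fun u hu => Finset.mem_insert_of_mem (hQB hu), ?_, hrQ, ?_, ?_⟩
        · intro h
          have := hQlt N h
          omega
        · intro v hv hvr
          rcases Finset.mem_insert.1 hv with h | h
          · subst h
            unfold aL
            rw [Finset.card_eq_one]
            refine ⟨q, ?_⟩
            ext u
            rw [Finset.mem_filter, Finset.mem_singleton]
            constructor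
            · rintro ⟨h1, _, h3⟩
              exact huniq u h1 h3
            · rintro rfl
              exact ⟨hqQ, by omega, hqN⟩
          · exact hQa v h hvr
        · intro x hxB hx u hu hux v hv hxv
          have hvN := hmax v hv
          rcases hx with hx | hx
          · have hxN0 := hQlt x hx
            rcases Finset.mem_insert.1 hv with h | h
            · have h1 := hQb x (hQB hx) (Or.inl hx) u hu hux N0 hN0 hxN0
              omega
            · exact hQb x (hQB hx) (Or.inl hx) u hu hux v h hxv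
          · omega
      · refine ⟨insert N0 Q, ?_, ?_, Finset.mem_insert_of_mem hrQ, ?_, ?_⟩
        · intro u hu
          rcases Finset.mem_insert.1 hu with h | h
          · subst h
            exact Finset.mem_insert_of_mem hN0
          · exact Finset.mem_insert_of_mem (hQB h)
        · intro h
          rcases Finset.mem_insert.1 h with h | h
          · omega
          · have := hQlt N h
            omega
        · intro v hv hvr
          rcases Finset.mem_insert.1 hv with h | h
          · subst h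
            unfold aL
            rw [Finset.card_eq_one]
            refine ⟨N0, ?_⟩
            ext u
            rw [Finset.mem_filter, Finset.mem_singleton, Finset.mem_insert]
            constructor
            · rintro ⟨h1 | h1, _, h3⟩
              · exact h1
              · exfalso
                have := huniq u h1 h3
                subst this
                exact hqN h3
            · rintro rfl
              exact ⟨Or.inl rfl, hN0K, hadj⟩
          · have h2 := hN0m v h
            rw [← hQa v h hvr]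
            unfold aL
            congr 1
            ext u
            rw [Finset.mem_filter, Finset.mem_filter, Finset.mem_insert]
            constructor
            · rintro ⟨h3 | h3, h4, h5⟩
              · omega
              · exact ⟨h3, h4, h5⟩
            · rintro ⟨h3, h4, h5⟩
              exact ⟨Or.inr h3, h4, h5⟩
        · intro x hxB hx u hu hux v hv hxv
          have hvN := hmax v hv
          rcases hx with hx | hx
          · rcases Finset.mem_insert.1 hx with hx | hx
            · subst hx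
              rcases Finset.mem_insert.1 hu with h | h
              · omega
              · rcases Finset.mem_insert.1 hv with h5 | h5
                · subst h5
                  by_contra hcon
                  push Not at hcon
                  have := huniq u h hcon
                  subst this
                  exact hqN hcon
                · have h6 := hN0m v h5
                  omega
            · have hxN0 := hQlt x hx
              rcases Finset.mem_insert.1 hu with h | h
              · omega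
              · rcases Finset.mem_insert.1 hv with h5 | h5
                · have h1 := hQb x (hQB hx) (Or.inl hx) u h hux N0 hN0 hxN0
                  omega
                · exact hQb x (hQB hx) (Or.inl hx) u h hux v h5 hxv
          · omega

/-- initial segments -/
theorem init (Q : Finset ℕ) : ∀ w : ℕ, w ≤ Q.card →
    ∃ C ⊆ Q, C.card = w ∧ ∀ u ∈ Q, ∀ v ∈ C, u < v → u ∈ C := by
  intro w
  induction w with
  | zero => intro _; exact ⟨∅, Finset.empty_subset _, rfl, by simp⟩
  | succ w ih =>
    intro hw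
    obtain ⟨C, hC1, hC2, hC3⟩ := ih (by omega)
    have hne : (Q \ C).Nonempty := by
      rw [← Finset.card_pos, Finset.card_sdiff_of_subset hC1]
      omega
    obtain ⟨y, hy, hymin⟩ := Finset.exists_min_image (Q \ C) (fun u : ℕ => u) hne
    rw [Finset.mem_sdiff] at hy
    refine ⟨insert y C, ?_, ?_, ?_⟩
    · intro u hu
      rcases Finset.mem_insert.1 hu with h | h
      · subst h; exact hy.1
      · exact hC1 h
    · rw [Finset.card_insert_of_notMem hy.2, hC2]
    · intro u hu v hv huv
      rcases Finset.mem_insert.1 hv with h | h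
      · subst h
        by_contra hcon
        have hu2 : u ∈ Q \ C := Finset.mem_sdiff.2
          ⟨hu, fun h5 => hcon (Finset.mem_insert_of_mem h5)⟩
        have := hymin u hu2
        omega
      · exact Finset.mem_insert_of_mem (hC3 u hu v h huv)

/-- a left neighbour outside of the path -/
theorem keyK {m : ℕ → ℕ} (hm : Monotone m) {S : Finset ℕ} {r N : ℕ} (hr : r ∈ S)
    (hmin : ∀ u ∈ S, r ≤ u) (hS : Cn m S)
    (hcut : ∀ u ∈ S, u < N → ∀ v ∈ S, N < v → m u < v)
    (hnc : ∀ p ∈ S, p ≠ r → p < N → ∃ u ∈ S, u < p ∧ ∃ v ∈ S, p < v ∧ v ≤ m u)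
    {Q : Finset ℕ}
    (hQb : ∀ x ∈ Q, ∀ u ∈ Q, u < x → ∀ v ∈ S, v ≤ N → x < v → m u < v)
    {t : ℕ} (ht : t ∈ S) (htN : t ≤ N) (htr : t ≠ r) :
    (∃ p ∈ S, p ∉ Q ∧ p < t ∧ t ≤ m p) ∨ (∀ u ∈ S, u < t → u = r) := by
  have hrt : r < t := lt_of_le_of_ne (hmin t ht) (Ne.symm htr)
  obtain ⟨p, hp, hpt, hpa, hpm⟩ := lp hm hS ht ⟨r, hr, hrt⟩
  by_cases hpQ : p ∈ Q
  · by_cases hpr : p = r
    · right
      intro u hu hut
      have h1 := hpm u hu hut
      have h2 := hmin u hu
      omega
    · left
      obtain ⟨u, hu, hup, v, hv, hpv, hvm⟩ := hnc p hp hpr (by omega)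
      have hvN : v ≤ N := by
        by_contra h
        have := hcut u hu (by omega) v hv (by omega)
        omega
      have htv : t ≤ v := by
        by_contra h
        have := hpm v hv (by omega)
        omega
      refine ⟨u, hu, ?_, by omega, by omega⟩
      intro huQ
      have := hQb p hpQ u huQ hup v hv hvN hpv
      omega
  · left
    exact ⟨p, hp, hpQ, hpt, hpa⟩

/-- repeated peeling -/
theorem stepP {m : ℕ → ℕ} (hm : Monotone m) {B Q : Finset ℕ} {N : ℕ} (hQB : Q ⊆ B)
    (hN : N ∈ B \ Q) (hmax : ∀ u ∈ B, u ≤ N)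
    (hH : Cn m (B \ Q)) (hQa : ∀ v ∈ B \ Q, aL m Q v = 1) :
    ∀ d : ℕ, d < (B \ Q).card → ∃ T ⊆ B \ Q, T.card = (B \ Q).card - d ∧ N ∈ T ∧ Cn m T ∧
      ∑ t ∈ T, aL m (B \ T) t ≤ (B \ Q).card := by
  intro d
  induction d with
  | zero =>
    intro _
    refine ⟨B \ Q, Finset.Subset.refl _, rfl, hN, hH, ?_⟩
    rw [Finset.sdiff_sdiff_eq_self hQB]
    rw [Finset.sum_congr rfl hQa]
    simp
  | succ d ih =>
    intro hd
    obtain ⟨T, hTH, hTc, hNT, hT, hsum⟩ := ih (by omega)
    obtain ⟨x, hx, hxN, hxc, hxa⟩ := peel hm T.card T N rfl (by omega) hT hNT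
      (fun u hu => hmax u (Finset.mem_sdiff.1 (hTH hu)).1)
    refine ⟨T.erase x, fun u hu => hTH (Finset.mem_erase.1 hu).2, ?_,
      Finset.mem_erase.2 ⟨Ne.symm hxN, hNT⟩, hxc, ?_⟩
    · rw [Finset.card_erase_of_mem hx]
      omega
    · have h1 : 1 ≤ aL m (B \ T) x := by
        rw [← hQa x (hTH hx)]
        apply aL_mono
        intro u hu _ _
        rw [Finset.mem_sdiff]
        exact ⟨hQB hu, fun h => (Finset.mem_sdiff.1 (hTH h)).2 hu⟩
      have h2 : ∀ t ∈ T.erase x, aL m (B \ T.erase x) t ≤
          aL m (B \ T) t + (if x < t ∧ t ≤ m x then 1 else 0) := by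
        intro t ht
        unfold aL
        have h3 : (B \ T.erase x).filter (fun u => u < t ∧ t ≤ m u) ⊆
            (B \ T).filter (fun u => u < t ∧ t ≤ m u) ∪
              (if x < t ∧ t ≤ m x then {x} else ∅) := by
          intro u hu
          rw [Finset.mem_filter, Finset.mem_sdiff] at hu
          rw [Finset.mem_union]
          by_cases hux : u = x
          · right
            subst hux
            rw [if_pos hu.2]
            exact Finset.mem_singleton_self _
          · left
            rw [Finset.mem_filter, Finset.mem_sdiff]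
            exact ⟨⟨hu.1.1, fun h => hu.1.2 (Finset.mem_erase.2 ⟨hux, h⟩)⟩, hu.2⟩
        refine (Finset.card_le_card h3).trans ((Finset.card_union_le _ _).trans ?_)
        apply Nat.add_le_add_left
        split_ifs
        · simp
        · simp
      have h4 : ∑ t ∈ T.erase x, (if x < t ∧ t ≤ m x then 1 else 0) = aR m T x := by
        unfold aR
        rw [Finset.card_filter, ← Finset.add_sum_erase T _ hx, if_neg (by omega), zero_add]
      have h5 := Finset.sum_le_sum h2
      rw [Finset.sum_add_distrib, h4, hxa] at h5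
      have h6 : aL m (B \ T) x + ∑ t ∈ T.erase x, aL m (B \ T) t = ∑ t ∈ T, aL m (B \ T) t :=
        Finset.add_sum_erase T (fun t => aL m (B \ T) t) hx
      omega

theorem lemT_aux {m : ℕ → ℕ} (hm : Monotone m) : ∀ (n : ℕ) (S : Finset ℕ), S.card = n →
    ∀ r s : ℕ, r ∈ S → (∀ u ∈ S, r ≤ u) → Cn m S → 1 ≤ s → s < S.card →
    ∃ T ⊆ S, T.card = s ∧ r ∉ T ∧ Cn m T ∧ Cn m (S \ T) ∧ ∑ t ∈ T, aL m (S \ T) t ≤ s := by
  classical
  intro n
  induction n using Nat.strong_induction_on with
  | _ n ih =>
  intro S hcard r s hr hmin hS hs1 hs2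
  -- the least cut
  obtain ⟨M, hM, hMm⟩ := Finset.exists_max_image S (fun u : ℕ => u) ⟨r, hr⟩
  have hMr : M ≠ r := by
    rintro rfl
    have h1 : S ⊆ {M} := by
      intro u hu
      rw [Finset.mem_singleton]
      exact le_antisymm (hMm u hu) (hmin u hu)
    have h2 := Finset.card_le_card h1
    rw [Finset.card_singleton] at h2
    omega
  obtain ⟨N, hNc, hNmin⟩ := Finset.exists_min_image
    (S.filter (fun z => z ≠ r ∧ ∀ u ∈ S, u < z → ∀ v ∈ S, z < v → m u < v))
    (fun u : ℕ => u) ⟨M, by
      rw [Finset.mem_filter]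
      refine ⟨hM, hMr, ?_⟩
      intro u _ _ v hv hMv
      have : v ≤ M := hMm v hv
      omega⟩
  rw [Finset.mem_filter] at hNc
  obtain ⟨hN, hNr, hcut⟩ := hNc
  have hrN : r < N := lt_of_le_of_ne (hmin N hN) (Ne.symm hNr)
  have hnc : ∀ p ∈ S, p ≠ r → p < N → ∃ u ∈ S, u < p ∧ ∃ v ∈ S, p < v ∧ v ≤ m u := by
    intro p hp hpr hpN
    by_contra hcon
    push Not at hcon
    have h1 : p ∈ S.filter (fun z => z ≠ r ∧ ∀ u ∈ S, u < z → ∀ v ∈ S, z < v → m u < v) := by
      rw [Finset.mem_filter]
      exact ⟨hp, hpr, fun u hu hup v hv hpv => hcon u hu hup v hv hpv⟩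
    have h2 : N ≤ p := hNmin p h1
    omega
  have htail : ∀ v ∈ S, N < v → ∃ p ∈ S, p < v ∧ v ≤ m p ∧ N ≤ p := by
    intro v hv hNv
    obtain ⟨p, hp1, hp2, hp3, hp4⟩ := lp hm hS hv ⟨N, hN, hNv⟩
    exact ⟨p, hp1, hp2, hp3, hp4 N hN hNv⟩
  by_cases hc1 : s ≤ (S.filter (fun v => N < v)).card
  · -- recursion to the right of the cut
    have hS'c : (S.filter (fun v => N < v)).card < (S.filter (fun v => N ≤ v)).card := by
      apply Finset.card_lt_card
      rw [Finset.ssubset_iff_of_subset]
      · exact ⟨N, Finset.mem_filter.2 ⟨hN, le_refl N⟩, fun h =>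
          lt_irrefl _ (Finset.mem_filter.1 h).2⟩
      · intro u hu
        rw [Finset.mem_filter] at hu ⊢
        exact ⟨hu.1, hu.2.le⟩
    have hS'S : (S.filter (fun v => N ≤ v)).card < n := by
      rw [← hcard]
      apply Finset.card_lt_card
      rw [Finset.ssubset_iff_of_subset (Finset.filter_subset _ _)]
      exact ⟨r, hr, fun h => by
        have := (Finset.mem_filter.1 h).2
        omega⟩
    have hCS' : Cn m (S.filter (fun v => N ≤ v)) := by
      intro v hv hw
      obtain ⟨w, hw1, hw2⟩ := hw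
      rw [Finset.mem_filter] at hv hw1
      obtain ⟨p, hp1, hp2, hp3, hp4⟩ := htail v hv.1 (by omega)
      exact ⟨p, Finset.mem_filter.2 ⟨hp1, hp4⟩, hp2, hp3⟩
    obtain ⟨T, hTS, hTc, hNT, hT, hCT, hsum⟩ := ih _ hS'S (S.filter (fun v => N ≤ v)) rfl N s
      (Finset.mem_filter.2 ⟨hN, le_refl N⟩) (fun u hu => (Finset.mem_filter.1 hu).2) hCS' hs1
      (by omega)
    have hTN : ∀ t ∈ T, t ∈ S ∧ N < t := by
      intro t ht
      have h1 := Finset.mem_filter.1 (hTS ht)
      exact ⟨h1.1, lt_of_le_of_ne h1.2 (fun h => hNT (h ▸ ht))⟩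
    refine ⟨T, fun t ht => (hTN t ht).1, hTc, ?_, hT, ?_, ?_⟩
    · intro h
      have := (hTN r h).2
      omega
    · intro v hv hw
      obtain ⟨w, hw1, hw2⟩ := hw
      rw [Finset.mem_sdiff] at hv hw1
      by_cases hvN : v ≤ N
      · obtain ⟨u, hu1, hu2, hu3⟩ := hS v hv.1 ⟨w, hw1.1, hw2⟩
        refine ⟨u, Finset.mem_sdiff.2 ⟨hu1, fun h => ?_⟩, hu2, hu3⟩
        have := (hTN u h).2
        omega
      · obtain ⟨u, hu1, hu2, hu3⟩ := hCT v
          (Finset.mem_sdiff.2 ⟨Finset.mem_filter.2 ⟨hv.1, by omega⟩, hv.2⟩)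
          ⟨N, Finset.mem_sdiff.2 ⟨Finset.mem_filter.2 ⟨hN, le_refl N⟩, hNT⟩, by omega⟩
        rw [Finset.mem_sdiff, Finset.mem_filter] at hu1
        exact ⟨u, Finset.mem_sdiff.2 ⟨hu1.1.1, hu1.2⟩, hu2, hu3⟩
    · refine (Finset.sum_le_sum (fun t ht => ?_)).trans hsum
      apply aL_mono
      intro u hu hut htu
      rw [Finset.mem_sdiff] at hu
      rw [Finset.mem_sdiff, Finset.mem_filter]
      refine ⟨⟨hu.1, ?_⟩, hu.2⟩
      by_contra hcon
      have := hcut u hu.1 (by omega) t (hTN t ht).1 (hTN t ht).2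
      omega
  · -- the first block
    have hBR : (S.filter (fun v => v ≤ N)).card + (S.filter (fun v => N < v)).card = S.card := by
      rw [← Finset.card_union_of_disjoint]
      · congr 1
        ext u
        rw [Finset.mem_union, Finset.mem_filter, Finset.mem_filter]
        constructor
        · rintro (h | h)
          · exact h.1
          · exact h.1
        · intro h
          rcases le_or_gt u N with h1 | h1
          · exact Or.inl ⟨h, h1⟩
          · exact Or.inr ⟨h, h1⟩
      · rw [Finset.disjoint_left]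
        intro u hu hu2
        rw [Finset.mem_filter] at hu hu2
        omega
    have hCB : Cn m (S.filter (fun v => v ≤ N)) := by
      intro v hv hw
      obtain ⟨w, hw1, hw2⟩ := hw
      rw [Finset.mem_filter] at hv hw1
      obtain ⟨u, hu1, hu2, hu3⟩ := hS v hv.1 ⟨w, hw1.1, hw2⟩
      exact ⟨u, Finset.mem_filter.2 ⟨hu1, by omega⟩, hu2, hu3⟩
    obtain ⟨Q, hQB, hNQ, hrQ, hQa, hQb⟩ := path hm (S.filter (fun v => v ≤ N)) hCB r N
      (Finset.mem_filter.2 ⟨hr, hrN.le⟩) (fun u hu => hmin u (Finset.mem_filter.1 hu).1)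
      (Finset.mem_filter.2 ⟨hN, le_refl N⟩) (fun u hu => (Finset.mem_filter.1 hu).2) hrN
    have hQS : ∀ u ∈ Q, u ∈ S ∧ u < N := by
      intro u hu
      have h1 := Finset.mem_filter.1 (hQB hu)
      exact ⟨h1.1, lt_of_le_of_ne h1.2 (fun h => hNQ (h ▸ hu))⟩
    have hQ1 : ∀ v ∈ S, v ≤ N → v ≠ r → aL m Q v = 1 := fun v hv hvN hvr =>
      hQa v (Finset.mem_filter.2 ⟨hv, hvN⟩) hvr
    have hQ2 : ∀ v ∈ S, v ≤ N → v ≠ r → ∃ u ∈ Q, u < v ∧ v ≤ m u := by
      intro v hv hvN hvr
      rw [← aL_pos, hQ1 v hv hvN hvr]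
      exact Nat.one_pos
    have hK : ∀ t ∈ S, t ≤ N → t ≠ r →
        (∃ p ∈ S, p ∉ Q ∧ p < t ∧ t ≤ m p) ∨ (∀ u ∈ S, u < t → u = r) := by
      intro t ht htN htr
      refine keyK hm hr hmin hS hcut hnc ?_ ht htN htr
      intro x hx u hu hux v hv hvN hxv
      exact hQb x (hQB hx) (Or.inl hx) u hu hux v (Finset.mem_filter.2 ⟨hv, hvN⟩) hxv
    have hH : Cn m (S.filter (fun v => v ≤ N) \ Q) := by
      intro v hv hw
      obtain ⟨w, hw1, hw2⟩ := hw
      rw [Finset.mem_sdiff, Finset.mem_filter] at hv hw1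
      have hvr : v ≠ r := fun h => hv.2 (h ▸ hrQ)
      rcases hK v hv.1.1 hv.1.2 hvr with ⟨p, hp1, hp2, hp3, hp4⟩ | h
      · exact ⟨p, Finset.mem_sdiff.2 ⟨Finset.mem_filter.2 ⟨hp1, by omega⟩, hp2⟩, hp3, hp4⟩
      · exfalso
        have := h w hw1.1.1 hw2
        exact hw1.2 (this ▸ hrQ)
    have hHc : (S.filter (fun v => v ≤ N) \ Q).card + Q.card =
        (S.filter (fun v => v ≤ N)).card := Finset.card_sdiff_add_card_eq_card hQB
    have hNH : N ∈ S.filter (fun v => v ≤ N) \ Q :=
      Finset.mem_sdiff.2 ⟨Finset.mem_filter.2 ⟨hN, le_refl N⟩, hNQ⟩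
    by_cases hc2 : (S.filter (fun v => v ≤ N) \ Q).card + (S.filter (fun v => N < v)).card ≤ s
    · -- case W
      obtain ⟨C, hCQ, hCc, hCi⟩ := init Q (S.card - s) (by omega)
      have hCS : C ⊆ S := fun u hu => (hQS u (hCQ hu)).1
      have hrC : r ∈ C := by
        have h1 : 0 < C.card := by omega
        obtain ⟨y, hy⟩ := Finset.card_pos.1 h1
        by_cases hyr : y = r
        · exact hyr ▸ hy
        · have h2 := hmin y (hCS hy)
          exact hCi r hrQ y hy (by omega)
      refine ⟨S \ C, Finset.sdiff_subset, ?_, ?_, ?_, ?_, ?_⟩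
      · rw [Finset.card_sdiff_of_subset hCS, hCc]
        omega
      · intro h
        exact (Finset.mem_sdiff.1 h).2 hrC
      · intro v hv hw
        obtain ⟨w, hw1, hw2⟩ := hw
        rw [Finset.mem_sdiff] at hv hw1
        by_cases hvN : v ≤ N
        · have hvr : v ≠ r := fun h => hv.2 (h ▸ hrC)
          rcases hK v hv.1 hvN hvr with ⟨p, hp1, hp2, hp3, hp4⟩ | h
          · exact ⟨p, Finset.mem_sdiff.2 ⟨hp1, fun h => hp2 (hCQ h)⟩, hp3, hp4⟩
          · exfalso
            have := h w hw1.1 hw2
            exact hw1.2 (this ▸ hrC)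
        · obtain ⟨p, hp1, hp2, hp3, hp4⟩ := htail v hv.1 (by omega)
          refine ⟨p, Finset.mem_sdiff.2 ⟨hp1, fun h => ?_⟩, hp2, hp3⟩
          have := (hQS p (hCQ h)).2
          omega
      · rw [Finset.sdiff_sdiff_eq_self hCS]
        intro v hv hw
        obtain ⟨w, hw1, hw2⟩ := hw
        have h1 := hQS v (hCQ hv)
        have h2 := hmin w (hCS hw1)
        obtain ⟨u, hu1, hu2, hu3⟩ := hQ2 v h1.1 h1.2.le (by omega)
        exact ⟨u, hCi u hu1 v hv hu2, hu2, hu3⟩
      · rw [Finset.sdiff_sdiff_eq_self hCS]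
        have h1 : ∀ t ∈ S \ C, aL m C t ≤ 1 := by
          intro t ht
          rw [Finset.mem_sdiff] at ht
          by_cases htN : t ≤ N
          · have htr : t ≠ r := fun h => ht.2 (h ▸ hrC)
            rw [← hQ1 t ht.1 htN htr]
            exact aL_mono (fun u hu _ _ => hCQ hu)
          · rw [aL_zero]
            · exact Nat.zero_le _
            · intro u hu _
              have h5 := hQS u (hCQ hu)
              exact hcut u h5.1 h5.2 t ht.1 (by omega)
        refine (Finset.sum_le_sum h1).trans ?_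
        rw [Finset.sum_const, smul_eq_mul, mul_one, Finset.card_sdiff_of_subset hCS, hCc]
        omega
    · by_cases hc3 : s < (S.filter (fun v => v ≤ N) \ Q).card
      · -- case b
        have hce := Finset.card_erase_of_mem hNH
        obtain ⟨T, hTH, hTc, hTi⟩ := init ((S.filter (fun v => v ≤ N) \ Q).erase N) s (by omega)
        have hTm : ∀ t ∈ T, t ∈ S ∧ t < N ∧ t ∉ Q := by
          intro t ht
          have h1 := Finset.mem_erase.1 (hTH ht)
          have h2 := h1.2
          rw [Finset.mem_sdiff, Finset.mem_filter] at h2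
          exact ⟨h2.1.1, lt_of_le_of_ne h2.1.2 h1.1, h2.2⟩
        refine ⟨T, fun t ht => (hTm t ht).1, hTc, fun h => (hTm r h).2.2 hrQ, ?_, ?_, ?_⟩
        · intro v hv hw
          obtain ⟨w, hw1, hw2⟩ := hw
          have h1 := hTm v hv
          have h2 := hTm w hw1
          have hvr : v ≠ r := fun h => h1.2.2 (h ▸ hrQ)
          rcases hK v h1.1 h1.2.1.le hvr with ⟨p, hp1, hp2, hp3, hp4⟩ | h
          · refine ⟨p, hTi p ?_ v hv hp3, hp3, hp4⟩
            rw [Finset.mem_erase, Finset.mem_sdiff, Finset.mem_filter]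
            exact ⟨by omega, ⟨hp1, by omega⟩, hp2⟩
          · exfalso
            have := h w h2.1 hw2
            exact h2.2.2 (this ▸ hrQ)
        · intro v hv hw
          obtain ⟨w, hw1, hw2⟩ := hw
          rw [Finset.mem_sdiff] at hv hw1
          have h2 := hmin w hw1.1
          by_cases hvN : v ≤ N
          · obtain ⟨u, hu1, hu2, hu3⟩ := hQ2 v hv.1 hvN (by omega)
            exact ⟨u, Finset.mem_sdiff.2 ⟨(hQS u hu1).1, fun h => (hTm u h).2.2 hu1⟩, hu2, hu3⟩
          · obtain ⟨p, hp1, hp2, hp3, hp4⟩ := htail v hv.1 (by omega)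
            refine ⟨p, Finset.mem_sdiff.2 ⟨hp1, fun h => ?_⟩, hp2, hp3⟩
            have := (hTm p h).2.1
            omega
        · have h1 : ∀ t ∈ T, aL m (S \ T) t ≤ 1 := by
            intro t ht
            have h5 := hTm t ht
            have htr : t ≠ r := fun h => h5.2.2 (h ▸ hrQ)
            rw [← hQ1 t h5.1 h5.2.1.le htr]
            apply aL_mono
            intro u hu hut _
            rw [Finset.mem_sdiff] at hu
            by_contra huQ
            refine hu.2 (hTi u ?_ t ht hut)
            rw [Finset.mem_erase, Finset.mem_sdiff, Finset.mem_filter]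
            exact ⟨by omega, ⟨hu.1, by omega⟩, huQ⟩
          refine (Finset.sum_le_sum h1).trans ?_
          rw [Finset.sum_const, smul_eq_mul, mul_one, hTc]
      · -- case P
        obtain ⟨T, hTH, hTc, hNT, hT, hsum⟩ := stepP hm hQB hNH
          (fun u hu => (Finset.mem_filter.1 hu).2) hH
          (fun v hv => by
            rw [Finset.mem_sdiff, Finset.mem_filter] at hv
            exact hQ1 v hv.1.1 hv.1.2 (fun h => hv.2 (h ▸ hrQ)))
          ((S.filter (fun v => v ≤ N) \ Q).card + (S.filter (fun v => N < v)).card - s)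
          (by omega)
        have hTm : ∀ t ∈ T, t ∈ S ∧ t ≤ N ∧ t ∉ Q := by
          intro t ht
          have h2 := hTH ht
          rw [Finset.mem_sdiff, Finset.mem_filter] at h2
          exact ⟨h2.1.1, h2.1.2, h2.2⟩
        have hdisj : Disjoint T (S.filter (fun v => N < v)) := by
          rw [Finset.disjoint_left]
          intro u hu hu2
          have h1 := (hTm u hu).2.1
          have h2 := (Finset.mem_filter.1 hu2).2
          omega
        have hcompl : S \ (T ∪ S.filter (fun v => N < v)) = S.filter (fun v => v ≤ N) \ T := by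
          ext u
          rw [Finset.mem_sdiff, Finset.mem_sdiff, Finset.mem_union, Finset.mem_filter,
            Finset.mem_filter]
          constructor
          · rintro ⟨h1, h2⟩
            refine ⟨⟨h1, ?_⟩, fun h => h2 (Or.inl h)⟩
            by_contra hcon
            exact h2 (Or.inr ⟨h1, by omega⟩)
          · rintro ⟨⟨h1, h2⟩, h3⟩
            refine ⟨h1, ?_⟩
            rintro (h | h)
            · exact h3 h
            · omega
        refine ⟨T ∪ S.filter (fun v => N < v), ?_, ?_, ?_, ?_, ?_, ?_⟩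
        · intro u hu
          rcases Finset.mem_union.1 hu with h | h
          · exact (hTm u h).1
          · exact (Finset.mem_filter.1 h).1
        · rw [Finset.card_union_of_disjoint hdisj, hTc]
          omega
        · intro h
          rcases Finset.mem_union.1 h with h | h
          · exact (hTm r h).2.2 hrQ
          · have := (Finset.mem_filter.1 h).2
            omega
        · intro v hv hw
          obtain ⟨w, hw1, hw2⟩ := hw
          rcases Finset.mem_union.1 hv with h | h
          · have h1 := hTm v h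
            rcases Finset.mem_union.1 hw1 with h2 | h2
            · obtain ⟨u, hu1, hu2, hu3⟩ := hT v h ⟨w, h2, hw2⟩
              exact ⟨u, Finset.mem_union_left _ hu1, hu2, hu3⟩
            · have := (Finset.mem_filter.1 h2).2
              omega
          · rw [Finset.mem_filter] at h
            obtain ⟨p, hp1, hp2, hp3, hp4⟩ := htail v h.1 h.2
            refine ⟨p, ?_, hp2, hp3⟩
            rw [Finset.mem_union, Finset.mem_filter]
            rcases Nat.eq_or_lt_of_le hp4 with h5 | h5
            · exact Or.inl (h5 ▸ hNT)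
            · exact Or.inr ⟨hp1, h5⟩
        · rw [hcompl]
          intro v hv hw
          obtain ⟨w, hw1, hw2⟩ := hw
          rw [Finset.mem_sdiff, Finset.mem_filter] at hv hw1
          have h2 := hmin w hw1.1.1
          obtain ⟨u, hu1, hu2, hu3⟩ := hQ2 v hv.1.1 hv.1.2 (by omega)
          exact ⟨u, Finset.mem_sdiff.2 ⟨hQB hu1, fun h => (hTm u h).2.2 hu1⟩, hu2, hu3⟩
        · rw [hcompl, Finset.sum_union hdisj]
          have h1 : ∑ t ∈ S.filter (fun v => N < v), aL m (S.filter (fun v => v ≤ N) \ T) t = 0 := by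
            apply Finset.sum_eq_zero
            intro t ht
            rw [Finset.mem_filter] at ht
            apply aL_zero
            intro u hu _
            rw [Finset.mem_sdiff, Finset.mem_filter] at hu
            have huN : u ≠ N := fun h => hu.2 (h ▸ hNT)
            exact hcut u hu.1.1 (by omega) t ht.1 ht.2
          rw [h1]
          omega

/-- Lemma T -/
theorem lemT (m : ℕ → ℕ) (hm : Monotone m) (S : Finset ℕ) (r s : ℕ) (hr : r ∈ S)
    (hmin : ∀ u ∈ S, r ≤ u)
    (hcon : ∀ v ∈ S, (∃ w ∈ S, w < v) → 0 < aL m S v) (h1 : 1 ≤ s) (h2 : s < S.card) :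
    ∃ T ⊆ S, T.card = s ∧ r ∉ T ∧ (∀ v ∈ T, (∃ w ∈ T, w < v) → 0 < aL m T v) ∧
      (∀ v ∈ S \ T, (∃ w ∈ S \ T, w < v) → 0 < aL m (S \ T) v) ∧
      ∑ t ∈ T, aL m (S \ T) t ≤ s := by
  obtain ⟨T, hTS, hTc, hrT, hT, hCT, hsum⟩ := lemT_aux hm S.card S rfl r s hr hmin
    (fun v hv hw => aL_pos.1 (hcon v hv hw)) h1 h2
  exact ⟨T, hTS, hTc, hrT, fun v hv hw => aL_pos.2 (hT v hv hw),
    fun v hv hw => aL_pos.2 (hCT v hv hw), hsum⟩

end Pool.Agent.LOW.LEMT
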