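import Pool.Agent.Lib.MP_263316_co.LOW.Spec

/-!
MP_263316_co, project LOW, task CNT: the number of components of `U \ C`.
-/

set_option autoImplicit false

namespace Pool.Agent.LOW

open Finset Pool.Agent.SWC

namespace CNTaux

theorem aL_split (m : ℕ → ℕ) {U C : Finset ℕ} (h : C ⊆ U) (v : ℕ) :
    aL m U v = aL m C v + aL m (U \ C) v := by
  unfold aL
  rw [← card_union_of_disjoint]
  · congr 1
    rw [← filter_union, union_sdiff_of_subset h]
  · exact disjoint_filter_filter disjoint_sdiff

theorem aR_split (m : ℕ → ℕ) {U C : Finset ℕ} (h : C ⊆ U) (v : ℕ) :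
    aR m U v = aR m C v + aR m (U \ C) v := by
  unfold aR
  rw [← card_union_of_disjoint]
  · congr 1
    rw [← filter_union, union_sdiff_of_subset h]
  · exact disjoint_filter_filter disjoint_sdiff

theorem aL_zero {m : ℕ → ℕ} {U : Finset ℕ} {v : ℕ} :
    aL m U v = 0 ↔ ∀ u ∈ U, ¬ (u < v ∧ v ≤ m u) := by
  unfold aL
  rw [card_eq_zero, filter_eq_empty_iff]

theorem aR_zero {m : ℕ → ℕ} {U : Finset ℕ} {v : ℕ} :
    aR m U v = 0 ↔ ∀ u ∈ U, ¬ (v < u ∧ u ≤ m v) := by
  unfold aR
  rw [card_eq_zero, filter_eq_empty_iff]

theorem cnR (m : ℕ → ℕ) (hm : Monotone m) (U : Finset ℕ) :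
    cn m U = (U.filter (fun v => aR m U v = 0)).card := by
  induction U using Finset.induction_on_max with
  | empty => simp [cn]
  | insert t s ht ih =>
    have hts : t ∉ s := fun h => lt_irrefl _ (ht t h)
    have e1 : ∀ v ∈ s, (aL m (insert t s) v = 0 ↔ aL m s v = 0) := by
      intro v hv
      rw [aL_zero, aL_zero]
      constructor
      · intro h u hu; exact h u (mem_insert_of_mem hu)
      · intro h u hu
        rcases mem_insert.mp hu with rfl | hu
        · have := ht v hv
          rintro ⟨h1, _⟩; omega
        · exact h u hu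
    have eR : aR m (insert t s) t = 0 := by
      rw [aR_zero]
      intro u hu
      rcases mem_insert.mp hu with rfl | hu
      · rintro ⟨h1, _⟩; omega
      · have := ht u hu
        rintro ⟨h1, _⟩; omega
    by_cases hA : ∃ v ∈ s, t ≤ m v
    · obtain ⟨v0, hv0, hv1⟩ := hA
      have hne : s.Nonempty := ⟨v0, hv0⟩
      set p := s.max' hne with hp
      have hps : p ∈ s := max'_mem _ _
      have hpm : ∀ u ∈ s, u ≤ p := fun u hu => le_max' _ _ hu
      have htp : t ≤ m p := hv1.trans (hm (hpm v0 hv0))
      have c1 : cn m (insert t s) = cn m s := by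
        unfold cn
        congr 1
        ext v
        rw [mem_filter, mem_filter, mem_insert]
        constructor
        · rintro ⟨rfl | hv, h⟩
          · exact absurd ⟨ht p hps, htp⟩ (aL_zero.mp h p (mem_insert_of_mem hps))
          · exact ⟨hv, (e1 v hv).mp h⟩
        · rintro ⟨hv, h⟩
          exact ⟨Or.inr hv, (e1 v hv).mpr h⟩
      have hpF : p ∈ s.filter (fun v => aR m s v = 0) := by
        rw [mem_filter]
        refine ⟨hps, aR_zero.mpr fun u hu => ?_⟩
        have := hpm u hu
        rintro ⟨h1, _⟩; omega
      have c2 : (insert t s).filter (fun v => aR m (insert t s) v = 0) =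
          insert t ((s.filter (fun v => aR m s v = 0)).erase p) := by
        ext v
        rw [mem_filter, mem_insert, mem_insert, mem_erase, mem_filter]
        constructor
        · rintro ⟨rfl | hv, h⟩
          · exact Or.inl rfl
          · right
            rw [aR_zero] at h
            refine ⟨?_, hv, aR_zero.mpr fun u hu => h u (mem_insert_of_mem hu)⟩
            rintro rfl
            exact h t (mem_insert_self _ _) ⟨ht _ hv, htp⟩
        · rintro (rfl | ⟨hvp, hv, h⟩)
          · exact ⟨Or.inl rfl, eR⟩
          · refine ⟨Or.inr hv, aR_zero.mpr fun u hu => ?_⟩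
            rw [aR_zero] at h
            rcases mem_insert.mp hu with rfl | hu
            · rintro ⟨_, h2⟩
              have h3 : v < p := lt_of_le_of_ne (hpm v hv) hvp
              exact h p hps ⟨h3, (ht p hps).le.trans h2⟩
            · exact h u hu
      rw [c1, c2, card_insert_of_notMem, card_erase_of_mem hpF, ih]
      · have := card_pos.mpr ⟨p, hpF⟩
        omega
      · intro h
        exact hts (mem_filter.mp (mem_erase.mp h).2).1
    · have c1 : (insert t s).filter (fun v => aL m (insert t s) v = 0) =
          insert t (s.filter (fun v => aL m s v = 0)) := by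
        ext v
        rw [mem_filter, mem_insert, mem_insert, mem_filter]
        constructor
        · rintro ⟨rfl | hv, h⟩
          · exact Or.inl rfl
          · exact Or.inr ⟨hv, (e1 v hv).mp h⟩
        · rintro (rfl | ⟨hv, h⟩)
          · refine ⟨Or.inl rfl, aL_zero.mpr fun u hu => ?_⟩
            rcases mem_insert.mp hu with rfl | hu
            · rintro ⟨h1, _⟩; omega
            · rintro ⟨_, h2⟩
              exact hA ⟨u, hu, h2⟩
          · exact ⟨Or.inr hv, (e1 v hv).mpr h⟩
      have c2 : (insert t s).filter (fun v => aR m (insert t s) v = 0) =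
          insert t (s.filter (fun v => aR m s v = 0)) := by
        ext v
        rw [mem_filter, mem_insert, mem_insert, mem_filter]
        constructor
        · rintro ⟨rfl | hv, h⟩
          · exact Or.inl rfl
          · rw [aR_zero] at h
            exact Or.inr ⟨hv, aR_zero.mpr fun u hu => h u (mem_insert_of_mem hu)⟩
        · rintro (rfl | ⟨hv, h⟩)
          · exact ⟨Or.inl rfl, eR⟩
          · refine ⟨Or.inr hv, aR_zero.mpr fun u hu => ?_⟩
            rw [aR_zero] at h
            rcases mem_insert.mp hu with rfl | hu
            · rintro ⟨_, h2⟩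
              exact hA ⟨v, hv, h2⟩
            · exact h u hu
      have c3 : cn m (insert t s) = cn m s + 1 := by
        unfold cn
        rw [c1, card_insert_of_notMem]
        intro h
        exact hts (mem_filter.mp h).1
      rw [c3, c2, card_insert_of_notMem, ih]
      intro h
      exact hts (mem_filter.mp h).1

theorem card_le_sum (s : Finset ℕ) (g : ℕ → ℕ) :
    (s.filter (fun v => 1 ≤ g v)).card ≤ ∑ v ∈ s, g v := by
  rw [card_filter]
  apply sum_le_sum
  intro v _
  split_ifs with h
  · exact h
  · exact Nat.zero_le _

end CNTaux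

open CNTaux

theorem tCNT : S_CNT := by
  intro m hm U C r hr hmin hCU hrC
  constructor
  · have h1 : (U \ C).filter (fun v => aL m (U \ C) v = 0) ⊆
        ((U.filter (fun v => aL m U v = 0)).erase r) ∪
          ((U \ C).filter (fun v => 1 ≤ aL m C v)) := by
      intro v hv
      rw [mem_filter] at hv
      rw [mem_union, mem_erase, mem_filter, mem_filter]
      have h2 := aL_split m hCU v
      have h3 := mem_sdiff.mp hv.1
      by_cases h4 : aL m C v = 0
      · left
        refine ⟨?_, h3.1, by omega⟩
        rintro rfl
        exact h3.2 hrC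
      · right
        exact ⟨hv.1, by omega⟩
    have h2 : r ∈ U.filter (fun v => aL m U v = 0) := by
      rw [mem_filter]
      refine ⟨hr, aL_zero.mpr fun u hu => ?_⟩
      have := hmin u hu
      rintro ⟨h5, _⟩; omega
    have h3 := (card_le_card h1).trans (card_union_le _ _)
    rw [card_erase_of_mem h2] at h3
    have h4 := card_pos.mpr ⟨r, h2⟩
    have h5 := card_le_sum (U \ C) (fun v => aL m C v)
    unfold cn ea
    omega
  · rw [cnR m hm (U \ C), cnR m hm U]
    have h1 : (U \ C).filter (fun v => aR m (U \ C) v = 0) ⊆
        (U.filter (fun v => aR m U v = 0)) ∪ ((U \ C).filter (fun v => 1 ≤ aR m C v)) := by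
      intro v hv
      rw [mem_filter] at hv
      rw [mem_union, mem_filter, mem_filter]
      have h2 := aR_split m hCU v
      have h3 := mem_sdiff.mp hv.1
      by_cases h4 : aR m C v = 0
      · left
        exact ⟨h3.1, by omega⟩
      · right
        exact ⟨hv.1, by omega⟩
    have h3 := (card_le_card h1).trans (card_union_le _ _)
    have h5 := card_le_sum (U \ C) (fun v => aR m C v)
    unfold eb
    omega

end Pool.Agent.LOW
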