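import Pool.Agent.Lib.MP_263316_co.LOW.Spec

/-!
MP_263316_co, project LOW, task BIJ: exchanging the first two vertices.
-/

set_option autoImplicit false

namespace Pool.Agent.LOW

open Finset Pool.Agent.SWC

namespace BIJaux

lemma aL_congr {m : ℕ → ℕ} {S T : Finset ℕ} {v : ℕ}
    (h : ∀ u, u < v → v ≤ m u → (u ∈ S ↔ u ∈ T)) : aL m S v = aL m T v := by
  unfold aL
  congr 1
  ext u
  simp only [Finset.mem_filter]
  constructor
  · rintro ⟨h1, h2, h3⟩
    exact ⟨(h u h2 h3).1 h1, h2, h3⟩
  · rintro ⟨h1, h2, h3⟩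
    exact ⟨(h u h2 h3).2 h1, h2, h3⟩

lemma aL_pos {m : ℕ → ℕ} {S : Finset ℕ} {v : ℕ} :
    0 < aL m S v ↔ ∃ u ∈ S, u < v ∧ v ≤ m u := by
  unfold aL
  rw [Finset.card_pos]
  constructor
  · rintro ⟨u, hu⟩
    rw [Finset.mem_filter] at hu
    exact ⟨u, hu.1, hu.2⟩
  · rintro ⟨u, h1, h2⟩
    exact ⟨u, Finset.mem_filter.2 ⟨h1, h2⟩⟩

lemma aL_split {m : ℕ → ℕ} {U C : Finset ℕ} (hC : C ⊆ U) (v : ℕ) :
    aL m U v = aL m C v + aL m (U \ C) v := by
  unfold aL
  rw [← Finset.card_union_of_disjoint, ← Finset.filter_union, Finset.union_sdiff_of_subset hC]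
  exact Finset.disjoint_filter_filter Finset.disjoint_sdiff

/-- every element except the first one has a left neighbour -/
lemma con {m : ℕ → ℕ} {U : Finset ℕ} {r : ℕ} (hr : r ∈ U) (hmin : ∀ u ∈ U, r ≤ u)
    (hc : cn m U = 1) : ∀ v ∈ U, v ≠ r → 0 < aL m U v := by
  intro v hv hne
  by_contra h0
  have h0' : aL m U v = 0 := by omega
  have hr0 : aL m U r = 0 := by
    by_contra h1
    obtain ⟨u, hu, hu1, _⟩ := aL_pos.1 (Nat.pos_of_ne_zero h1)
    have := hmin u hu
    omega
  unfold cn at hc
  obtain ⟨x, hx⟩ := Finset.card_eq_one.1 hc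
  have h1 : v ∈ ({x} : Finset ℕ) := by
    rw [← hx]
    exact Finset.mem_filter.2 ⟨hv, h0'⟩
  have h2 : r ∈ ({x} : Finset ℕ) := by
    rw [← hx]
    exact Finset.mem_filter.2 ⟨hr, hr0⟩
  rw [Finset.mem_singleton] at h1 h2
  exact hne (h1.trans h2.symm)

/-- the condition (M) -/
lemma iffM {m : ℕ → ℕ} {U C : Finset ℕ} (hC : C ⊆ U) (hcon : ∀ v ∈ U \ C, 0 < aL m U v) :
    ea m U C = cn m (U \ C) ↔
      ∀ v ∈ U \ C, aL m C v = if aL m (U \ C) v = 0 then 1 else 0 := by
  unfold ea cn
  rw [Finset.card_filter]
  have hle : ∀ v ∈ U \ C, (if aL m (U \ C) v = 0 then 1 else 0) ≤ aL m C v := by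
    intro v hv
    have h1 := hcon v hv
    rw [aL_split hC v] at h1
    split_ifs with h
    · omega
    · exact Nat.zero_le _
  rw [eq_comm, Finset.sum_eq_sum_iff_of_le hle]
  constructor
  · intro h v hv
    exact (h v hv).symm
  · intro h v hv
    exact (h v hv).symm

lemma two_le {m : ℕ → ℕ} {S : Finset ℕ} {v a b : ℕ} (ha : a ∈ S) (hb : b ∈ S) (hab : a ≠ b)
    (ha1 : a < v) (ha2 : v ≤ m a) (hb1 : b < v) (hb2 : v ≤ m b) : 2 ≤ aL m S v := by
  unfold aL
  rw [← Finset.card_pair hab]
  apply Finset.card_le_card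
  intro x hx
  rw [Finset.mem_insert, Finset.mem_singleton] at hx
  rcases hx with rfl | rfl
  · exact Finset.mem_filter.2 ⟨ha, ha1, ha2⟩
  · exact Finset.mem_filter.2 ⟨hb, hb1, hb2⟩

end BIJaux

open BIJaux

theorem tBIJ : S_BIJ := by
  intro m hm U r r2 r3 hr hr2 hr3 h12 h23 hU hc h3r F
  have hmin : ∀ u ∈ U, r ≤ u := by
    intro u hu
    rcases hU u hu with h | h | h <;> omega
  have hconU := con hr hmin hc
  have hm12 : m r ≤ m r2 := hm h12.le
  have hm23 : m r2 ≤ m r3 := hm h23.le
  have memW : ∀ x, x ∈ U \ {r} ↔ x ∈ U ∧ x ≠ r := by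
    intro x
    rw [Finset.mem_sdiff, Finset.mem_singleton]
  have hconW : ∀ v ∈ U \ {r}, v ≠ r2 → 0 < aL m (U \ {r}) v := by
    intro v hv hv2
    obtain ⟨hvU, hvr⟩ := (memW v).1 hv
    obtain ⟨u, hu, hu1, hu2⟩ := aL_pos.1 (hconU v hvU hvr)
    by_cases hur : u = r
    · refine aL_pos.2 ⟨r2, (memW r2).2 ⟨hr2, by omega⟩, ?_, ?_⟩
      · rcases hU v hvU with h | h | h <;> omega
      · subst hur
        omega
    · exact aL_pos.2 ⟨u, (memW u).2 ⟨hu, hur⟩, hu1, hu2⟩
  -- the condition (M) in `U` and in `W`
  have MU : ∀ C ⊆ U, r ∈ C → (ea m U C = cn m (U \ C) ↔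
      ∀ v ∈ U \ C, aL m C v = if aL m (U \ C) v = 0 then 1 else 0) := by
    intro C hC hrC
    apply iffM hC
    intro v hv
    rw [Finset.mem_sdiff] at hv
    exact hconU v hv.1 (fun h => hv.2 (h ▸ hrC))
  have MW : ∀ C ⊆ U \ {r}, r2 ∈ C → (ea m (U \ {r}) C = cn m ((U \ {r}) \ C) ↔
      ∀ v ∈ (U \ {r}) \ C, aL m C v = if aL m ((U \ {r}) \ C) v = 0 then 1 else 0) := by
    intro C hC hrC
    apply iffM hC
    intro v hv
    rw [Finset.mem_sdiff] at hv
    exact hconW v hv.1 (fun h => hv.2 (h ▸ hrC))
  -- (A)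
  have fA : ∀ C ⊆ U \ {r}, r2 ∈ C → r3 ∈ C → Ok m (U \ {r}) C →
      ∀ u ∈ (U \ {r}) \ C, r3 < u ∧ m r2 < u := by
    intro C hC h2 h3 hok u hu
    have hM := (MW C hC h2).1 hok.2 u hu
    rw [Finset.mem_sdiff] at hu
    obtain ⟨huW, huC⟩ := hu
    obtain ⟨huU, hur⟩ := (memW u).1 huW
    have hu2 : u ≠ r2 := fun h => huC (h ▸ h2)
    have hu3 : u ≠ r3 := fun h => huC (h ▸ h3)
    have hlt : r3 < u := by
      rcases hU u huU with h | h | h <;> omega
    refine ⟨hlt, ?_⟩
    by_contra hle
    have h2le : 2 ≤ aL m C u :=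
      two_le h2 h3 (by omega) (by omega) (by omega) (by omega) (by omega)
    rw [hM] at h2le
    split_ifs at h2le <;> omega
  -- (B)
  have fB : ∀ C ⊆ U, r ∈ C → r2 ∉ C → Ok m U C → r3 ∈ C ∧
      ∀ u ∈ U \ C, u ≠ r2 → r3 < u ∧ m r2 < u := by
    intro C hC h1 h2 hok
    have hM := (MU C hC h1).1 hok.2
    have h3 : r3 ∈ C := by
      by_contra h3
      have hM3 := hM r3 (Finset.mem_sdiff.2 ⟨hr3, h3⟩)
      have p1 : 0 < aL m C r3 := aL_pos.2 ⟨r, h1, by omega, by omega⟩
      have p2 : 0 < aL m (U \ C) r3 :=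
        aL_pos.2 ⟨r2, Finset.mem_sdiff.2 ⟨hr2, h2⟩, by omega, by omega⟩
      rw [if_neg (by omega)] at hM3
      omega
    refine ⟨h3, ?_⟩
    intro u hu hu2
    have hMu := hM u hu
    rw [Finset.mem_sdiff] at hu
    have hur : u ≠ r := fun h => hu.2 (h ▸ h1)
    have hu3 : u ≠ r3 := fun h => hu.2 (h ▸ h3)
    have hlt : r3 < u := by
      rcases hU u hu.1 with h | h | h <;> omega
    refine ⟨hlt, ?_⟩
    by_contra hle
    have p1 : 0 < aL m C u := aL_pos.2 ⟨r3, h3, by omega, by omega⟩
    have p2 : 0 < aL m (U \ C) u :=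
      aL_pos.2 ⟨r2, Finset.mem_sdiff.2 ⟨hr2, h2⟩, by omega, by omega⟩
    rw [if_neg (by omega)] at hMu
    omega
  refine ⟨?_, ?_⟩
  · refine Finset.sum_nbij' (fun C => insert r2 (C.erase r)) (fun C => insert r (C.erase r2))
      ?_ ?_ ?_ ?_ ?_
    · -- backward
      intro C hC
      rw [Finset.mem_filter, Finset.mem_powerset] at hC
      obtain ⟨hCU, ⟨h1, h2⟩, hok⟩ := hC
      obtain ⟨h3, hfar⟩ := fB C hCU h1 h2 hok
      have hM := (MU C hCU h1).1 hok.2
      have memC : ∀ x, x ∈ insert r2 (C.erase r) ↔ x = r2 ∨ (x ≠ r ∧ x ∈ C) := by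
        intro x
        rw [Finset.mem_insert, Finset.mem_erase]
      have hsub : insert r2 (C.erase r) ⊆ U \ {r} := by
        intro x hx
        rcases (memC x).1 hx with h | h
        · exact (memW x).2 ⟨h ▸ hr2, by omega⟩
        · exact (memW x).2 ⟨hCU h.2, h.1⟩
      have h2C : r2 ∈ insert r2 (C.erase r) := (memC r2).2 (Or.inl rfl)
      rw [Finset.mem_filter, Finset.mem_powerset]
      refine ⟨hsub, ⟨h2C, (memC r3).2 (Or.inr ⟨by omega, h3⟩)⟩, ?_, ?_⟩
      · rintro v hv ⟨w, hw, hwv⟩
        have hwU := (memW w).1 (hsub hw)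
        have hw2 : r2 ≤ w := by
          rcases hU w hwU.1 with h | h | h
          · exact absurd h hwU.2
          · omega
          · omega
        rcases (memC v).1 hv with h | h
        · omega
        · have hrv : r < v := lt_of_le_of_ne (hmin v (hCU h.2)) (Ne.symm h.1)
          obtain ⟨u, hu, hu1, hu2⟩ := aL_pos.1 (hok.1 v h.2 ⟨r, h1, hrv⟩)
          by_cases hur : u = r
          · refine aL_pos.2 ⟨r2, h2C, by omega, ?_⟩
            subst hur
            omega
          · exact aL_pos.2 ⟨u, (memC u).2 (Or.inr ⟨hur, hu⟩), hu1, hu2⟩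
      · rw [MW _ hsub h2C]
        intro v hv
        rw [Finset.mem_sdiff, memW, memC] at hv
        obtain ⟨⟨hvU, hvr⟩, hvC⟩ := hv
        have hv2 : v ≠ r2 := fun h => hvC (Or.inl h)
        have hvC' : v ∉ C := fun h => hvC (Or.inr ⟨hvr, h⟩)
        have hvd : v ∈ U \ C := Finset.mem_sdiff.2 ⟨hvU, hvC'⟩
        obtain ⟨hv3, hvm⟩ := hfar v hvd hv2
        have e1 : aL m (insert r2 (C.erase r)) v = aL m C v := by
          apply aL_congr
          intro u hu1 hu2
          have a1 : u ≠ r := by
            rintro rfl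
            omega
          have a2 : u ≠ r2 := by
            rintro rfl
            omega
          rw [memC]
          tauto
        have e2 : aL m ((U \ {r}) \ insert r2 (C.erase r)) v = aL m (U \ C) v := by
          apply aL_congr
          intro u hu1 hu2
          have a1 : u ≠ r := by
            rintro rfl
            omega
          have a2 : u ≠ r2 := by
            rintro rfl
            omega
          rw [Finset.mem_sdiff, memC, memW, Finset.mem_sdiff]
          tauto
        rw [e1, e2]
        exact hM v hvd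
    · -- forward
      intro C hC
      rw [Finset.mem_filter, Finset.mem_powerset] at hC
      obtain ⟨hCW, ⟨h2, h3⟩, hok⟩ := hC
      have hfar := fA C hCW h2 h3 hok
      have hM := (MW C hCW h2).1 hok.2
      have hrC : r ∉ C := fun h => ((memW r).1 (hCW h)).2 rfl
      have memC : ∀ x, x ∈ insert r (C.erase r2) ↔ x = r ∨ (x ≠ r2 ∧ x ∈ C) := by
        intro x
        rw [Finset.mem_insert, Finset.mem_erase]
      have hsub : insert r (C.erase r2) ⊆ U := by
        intro x hx
        rcases (memC x).1 hx with h | h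
        · exact h ▸ hr
        · exact ((memW x).1 (hCW h.2)).1
      have h1C : r ∈ insert r (C.erase r2) := (memC r).2 (Or.inl rfl)
      have h2C : r2 ∉ insert r (C.erase r2) := by
        rw [memC]
        rintro (h | h)
        · omega
        · exact h.1 rfl
      have h3C : r3 ∈ insert r (C.erase r2) := (memC r3).2 (Or.inr ⟨by omega, h3⟩)
      rw [Finset.mem_filter, Finset.mem_powerset]
      refine ⟨hsub, ⟨h1C, h2C⟩, ?_, ?_⟩
      · rintro v hv ⟨w, hw, hwv⟩
        have hrw := hmin w (hsub hw)
        rcases (memC v).1 hv with h | h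
        · omega
        · have hvU := ((memW v).1 (hCW h.2)).1
          have hv3 : r3 ≤ v := by
            rcases hU v hvU with h' | h' | h'
            · omega
            · exact absurd h' h.1
            · exact h'
          by_cases hv3' : v = r3
          · exact aL_pos.2 ⟨r, h1C, by omega, by omega⟩
          · obtain ⟨u, hu, hu1, hu2⟩ := aL_pos.1 (hok.1 v h.2 ⟨r2, h2, by omega⟩)
            by_cases hur : u = r2
            · refine aL_pos.2 ⟨r3, h3C, by omega, ?_⟩
              subst hur
              omega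
            · exact aL_pos.2 ⟨u, (memC u).2 (Or.inr ⟨hur, hu⟩), hu1, hu2⟩
      · rw [MU _ hsub h1C]
        intro v hv
        by_cases hv2 : v = r2
        · have e1 : aL m (insert r (C.erase r2)) v = 1 := by
            unfold aL
            rw [Finset.card_eq_one]
            refine ⟨r, ?_⟩
            ext u
            rw [Finset.mem_filter, memC, Finset.mem_singleton]
            constructor
            · rintro ⟨h | h, h4, h5⟩
              · exact h
              · exfalso
                have huU := (memW u).1 (hCW h.2)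
                rcases hU u huU.1 with h' | h' | h'
                · exact huU.2 h'
                · exact h.1 h'
                · omega
            · intro h
              subst h
              exact ⟨Or.inl rfl, by omega, by omega⟩
          have e2 : aL m (U \ insert r (C.erase r2)) v = 0 := by
            by_contra h0
            obtain ⟨u, hu, hu1, hu2⟩ := aL_pos.1 (Nat.pos_of_ne_zero h0)
            rw [Finset.mem_sdiff] at hu
            have : u ≠ r := fun h => hu.2 (h ▸ h1C)
            rcases hU u hu.1 with h' | h' | h' <;> omega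
          rw [e1, e2, if_pos rfl]
        · rw [Finset.mem_sdiff, memC] at hv
          obtain ⟨hvU, hvC⟩ := hv
          have hvr : v ≠ r := fun h => hvC (Or.inl h)
          have hvC' : v ∉ C := fun h => hvC (Or.inr ⟨hv2, h⟩)
          have hvd : v ∈ (U \ {r}) \ C := Finset.mem_sdiff.2 ⟨(memW v).2 ⟨hvU, hvr⟩, hvC'⟩
          obtain ⟨hv3, hvm⟩ := hfar v hvd
          have e1 : aL m (insert r (C.erase r2)) v = aL m C v := by
            apply aL_congr
            intro u hu1 hu2
            have a1 : u ≠ r := by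
              rintro rfl
              omega
            have a2 : u ≠ r2 := by
              rintro rfl
              omega
            rw [memC]
            tauto
          have e2 : aL m (U \ insert r (C.erase r2)) v = aL m ((U \ {r}) \ C) v := by
            apply aL_congr
            intro u hu1 hu2
            have a1 : u ≠ r := by
              rintro rfl
              omega
            have a2 : u ≠ r2 := by
              rintro rfl
              omega
            rw [Finset.mem_sdiff, memC, Finset.mem_sdiff, memW]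
            tauto
          rw [e1, e2]
          exact hM v hvd
    · -- left inverse
      intro C hC
      rw [Finset.mem_filter, Finset.mem_powerset] at hC
      obtain ⟨hCU, ⟨h1, h2⟩, hok⟩ := hC
      ext x
      simp only [Finset.mem_insert, Finset.mem_erase]
      by_cases hx1 : x = r
      · subst hx1
        tauto
      · by_cases hx2 : x = r2
        · subst hx2
          tauto
        · tauto
    · -- right inverse
      intro C hC
      rw [Finset.mem_filter, Finset.mem_powerset] at hC
      obtain ⟨hCW, ⟨h2, h3⟩, hok⟩ := hC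
      have hrC : r ∉ C := fun h => ((memW r).1 (hCW h)).2 rfl
      ext x
      simp only [Finset.mem_insert, Finset.mem_erase]
      by_cases hx1 : x = r
      · subst hx1
        have : x ≠ r2 := by omega
        tauto
      · by_cases hx2 : x = r2
        · subst hx2
          tauto
        · tauto
    · -- values
      intro C hC
      rw [Finset.mem_filter, Finset.mem_powerset] at hC
      obtain ⟨hCU, ⟨h1, h2⟩, hok⟩ := hC
      have ec : (insert r2 (C.erase r)).card = C.card := by
        rw [Finset.card_insert_of_notMem (fun h => h2 (Finset.mem_of_mem_erase h)),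
          Finset.card_erase_of_mem h1]
        have : 0 < C.card := Finset.card_pos.2 ⟨r, h1⟩
        omega
      have es : insert r2 ((U \ {r}) \ insert r2 (C.erase r)) = U \ C := by
        ext x
        simp only [Finset.mem_insert, Finset.mem_sdiff, Finset.mem_singleton, Finset.mem_erase]
        by_cases hx1 : x = r
        · subst hx1
          have : x ≠ r2 := by omega
          tauto
        · by_cases hx2 : x = r2
          · subst hx2
            tauto
          · tauto
      rw [ec, es]
  · intro C hC h2 h3 hok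
    refine ⟨?_, ?_⟩
    · rw [← Finset.card_pair (show r2 ≠ r3 by omega)]
      apply Finset.card_le_card
      intro x hx
      rw [Finset.mem_insert, Finset.mem_singleton] at hx
      rcases hx with rfl | rfl
      · exact h2
      · exact h3
    · intro u hu
      have := fA C hC h2 h3 hok u hu
      exact ⟨by omega, this.2⟩

end Pool.Agent.LOW
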