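import Pool.Agent.Lib.MP_263316_co.LOW.Spec

/-!
MP_263316_co, project LOW (helper30): the final form of the theorem, `S_FINAL` with the additional
statement that the coefficients below `l - c` vanish (`S_ORD`).
-/

set_option autoImplicit false

namespace Pool.Agent.LOW

open Finset Pool.Agent.SWC

namespace ENDx

open FinAux

theorem cn_mh {n : ℕ} (h : Fin n → Fin n) :
    cn (mh h) (range n) =
      (Finset.univ.filter (fun i : Fin n => ∀ j : Fin n, j < i → h j < i)).card := by
  unfold cn
  rw [Finset.card_filter, Finset.card_filter, Finset.sum_range]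
  refine Finset.sum_congr rfl fun v _ => ?_
  have : aL (mh h) (range n) (v : ℕ) = 0 ↔ ∀ j : Fin n, j < v → h j < v := by
    unfold aL
    rw [Finset.card_eq_zero, Finset.filter_eq_empty_iff]
    constructor
    · intro H j hj
      have h1 := H (Finset.mem_range.mpr j.2)
      rw [mh_fin] at h1
      by_contra h2
      exact h1 ⟨Fin.lt_def.mp hj, Fin.le_def.mp (not_lt.mp h2)⟩
    · intro H u hu
      rw [Finset.mem_range] at hu
      rintro ⟨h1, h2⟩
      have e1 : mh h u = (h ⟨u, hu⟩ : ℕ) := mh_fin h ⟨u, hu⟩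
      rw [e1] at h2
      have h3 := H ⟨u, hu⟩ (Fin.lt_def.mpr h1)
      exact absurd (Fin.lt_def.mp h3) (by omega)
  simp only [this]

end ENDx

/-- The theorem: `S_FINAL` with the vanishing of the coefficients below `l - c`. -/
def S_END : Prop := ∀ (n : ℕ) (h : Fin n → Fin n), Monotone h → (∀ i, i ≤ h i) →
    ∀ E c : ℕ, E = (Finset.univ.filter (fun p : Fin n × Fin n => p.1 < p.2 ∧ p.2 ≤ h p.1)).card →
    c = (Finset.univ.filter (fun i : Fin n => ∀ j : Fin n, j < i → h j < i)).card →
    ∃ a : Nat.Partition n → Polynomial ℤ,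
      ((∑ κ ∈ (Finset.univ.filter
            (fun κ : Fin n → Fin n => ∀ i j : Fin n, i < j → j ≤ h i → κ i ≠ κ j)),
          MvPolynomial.C (Polynomial.X ^ ((Finset.univ.filter
            (fun p : Fin n × Fin n => p.1 < p.2 ∧ p.2 ≤ h p.1 ∧ κ p.1 < κ p.2)).card))
            * ∏ i : Fin n, MvPolynomial.X (κ i) : MvPolynomial (Fin n) (Polynomial ℤ))
        = ∑ μ : Nat.Partition n, MvPolynomial.C (a μ) *
            (μ.parts.map (fun k => MvPolynomial.esymm (Fin n) (Polynomial ℤ) k)).prod)
      ∧ ∀ μ : Nat.Partition n,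
          (∀ j : ℕ, j + c < Multiset.card μ.parts → (a μ).coeff j = 0)
          ∧ (∀ s ∈ μ.parts, (∀ p ∈ μ.parts, s ≤ p) → ∀ i j : ℕ, i ≤ j →
            j + c + 2 ≤ Multiset.card μ.parts + s →
            0 ≤ (a μ).coeff i ∧ (a μ).coeff i ≤ (a μ).coeff j)
          ∧ 0 ≤ (a μ).coeff (Multiset.card μ.parts - c)
          ∧ (∀ j : ℕ, j ≤ 2 → 0 ≤ (a μ).coeff j)
          ∧ (c = 1 → 4 ≤ E → (a μ).coeff 0 ≤ (a μ).coeff 1 ∧ (a μ).coeff 1 ≤ (a μ).coeff 2)

open ENDx FinAux in
theorem tEND : S_ORD → S_INC → S_NNG → S_THREE → S_PAR → S_END := by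
  intro hORD hINC hNNG hTHREE hPAR n h hm hle E c hE hc
  have hg : Monotone (mh h) := mh_mono h hm
  have hcard : (range n).card = n := Finset.card_range n
  obtain ⟨a, fv, ha, hfv⟩ := hPAR (mh h) hg n (range n) hcard
  have hcn : cn (mh h) (range n) = c := (cn_mh h).trans hc.symm
  have hEE : eE (mh h) (range n) = E := (eE_mh h).trans hE.symm
  refine ⟨a, (sum_eq h Pool.Agent.SWC.t_FUN).trans ha, fun μ => ?_⟩
  obtain ⟨h1, h2, h3⟩ := hfv μ
  have hT := hTHREE (mh h) hg n (range n) hcard.le (fv μ)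
  rw [← h1, hcn, hEE] at hT
  refine ⟨?_, ?_, ?_, hT.1, hT.2⟩
  · intro j hj
    rw [h1]
    refine hORD (mh h) hg n (range n) hcard.le (fv μ) j ?_
    rw [hcn, h2]
    exact hj
  · intro s hs hmin i j hij hj
    have hparts : ∀ i : Fin n, 0 < fv μ i → s ≤ (i : ℕ) + 1 := by
      intro i hi
      rw [h3] at hi
      exact hmin _ (Multiset.count_pos.mp hi)
    have hI := hINC (mh h) hg n (range n) hcard.le (fv μ) s hparts
    rw [← h1, hcn, h2] at hI
    have hne : fv μ ≠ 0 := by
      intro h0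
      have h4 : len (fv μ) = 0 := by
        rw [h0]
        unfold len
        simp
      rw [h2, Multiset.card_eq_zero] at h4
      rw [h4] at hs
      exact absurd hs (Multiset.notMem_zero s)
    refine ⟨hI.1 i (by omega), ?_⟩
    induction j, hij using Nat.le_induction with
    | base => exact le_refl _
    | succ j hij ih =>
      exact (ih (by omega)).trans (hI.2 hne j (by omega))
  · by_cases hcl : c ≤ Multiset.card μ.parts
    · have h4 := hNNG (mh h) hg n (range n) hcard.le (fv μ)
      unfold Lw at h4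
      rw [hcn, h2, if_pos hcl, ← h1] at h4
      exact h4
    · rw [Nat.sub_eq_zero_of_le (by omega)]
      exact hT.1 0 (by omega)

end Pool.Agent.LOW
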