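import Pool.Agent.Lib.MP_263316_co.LOW.Spec

/-!
MP_263316_co, project LOW, module INC: the coefficients up to `l - c + s - 2`.
-/

set_option autoImplicit false

namespace Pool.Agent.LOW

open Finset Pool.Agent.SWC

namespace INCaux

/-- all coefficients are nonnegative -/
def NN (p : Polynomial ℤ) : Prop := ∀ j, 0 ≤ p.coeff j

theorem inc_nn_zero : NN 0 := fun j => by rw [Polynomial.coeff_zero]

theorem inc_nn_one : NN 1 := fun j => by
  rw [Polynomial.coeff_one]
  split_ifs <;> norm_num

theorem inc_nn_add {p q : Polynomial ℤ} (hp : NN p) (hq : NN q) : NN (p + q) := fun j => by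
  rw [Polynomial.coeff_add]
  exact add_nonneg (hp j) (hq j)

theorem inc_nn_mul {p q : Polynomial ℤ} (hp : NN p) (hq : NN q) : NN (p * q) := fun j => by
  rw [Polynomial.coeff_mul]
  exact Finset.sum_nonneg fun x _ => mul_nonneg (hp _) (hq _)

theorem inc_nn_X_pow (n : ℕ) : NN (Polynomial.X ^ n) := fun j => by
  rw [Polynomial.coeff_X_pow]
  split_ifs <;> norm_num

theorem inc_nn_sum {ι : Type} (s : Finset ι) (f : ι → Polynomial ℤ) (h : ∀ i ∈ s, NN (f i)) :
    NN (∑ i ∈ s, f i) := by
  classical
  induction s using Finset.induction_on with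
  | empty => rw [Finset.sum_empty]; exact inc_nn_zero
  | insert a s ha ih =>
    rw [Finset.sum_insert ha]
    exact inc_nn_add (h a (Finset.mem_insert_self _ _))
      (ih fun i hi => h i (Finset.mem_insert_of_mem hi))

theorem inc_nn_prod {ι : Type} (s : Finset ι) (f : ι → Polynomial ℤ) (h : ∀ i ∈ s, NN (f i)) :
    NN (∏ i ∈ s, f i) := by
  classical
  induction s using Finset.induction_on with
  | empty => rw [Finset.prod_empty]; exact inc_nn_one
  | insert a s ha ih =>
    rw [Finset.prod_insert ha]
    exact inc_nn_mul (h a (Finset.mem_insert_self _ _))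
      (ih fun i hi => h i (Finset.mem_insert_of_mem hi))

theorem inc_nn_qn (n : ℕ) : NN (qn (Polynomial.X : Polynomial ℤ) n) := by
  unfold qn
  exact inc_nn_sum _ _ fun i _ => inc_nn_X_pow i

theorem inc_nn_Pi (m : ℕ → ℕ) (r : ℕ) (C : Finset ℕ) : NN (Pi m (Polynomial.X : Polynomial ℤ) r C) := by
  unfold Pi
  exact inc_nn_prod _ _ fun v _ => inc_nn_qn _

/-- the product starts late -/
theorem inc_low {g p : Polynomial ℤ} {e a L j : ℕ} (h : ∀ j, j + a < L → p.coeff j = 0)
    (hj : j + a < L + e) : (g * (Polynomial.X ^ e * p)).coeff j = 0 := by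
  rw [Polynomial.coeff_mul]
  refine Finset.sum_eq_zero fun x hx => ?_
  have hx' := Finset.HasAntidiagonal.mem_antidiagonal.1 hx
  rw [Polynomial.coeff_X_pow_mul']
  split_ifs with h1
  · rw [h _ (by omega), mul_zero]
  · rw [mul_zero]

/-- nonnegative coefficients -/
theorem inc_pos {g p : Polynomial ℤ} {e j : ℕ} (hg : NN g)
    (h : ∀ i, i + e ≤ j → 0 ≤ p.coeff i) : 0 ≤ (g * (Polynomial.X ^ e * p)).coeff j := by
  rw [Polynomial.coeff_mul]
  refine Finset.sum_nonneg fun x hx => ?_
  have hx' := Finset.HasAntidiagonal.mem_antidiagonal.1 hx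
  rw [Polynomial.coeff_X_pow_mul']
  split_ifs with h1
  · exact mul_nonneg (hg _) (h _ (by omega))
  · rw [mul_zero]

theorem inc_len_sub {N : ℕ} (f : Fin N →₀ ℕ) (i : Fin N) (hi : 0 < f i) :
    len (f - Finsupp.single i 1) + 1 = len f := by
  have h1 : (f - Finsupp.single i 1) + Finsupp.single i 1 = f := by
    refine tsub_add_cancel_of_le ?_
    rw [Finsupp.single_le_iff]
    exact hi
  have h2 : len f = len ((f - Finsupp.single i 1) + Finsupp.single i 1) := by rw [h1]
  rw [h2]
  unfold len
  simp only [Finsupp.add_apply]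
  rw [Finset.sum_add_distrib]
  congr 1
  simp [Finsupp.single_apply]

theorem inc_co0 (a : Polynomial ℤ) : ((1 - Polynomial.X) * a).coeff 0 = a.coeff 0 := by
  rw [sub_mul, one_mul, Polynomial.coeff_sub, Polynomial.mul_coeff_zero, Polynomial.coeff_X_zero,
    zero_mul, sub_zero]

theorem inc_co1 (a : Polynomial ℤ) (j : ℕ) :
    ((1 - Polynomial.X) * a).coeff (j + 1) = a.coeff (j + 1) - a.coeff j := by
  rw [sub_mul, one_mul, Polynomial.coeff_sub, Polynomial.coeff_X_mul]

end INCaux

open INCaux

theorem tINC : S_PHI → S_REC → S_CNT → S_ORD → S_INC := by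
  intro hPHI hREC hCNT hORD m hm N
  -- the main claim
  have key : ∀ (U : Finset ℕ), U.Nonempty → U.card ≤ N →
      (∀ V : Finset ℕ, V.card < U.card → ∀ (f : Fin N →₀ ℕ) (s : ℕ),
        (∀ i : Fin N, 0 < f i → s ≤ (i : ℕ) + 1) →
        ∀ j : ℕ, j + cn m V + 1 < len f + s → 0 ≤ (cf m N V f).coeff j) →
      ∀ (f : Fin N →₀ ℕ) (s : ℕ), (∀ i : Fin N, 0 < f i → s ≤ (i : ℕ) + 1) →
      ∀ j : ℕ, j + cn m U + 1 < len f + s → 0 ≤ ((1 - Polynomial.X) * cf m N U f).coeff j := by
    intro U hU hN ih f s hs j hj
    have hr : U.min' hU ∈ U := U.min'_mem hU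
    have hmin : ∀ u ∈ U, U.min' hU ≤ u := fun u hu => U.min'_le u hu
    rw [hREC m hm N U (U.min' hU) hr hmin hN f, Polynomial.finsetSum_coeff]
    refine Finset.sum_nonneg fun C hC => ?_
    obtain ⟨hCU, hrC⟩ := Finset.mem_filter.1 hC
    rw [Finset.mem_powerset] at hCU
    obtain ⟨hc1, hc2⟩ := hCNT m hm U C (U.min' hU) hr hmin hCU hrC
    have hsub : (U \ C).card < U.card := by
      refine Finset.card_lt_card ?_
      rw [Finset.ssubset_iff_of_subset Finset.sdiff_subset]
      exact ⟨U.min' hU, hr, fun h => (Finset.mem_sdiff.1 h).2 hrC⟩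
    unfold cfd
    rw [Finset.mul_sum, Polynomial.finsetSum_coeff]
    refine Finset.sum_nonneg fun i _ => ?_
    split_ifs with hi
    · obtain ⟨hi1, hi2⟩ := hi
      have hlen := inc_len_sub f i hi2
      have hsi := hs i hi2
      have hw : wC m U (U.min' hU) C * cf m N (U \ C) (f - Finsupp.single i 1) =
          Pi m (Polynomial.X : Polynomial ℤ) (U.min' hU) C *
            (Polynomial.X ^ ea m U C * cf m N (U \ C) (f - Finsupp.single i 1)) -
          Pi m (Polynomial.X : Polynomial ℤ) (U.min' hU) C *
            (Polynomial.X ^ (C.card + eb m U C) *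
              cf m N (U \ C) (f - Finsupp.single i 1)) := by
        unfold wC
        ring
      rw [hw, Polynomial.coeff_sub]
      have h0 : (Pi m (Polynomial.X : Polynomial ℤ) (U.min' hU) C *
            (Polynomial.X ^ (C.card + eb m U C) *
              cf m N (U \ C) (f - Finsupp.single i 1))).coeff j = 0 := by
        refine inc_low (a := cn m (U \ C)) (L := len (f - Finsupp.single i 1)) ?_ (by omega)
        intro j' hj'
        exact hORD m hm N (U \ C) (by omega) _ j' hj'
      rw [h0, sub_zero]
      refine inc_pos (inc_nn_Pi _ _ _) fun j' hj' => ?_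
      refine ih (U \ C) hsub _ s ?_ j' (by omega)
      intro k hk
      refine hs k (lt_of_lt_of_le hk ?_)
      rw [Finsupp.tsub_apply]
      exact Nat.sub_le _ _
    · rw [mul_zero, Polynomial.coeff_zero]
  -- the first statement
  have first : ∀ n : ℕ, ∀ (U : Finset ℕ), U.card = n → U.card ≤ N → ∀ (f : Fin N →₀ ℕ) (s : ℕ),
      (∀ i : Fin N, 0 < f i → s ≤ (i : ℕ) + 1) →
      ∀ j : ℕ, j + cn m U + 1 < len f + s → 0 ≤ (cf m N U f).coeff j := by
    intro n
    induction n using Nat.strong_induction_on with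
    | _ n ihn =>
      intro U hUn hN f s hs
      rcases U.eq_empty_or_nonempty with h0 | hU
      · intro j _
        rw [h0]
        unfold cf
        rw [hPHI.2.2.1 m hm N, MvPolynomial.coeff_one]
        split_ifs
        · exact inc_nn_one j
        · rw [Polynomial.coeff_zero]
      · have hk := key U hU hN (fun V hV f' s' hs' j' hj' =>
          ihn V.card (by omega) V rfl (by omega) f' s' hs' j' hj') f s hs
        intro j
        induction j with
        | zero =>
          intro hj
          have := hk 0 hj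
          rwa [inc_co0] at this
        | succ j ihj =>
          intro hj
          have h1 := hk (j + 1) hj
          rw [inc_co1] at h1
          have h2 := ihj (by omega)
          linarith
  intro U hN f s hs
  refine ⟨first U.card U rfl hN f s hs, fun hf j hj => ?_⟩
  rcases U.eq_empty_or_nonempty with h0 | hU
  · rw [h0]
    unfold cf
    rw [hPHI.2.2.1 m hm N, MvPolynomial.coeff_one, if_neg (fun h => hf h.symm),
      Polynomial.coeff_zero, Polynomial.coeff_zero]
  · have h1 := key U hU hN (fun V hV f' s' hs' j' hj' =>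
      first V.card V rfl (by omega) f' s' hs' j' hj') f s hs (j + 1) (by omega)
    rw [inc_co1] at h1
    linarith

end Pool.Agent.LOW
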