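import Pool.Agent.Lib.MP_263316_co.LOW.Spec

/-!
MP_263316_co, project LOW, task ISO: an isolated first vertex.
-/

set_option autoImplicit false

namespace Pool.Agent.LOW

open Finset Pool.Agent.SWC

namespace ISOaux

/-- one more component -/
theorem cn_insert (m : ℕ → ℕ) (V : Finset ℕ) (v : ℕ) (hV : ∀ u ∈ V, v < u ∧ m v < u) :
    cn m (insert v V) = cn m V + 1 := by
  have hv : v ∉ V := fun h => lt_irrefl v (hV v h).1
  have h0 : aL m (insert v V) v = 0 := by
    unfold aL
    rw [Finset.card_eq_zero, Finset.filter_eq_empty_iff]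
    intro u hu
    rw [Finset.mem_insert] at hu
    rcases hu with rfl | hu
    · omega
    · have := (hV u hu).1
      omega
  have h1 : ∀ u ∈ V, aL m (insert v V) u = aL m V u := by
    intro u hu
    have h2 := hV u hu
    unfold aL
    rw [Finset.filter_insert, if_neg (by omega)]
  unfold cn
  rw [Finset.filter_insert, if_pos h0, Finset.card_insert_of_notMem]
  · congr 2
    refine Finset.filter_congr fun u hu => ?_
    rw [h1 u hu]
  · intro h
    exact hv (Finset.mem_filter.1 h).1

theorem len_sub {N : ℕ} (f : Fin N →₀ ℕ) (i : Fin N) (h : 0 < f i) :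
    len f = len (f - Finsupp.single i 1) + 1 := by
  unfold len
  have h1 : ∀ j : Fin N, f j = (f - Finsupp.single i 1 : Fin N →₀ ℕ) j + if j = i then 1 else 0 := by
    intro j
    rw [Finsupp.tsub_apply, Finsupp.single_apply]
    by_cases hj : j = i
    · subst hj
      simp only [if_true]
      omega
    · rw [if_neg (fun e => hj e.symm), if_neg hj]
      omega
  rw [Finset.sum_congr rfl fun j _ => h1 j, Finset.sum_add_distrib]
  simp

end ISOaux

theorem tISO : S_PHI → S_ISO := by
  intro hPHI m hm N h V v hV f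
  obtain ⟨-, -, -, hmul, hone⟩ := hPHI
  have hPh : Ph m N (insert v V) = MvPolynomial.X (⟨0, h⟩ : Fin N) * Ph m N V := by
    rw [← hone m hm N h v, ← hmul m hm N {v} V ?_, Finset.insert_eq]
    intro u hu w hw
    rw [Finset.mem_singleton] at hu
    subst hu
    exact hV w hw
  have hcf : ∀ g : Fin N →₀ ℕ, cf m N (insert v V) g =
      if 0 < g ⟨0, h⟩ then cf m N V (g - Finsupp.single ⟨0, h⟩ 1) else 0 := by
    intro g
    unfold cf
    rw [hPh, MvPolynomial.coeff_X_mul']
    by_cases hg : 0 < g ⟨0, h⟩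
    · rw [if_pos hg, if_pos (Finsupp.mem_support_iff.2 hg.ne')]
    · rw [if_neg hg, if_neg (fun e => hg (Nat.pos_of_ne_zero (Finsupp.mem_support_iff.1 e)))]
  have hcn := ISOaux.cn_insert m V v hV
  have hLw : ∀ g : Fin N →₀ ℕ, Lw m N (insert v V) g =
      if 0 < g ⟨0, h⟩ then Lw m N V (g - Finsupp.single ⟨0, h⟩ 1) else 0 := by
    intro g
    unfold Lw
    rw [hcf g, hcn]
    by_cases hg : 0 < g ⟨0, h⟩
    · rw [if_pos hg, if_pos hg]
      have hl := ISOaux.len_sub g ⟨0, h⟩ hg
      by_cases hc : cn m V ≤ len (g - Finsupp.single ⟨0, h⟩ 1)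
      · rw [if_pos (by omega), if_pos hc]
        congr 1
        omega
      · rw [if_neg (by omega), if_neg hc]
    · rw [if_neg hg, if_neg hg]
      simp
  refine ⟨hLw f, ?_⟩
  intro k hk
  unfold Lwd
  by_cases hf : 0 < f ⟨0, h⟩
  · rw [if_pos hf]
    refine Finset.sum_congr rfl fun i _ => ?_
    by_cases hik : (i : ℕ) + 1 = k
    · have hi0 : i ≠ ⟨0, h⟩ := by
        intro e
        rw [e] at hik
        simp at hik
        omega
      have e1 : (f - Finsupp.single (⟨0, h⟩ : Fin N) 1 : Fin N →₀ ℕ) i = f i := by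
        rw [Finsupp.tsub_apply, Finsupp.single_apply, if_neg (fun e => hi0 e.symm)]
        omega
      have e2 : (f - Finsupp.single i 1 : Fin N →₀ ℕ) ⟨0, h⟩ = f ⟨0, h⟩ := by
        rw [Finsupp.tsub_apply, Finsupp.single_apply, if_neg hi0]
        omega
      rw [e1, hLw, e2, if_pos hf, tsub_right_comm]
    · rw [if_neg (fun e => hik e.1), if_neg (fun e => hik e.1)]
  · rw [if_neg hf]
    refine Finset.sum_eq_zero fun i _ => ?_
    by_cases hc : (i : ℕ) + 1 = k ∧ 0 < f i
    · rw [if_pos hc, hLw, if_neg]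
      intro e
      rw [Finsupp.tsub_apply] at e
      omega
    · rw [if_neg hc]

end Pool.Agent.LOW
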