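import Pool.Agent.Lib.MP_263316_co.LOW.Spec

/-!
MP_263316_co, project LOW, task LWR: the recursion for the lowest coefficient.
-/

set_option autoImplicit false

namespace Pool.Agent.LOW

open Finset Pool.Agent.SWC

namespace LWRaux

theorem qn_coeff (k : ℕ) : (qn (Polynomial.X : Polynomial ℤ) k).coeff 0 =
    if 0 < k then 1 else 0 := by
  rw [Polynomial.coeff_zero_eq_eval_zero]
  unfold qn
  rw [Polynomial.eval_finsetSum]
  simp only [Polynomial.eval_pow, Polynomial.eval_X]
  rcases k with _ | k
  · simp
  · rw [Finset.sum_range_succ']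
    simp

theorem Pi_coeff (m : ℕ → ℕ) (r : ℕ) (C : Finset ℕ) :
    (Pi m (Polynomial.X : Polynomial ℤ) r C).coeff 0 =
      if (∀ v ∈ C.erase r, 0 < aL m C v) then 1 else 0 := by
  rw [Polynomial.coeff_zero_eq_eval_zero]
  unfold Pi
  rw [Polynomial.eval_prod]
  split_ifs with h
  · apply Finset.prod_eq_one
    intro v hv
    rw [← Polynomial.coeff_zero_eq_eval_zero, qn_coeff, if_pos (h v hv)]
  · have h' : ∃ v ∈ C.erase r, ¬ 0 < aL m C v := by
      by_contra h2
      apply h
      intro v hv
      by_contra h3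
      exact h2 ⟨v, hv, h3⟩
    obtain ⟨v, hv, h0⟩ := h'
    apply Finset.prod_eq_zero hv
    rw [← Polynomial.coeff_zero_eq_eval_zero, qn_coeff, if_neg h0]

theorem low_coeff (P A : Polynomial ℤ) (e c j : ℕ) (hA : ∀ i, i + c < j → A.coeff i = 0)
    (hce : c ≤ e) : (P * Polynomial.X ^ e * A).coeff j =
      if e = c then (if c ≤ j then P.coeff 0 * A.coeff (j - c) else 0) else 0 := by
  have h1 : P * Polynomial.X ^ e * A = (P * A) * Polynomial.X ^ e := by ring
  rw [h1, Polynomial.coeff_mul_X_pow']
  by_cases hej : e ≤ j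
  · rw [if_pos hej, Polynomial.coeff_mul]
    by_cases hec : e = c
    · subst hec
      rw [if_pos rfl, if_pos hej]
      rw [Finset.sum_eq_single (0, j - e)]
      · rintro ⟨a, b⟩ hab hne
        have h2 : a + b = j - e := by simpa using hab
        have h3 : b + e < j := by
          have h4 : a ≠ 0 := by
            rintro rfl
            apply hne
            rw [Nat.zero_add] at h2
            rw [h2]
          omega
        simp only
        rw [hA b h3, mul_zero]
      · intro h
        exact absurd (by simp) h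
    · rw [if_neg hec]
      apply Finset.sum_eq_zero
      rintro ⟨a, b⟩ hab
      have h2 : a + b = j - e := by simpa using hab
      have h3 : b + c < j := by omega
      simp only
      rw [hA b h3, mul_zero]
  · rw [if_neg hej]
    by_cases hec : e = c
    · rw [if_pos hec, if_neg (by omega)]
    · rw [if_neg hec]

theorem len_sub {N : ℕ} (f : Fin N →₀ ℕ) (i : Fin N) (hi : 0 < f i) :
    len f = len (f - Finsupp.single i 1) + 1 := by
  have h1 : f = (f - Finsupp.single i 1) + Finsupp.single i 1 := by
    rw [tsub_add_cancel_of_le]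
    rw [Finsupp.single_le_iff]
    exact hi
  have h2 : ∀ g : Fin N →₀ ℕ, len (g + Finsupp.single i 1) = len g + 1 := by
    intro g
    unfold len
    simp only [Finsupp.add_apply]
    rw [Finset.sum_add_distrib]
    congr 1
    simp [Finsupp.single_apply]
  calc len f = len ((f - Finsupp.single i 1) + Finsupp.single i 1) := by rw [← h1]
    _ = _ := h2 _

theorem aL_first (m : ℕ → ℕ) (V : Finset ℕ) (v : ℕ) (h : ∀ u ∈ V, v ≤ u) : aL m V v = 0 := by
  unfold aL
  rw [Finset.card_eq_zero, Finset.filter_eq_empty_iff]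
  intro u hu h2
  exact absurd (h u hu) (by omega)

theorem eb_single (m : ℕ → ℕ) (U : Finset ℕ) (r : ℕ) (hr : ∀ u ∈ U, r ≤ u) :
    eb m U {r} = 0 := by
  unfold eb
  apply Finset.sum_eq_zero
  intro v hv
  unfold aR
  rw [Finset.card_eq_zero, Finset.filter_eq_empty_iff]
  intro u hu h2
  rw [Finset.mem_singleton] at hu
  have h3 := hr v (Finset.mem_sdiff.mp hv).1
  omega

theorem cn_pos (m : ℕ → ℕ) (V : Finset ℕ) (hV : V.Nonempty) : 1 ≤ cn m V := by
  unfold cn
  rw [Nat.one_le_iff_ne_zero, Ne, Finset.card_eq_zero]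
  intro h
  have h1 : V.min' hV ∈ V.filter (fun v => aL m V v = 0) := by
    rw [Finset.mem_filter]
    exact ⟨V.min'_mem hV, aL_first m V _ (fun u hu => V.min'_le u hu)⟩
  rw [h] at h1
  simp at h1

theorem key (hCNT : S_CNT) (hORD : S_ORD) (m : ℕ → ℕ) (hm : Monotone m) (N : ℕ)
    (U : Finset ℕ) (r : ℕ) (hrU : r ∈ U) (hr : ∀ u ∈ U, r ≤ u) (hN : U.card ≤ N)
    (h2 : 2 ≤ U.card) (hc : cn m U = 1) (C : Finset ℕ) (hC : C ⊆ U) (hrC : r ∈ C)
    (g : Fin N →₀ ℕ) (j : ℕ) (hj : len g = j) :
    (wC m U r C * cf m N (U \ C) g).coeff j =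
      ((if Ok m U C then 1 else 0 : ℤ) - (if C = {r} then 1 else 0)) * Lw m N (U \ C) g := by
  have hcnt := hCNT m hm U C r hrU hr hC hrC
  rw [hc] at hcnt
  have hV : (U \ C).card ≤ N := le_trans (Finset.card_le_card Finset.sdiff_subset) hN
  have hA : ∀ i, i + cn m (U \ C) < j → (cf m N (U \ C) g).coeff i = 0 := by
    intro i hi
    exact hORD m hm N (U \ C) hV g i (by omega)
  have hC1 : 1 ≤ C.card := Finset.card_pos.mpr ⟨r, hrC⟩
  have e1 : wC m U r C * cf m N (U \ C) g =
      Pi m (Polynomial.X : Polynomial ℤ) r C * Polynomial.X ^ ea m U C * cf m N (U \ C) g -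
      Pi m (Polynomial.X : Polynomial ℤ) r C * Polynomial.X ^ (C.card + eb m U C) *
        cf m N (U \ C) g := by
    unfold wC
    ring
  rw [e1, Polynomial.coeff_sub, low_coeff _ _ _ _ _ hA (by omega),
    low_coeff _ _ _ _ _ hA (by omega), sub_mul]
  have hL : Lw m N (U \ C) g = if cn m (U \ C) ≤ j then
      (cf m N (U \ C) g).coeff (j - cn m (U \ C)) else 0 := by
    unfold Lw
    rw [hj]
  have hOk : Ok m U C ↔ (∀ v ∈ C.erase r, 0 < aL m C v) ∧ ea m U C = cn m (U \ C) := by
    unfold Ok
    refine and_congr_left fun _ => ?_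
    constructor
    · intro h v hv
      rw [Finset.mem_erase] at hv
      exact h v hv.2 ⟨r, hrC, lt_of_le_of_ne (hr v (hC hv.2)) (Ne.symm hv.1)⟩
    · rintro h v hv ⟨w, hw, hwv⟩
      refine h v (Finset.mem_erase.mpr ⟨?_, hv⟩)
      have := hr w (hC hw)
      omega
  congr 1
  · rw [hL, Pi_coeff]
    by_cases ha : ∀ v ∈ C.erase r, 0 < aL m C v
    · by_cases hb : ea m U C = cn m (U \ C)
      · rw [if_pos hb, if_pos ha, if_pos (hOk.mpr ⟨ha, hb⟩), one_mul, one_mul]
      · rw [if_neg hb, if_neg (fun h => hb (hOk.mp h).2), zero_mul]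
    · rw [if_neg (fun h => ha (hOk.mp h).1), zero_mul, if_neg ha, zero_mul]
      simp
  · by_cases hCr : C = {r}
    · subst hCr
      have hne : (U \ {r}).Nonempty := by
        rw [Finset.nonempty_iff_ne_empty]
        intro h
        rw [Finset.sdiff_eq_empty_iff_subset] at h
        have h3 := Finset.card_le_card h
        rw [Finset.card_singleton] at h3
        omega
      have hcp := cn_pos m _ hne
      have heb := eb_single m U r hr
      have hc1 : cn m (U \ {r}) = 1 := by omega
      have hp : ∀ v ∈ ({r} : Finset ℕ).erase r, 0 < aL m {r} v := by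
        intro v hv
        rw [Finset.mem_erase, Finset.mem_singleton] at hv
        exact absurd hv.2 hv.1
      rw [if_pos rfl, one_mul, hL, if_pos (by rw [Finset.card_singleton, heb, hc1]), Pi_coeff,
        if_pos hp, one_mul]
    · rw [if_neg hCr, zero_mul, if_neg]
      have h3 : 2 ≤ C.card := by
        by_contra h4
        apply hCr
        have h5 : C.card = 1 := by omega
        obtain ⟨a, ha⟩ := Finset.card_eq_one.mp h5
        rw [ha] at hrC ⊢
        rw [Finset.mem_singleton] at hrC
        rw [hrC]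
      omega

end LWRaux

open LWRaux in
theorem tLWR : S_REC → S_CNT → S_ORD → S_LWR := by
  intro hREC hCNT hORD m hm N U r hrU hr hN h2 hc f
  rcases Nat.eq_zero_or_pos (len f) with hf | hf
  · have hf0 : ∀ i, f i = 0 := by
      intro i
      unfold len at hf
      rw [Finset.sum_eq_zero_iff] at hf
      exact hf i (Finset.mem_univ i)
    have hz : ∀ (V : Finset ℕ) (k : ℕ), Lwd m N V f k = 0 := by
      intro V k
      unfold Lwd
      apply Finset.sum_eq_zero
      intro i _
      rw [if_neg]
      rw [hf0 i]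
      omega
    have h3 : Lw m N U f = 0 := by
      unfold Lw
      rw [if_neg (by omega)]
    rw [h3, hz, sub_zero, Finset.sum_eq_zero (fun C _ => hz _ _)]
  · obtain ⟨j, hj⟩ : ∃ j, len f = j + 1 := ⟨len f - 1, by omega⟩
    have hrec := congrArg (fun p => Polynomial.coeff p j) (hREC m hm N U r hrU hr hN f)
    have hl : ((1 - Polynomial.X) * cf m N U f).coeff j = Lw m N U f := by
      unfold Lw
      rw [if_pos (by omega), hc, hj, Nat.add_sub_cancel, sub_mul, one_mul, Polynomial.coeff_sub]
      rcases j with _ | j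
      · simp
      · rw [Polynomial.coeff_X_mul, hORD m hm N U hN f j (by omega), sub_zero]
    have ht : ∀ C ∈ U.powerset.filter (fun C => r ∈ C),
        (wC m U r C * cfd m N (U \ C) f C.card).coeff j =
          (if Ok m U C then Lwd m N (U \ C) f C.card else 0) -
            (if C = {r} then Lwd m N (U \ C) f C.card else 0) := by
      intro C hC
      rw [Finset.mem_filter, Finset.mem_powerset] at hC
      have h4 : (wC m U r C * cfd m N (U \ C) f C.card).coeff j =
          ((if Ok m U C then 1 else 0 : ℤ) - (if C = {r} then 1 else 0)) *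
            Lwd m N (U \ C) f C.card := by
        unfold cfd Lwd
        rw [Finset.mul_sum, Polynomial.finsetSum_coeff, Finset.mul_sum]
        refine Finset.sum_congr rfl fun i _ => ?_
        by_cases hi : (i : ℕ) + 1 = C.card ∧ 0 < f i
        · rw [if_pos hi, if_pos hi]
          refine key hCNT hORD m hm N U r hrU hr hN h2 hc C hC.1 hC.2 _ j ?_
          have := len_sub f i hi.2
          omega
        · rw [if_neg hi, if_neg hi, mul_zero, mul_zero, Polynomial.coeff_zero]
      rw [h4, sub_mul, ite_mul, ite_mul, one_mul, zero_mul]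
    rw [hl, Polynomial.finsetSum_coeff, Finset.sum_congr rfl ht, Finset.sum_sub_distrib,
      Finset.sum_ite_eq', if_pos, ← Finset.sum_filter, Finset.filter_filter,
      Finset.card_singleton] at hrec
    · exact hrec
    · rw [Finset.mem_filter, Finset.mem_powerset, Finset.singleton_subset_iff]
      exact ⟨hrU, Finset.mem_singleton_self r⟩

end Pool.Agent.LOW
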