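import Pool.Agent.Lib.MP_263316_co.LOW.Spec

/-! MP_263316_co, project LOW: the lowest coefficient is nonnegative. -/

set_option autoImplicit false

namespace Pool.Agent.LOW

open Finset Pool.Agent.SWC

private theorem NNGaux_ite (p : Prop) [Decidable p] (j : ℕ) :
    0 ≤ ((if p then (1 : Polynomial ℤ) else 0)).coeff j := by
  split_ifs
  · rw [Polynomial.coeff_one]
    split_ifs <;> norm_num
  · rw [Polynomial.coeff_zero]

private theorem NNGaux_Lw {m : ℕ → ℕ} {N : ℕ} {U : Finset ℕ} {f : Fin N →₀ ℕ}
    (h : ∀ j, 0 ≤ (cf m N U f).coeff j) : 0 ≤ Lw m N U f := by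
  unfold Lw
  split_ifs
  · exact h _
  · exact le_refl _

private theorem NNGaux_Lwd {m : ℕ → ℕ} {N : ℕ} {U : Finset ℕ} (f : Fin N →₀ ℕ) (k : ℕ)
    (h : ∀ g : Fin N →₀ ℕ, 0 ≤ Lw m N U g) : 0 ≤ Lwd m N U f k := by
  unfold Lwd
  refine Finset.sum_nonneg fun i _ => ?_
  split_ifs
  · exact h _
  · exact le_refl _

theorem tNNG : S_PHI → S_STAR → S_SPLT → S_PRD → S_NNG := by
  intro hPHI hSTAR hSPLT hPRD m hm N U
  induction hc : U.card using Nat.strong_induction_on generalizing U with
  | _ n ih =>
  intro hN f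
  rcases U.eq_empty_or_nonempty with he | hne
  · subst he
    refine NNGaux_Lw fun j => ?_
    unfold cf
    rw [hPHI.2.2.1 m hm N, MvPolynomial.coeff_one]
    exact NNGaux_ite _ j
  · rcases hSPLT m hm U hne with hcn | ⟨A, B, hA, hB, hAB, hAc, hBc, hsep⟩
    · by_cases h1 : U.card = 1
      · obtain ⟨v, rfl⟩ := Finset.card_eq_one.1 h1
        have h0 : 0 < N := by omega
        refine NNGaux_Lw fun j => ?_
        unfold cf
        rw [hPHI.2.2.2.2 m hm N h0 v, MvPolynomial.coeff_X']
        exact NNGaux_ite _ j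
      · have hpos := Finset.card_pos.2 hne
        have hr := Finset.min'_mem U hne
        have hne2 : (U.erase (U.min' hne)).Nonempty := by
          rw [← Finset.card_pos, Finset.card_erase_of_mem hr]
          omega
        have hr2 := Finset.min'_mem _ hne2
        have hr2' := Finset.mem_erase.1 hr2
        have hlt : U.min' hne < (U.erase (U.min' hne)).min' hne2 :=
          lt_of_le_of_ne (Finset.min'_le _ _ hr2'.2) (Ne.symm hr2'.1)
        rw [hSTAR m hm N U (U.min' hne) ((U.erase (U.min' hne)).min' hne2) hr hr2'.2 hlt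
          (fun u hu => by
            by_cases hur : u = U.min' hne
            · exact Or.inl hur
            · exact Or.inr (Finset.min'_le _ _ (Finset.mem_erase.2 ⟨hur, hu⟩)))
          (by omega) hcn f]
        refine Finset.sum_nonneg fun C hC => ?_
        obtain ⟨hC1, ⟨hC2, -⟩, -⟩ := Finset.mem_filter.1 hC
        have hlt2 : (U \ C).card < U.card :=
          Finset.card_lt_card (Finset.sdiff_ssubset (Finset.mem_powerset.1 hC1) ⟨_, hC2⟩)
        exact NNGaux_Lwd f C.card fun g =>
          ih (U \ C).card (by omega) (U \ C) rfl (by omega) g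
    · have h2 := (hPRD m hm N A B hsep (by rw [hAB]; omega)).1
        (fun g => ih A.card (by omega) A rfl (by omega) g)
        (fun g => ih B.card (by omega) B rfl (by omega) g) f
      rw [hAB] at h2
      exact h2

end Pool.Agent.LOW
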