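import Pool.Agent.Lib.MP_263316_co.LOW.Spec

/-!
MP_263316_co, project LOW, task ORD: the coefficients below `l - c` vanish.
-/

set_option autoImplicit false

namespace Pool.Agent.LOW

open Finset Pool.Agent.SWC

namespace ORDaux

lemma len_sub {N : ℕ} (f : Fin N →₀ ℕ) (i : Fin N) (hi : 0 < f i) :
    len (f - Finsupp.single i 1) + 1 = len f := by
  have h : f - Finsupp.single i 1 + Finsupp.single i 1 = f := by
    apply tsub_add_cancel_of_le
    rw [Finsupp.single_le_iff]
    omega
  have h2 : len (f - Finsupp.single i 1 + Finsupp.single i 1) =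
      len (f - Finsupp.single i 1) + 1 := by
    unfold len
    simp only [Finsupp.coe_add, Pi.add_apply, Finset.sum_add_distrib]
    congr 1
    simp [Finsupp.single_apply]
  rw [h] at h2
  omega

lemma step {a b e g L k : ℕ} (A p : Polynomial ℤ) (h1 : L ≤ a + k) (h2 : L ≤ b + k)
    (he : e = a) (hg : g = b) :
    (Polynomial.X : Polynomial ℤ) ^ L ∣
      A * (Polynomial.X ^ e - Polynomial.X ^ g) * (Polynomial.X ^ k * p) := by
  subst he hg
  have e1 : (Polynomial.X : Polynomial ℤ) ^ L ∣ Polynomial.X ^ e * Polynomial.X ^ k := by
    rw [← pow_add]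
    exact pow_dvd_pow _ h1
  have e2 : (Polynomial.X : Polynomial ℤ) ^ L ∣ Polynomial.X ^ g * Polynomial.X ^ k := by
    rw [← pow_add]
    exact pow_dvd_pow _ h2
  have e3 := dvd_sub e1 e2
  have e4 : A * ((Polynomial.X : Polynomial ℤ) ^ e - Polynomial.X ^ g) *
      (Polynomial.X ^ k * p) = (Polynomial.X ^ e * Polynomial.X ^ k -
        Polynomial.X ^ g * Polynomial.X ^ k) * (A * p) := by ring
  rw [e4]
  exact Dvd.dvd.mul_right e3 _

end ORDaux

theorem tORD : S_PHI → S_REC → S_CNT → S_ORD := by
  intro hP hR hC m hm N
  have key : ∀ n : ℕ, ∀ U : Finset ℕ, U.card = n → U.card ≤ N → ∀ f : Fin N →₀ ℕ,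
      (Polynomial.X : Polynomial ℤ) ^ (len f - cn m U) ∣ cf m N U f := by
    intro n
    induction n using Nat.strong_induction_on with
    | _ n ih =>
      intro U hU hN f
      rcases U.eq_empty_or_nonempty with h0 | hne
      · subst h0
        unfold cf
        rw [hP.2.2.1 m hm N, MvPolynomial.coeff_one]
        split_ifs with h
        · have h1 : len f = 0 := by
            rw [← h]
            simp [len]
          rw [h1]
          simp
        · exact dvd_zero _
      · have hr := U.min'_mem hne
        have hmin : ∀ u ∈ U, U.min' hne ≤ u := fun u hu => U.min'_le u hu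
        have hrec := hR m hm N U (U.min' hne) hr hmin hN f
        have hco : IsCoprime ((Polynomial.X : Polynomial ℤ) ^ (len f - cn m U))
            (1 - Polynomial.X) := by
          apply IsCoprime.pow_left
          exact ⟨1, 1, by ring⟩
        apply hco.dvd_of_dvd_mul_left
        rw [hrec]
        apply Finset.dvd_sum
        intro C hCm
        rw [Finset.mem_filter, Finset.mem_powerset] at hCm
        obtain ⟨hCU, hrC⟩ := hCm
        obtain ⟨c1, c2⟩ := hC m hm U C _ hr hmin hCU hrC
        have hCpos : 1 ≤ C.card := Finset.card_pos.mpr ⟨_, hrC⟩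
        have hcard : (U \ C).card + C.card = U.card := Finset.card_sdiff_add_card_eq_card hCU
        unfold cfd
        rw [Finset.mul_sum]
        apply Finset.dvd_sum
        intro i _
        split_ifs with hi
        · have hl := ORDaux.len_sub f i hi.2
          obtain ⟨p, hp⟩ := ih (U \ C).card (by omega) (U \ C) rfl (by omega)
            (f - Finsupp.single i 1)
          rw [hp]
          unfold wC
          exact ORDaux.step _ p (by omega) (by omega) rfl rfl
        · rw [mul_zero]
          exact dvd_zero _
  intro U hN f j hj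
  exact Polynomial.X_pow_dvd_iff.mp (key _ U rfl hN f) j (by omega)

end Pool.Agent.LOW
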