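import Pool.Agent.Lib.MP_263316_co.LOW.Spec

/-!
MP_263316_co, project LOW: partitions as exponent vectors.
-/

set_option autoImplicit false

namespace Pool.Agent.LOW

open Finset Pool.Agent.SWC

namespace PARaux

theorem cons_ite {M : Type} [CommMonoid M] (n : ℕ) (g : ℕ → M) (k : ℕ) (s : Multiset ℕ)
    (i0 : Fin n) (hi0 : (i0 : ℕ) + 1 = k) (i : Fin n) :
    g ((i : ℕ) + 1) ^ (k ::ₘ s).count ((i : ℕ) + 1) =
      (if i = i0 then g k else 1) * g ((i : ℕ) + 1) ^ s.count ((i : ℕ) + 1) := by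
  by_cases h : i = i0
  · subst h
    rw [hi0, Multiset.count_cons_self, if_pos rfl, pow_succ, mul_comm]
  · have h2 : (i : ℕ) + 1 ≠ k := fun e => h (Fin.ext (by omega))
    rw [Multiset.count_cons_of_ne h2, if_neg h, one_mul]

theorem prod_count {M : Type} [CommMonoid M] (n : ℕ) (g : ℕ → M) (s : Multiset ℕ)
    (hs : ∀ k ∈ s, ∃ i : Fin n, (i : ℕ) + 1 = k) :
    (s.map g).prod = ∏ i : Fin n, g ((i : ℕ) + 1) ^ s.count ((i : ℕ) + 1) := by
  induction s using Multiset.induction_on with
  | empty => simp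
  | cons k s ih =>
    obtain ⟨i0, hi0⟩ := hs k (Multiset.mem_cons_self k s)
    rw [Multiset.map_cons, Multiset.prod_cons,
      ih (fun x hx => hs x (Multiset.mem_cons_of_mem hx)),
      Finset.prod_congr rfl (fun i _ => cons_ite n g k s i0 hi0 i), Finset.prod_mul_distrib,
      Finset.prod_ite_eq' Finset.univ i0 (fun _ => g k), if_pos (Finset.mem_univ i0)]

theorem card_count (n : ℕ) (s : Multiset ℕ) (hs : ∀ k ∈ s, ∃ i : Fin n, (i : ℕ) + 1 = k) :
    ∑ i : Fin n, s.count ((i : ℕ) + 1) = Multiset.card s := by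
  induction s using Multiset.induction_on with
  | empty => simp
  | cons k s ih =>
    obtain ⟨i0, hi0⟩ := hs k (Multiset.mem_cons_self k s)
    have h1 : ∀ i : Fin n, (k ::ₘ s).count ((i : ℕ) + 1) =
        s.count ((i : ℕ) + 1) + (if i = i0 then 1 else 0) := by
      intro i
      by_cases h : i = i0
      · subst h
        rw [hi0, Multiset.count_cons_self, if_pos rfl]
      · have h2 : (i : ℕ) + 1 ≠ k := fun e => h (Fin.ext (by omega))
        rw [Multiset.count_cons_of_ne h2, if_neg h, add_zero]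
    rw [Finset.sum_congr rfl (fun i _ => h1 i), Finset.sum_add_distrib,
      ih (fun x hx => hs x (Multiset.mem_cons_of_mem hx)), Multiset.card_cons,
      Finset.sum_ite_eq' Finset.univ i0 (fun _ => 1), if_pos (Finset.mem_univ i0)]

/-- the vector of multiplicities -/
noncomputable def fv {n : ℕ} (μ : n.Partition) : Fin n →₀ ℕ :=
  Finsupp.equivFunOnFinite.symm (fun i : Fin n => μ.parts.count ((i : ℕ) + 1))

theorem fv_apply {n : ℕ} (μ : n.Partition) (i : Fin n) :
    fv μ i = μ.parts.count ((i : ℕ) + 1) := rfl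

theorem part_mem {n : ℕ} (μ : n.Partition) (k : ℕ) (hk : k ∈ μ.parts) :
    ∃ i : Fin n, (i : ℕ) + 1 = k := by
  have h1 : 0 < k := μ.parts_pos hk
  have h2 : k ≤ n := by
    have h := Multiset.le_sum_of_mem hk
    rw [μ.parts_sum] at h
    exact h
  refine ⟨⟨k - 1, by omega⟩, ?_⟩
  show k - 1 + 1 = k
  omega

theorem fv_inj {n : ℕ} (μ ν : n.Partition) (h : fv μ = fv ν) : μ = ν := by
  refine Nat.Partition.ext (Multiset.ext.mpr fun k => ?_)
  by_cases hk : ∃ i : Fin n, (i : ℕ) + 1 = k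
  · obtain ⟨i, rfl⟩ := hk
    rw [← fv_apply, ← fv_apply, h]
  · rw [Multiset.count_eq_zero_of_notMem (fun hm => hk (part_mem μ k hm)),
      Multiset.count_eq_zero_of_notMem (fun hm => hk (part_mem ν k hm))]

theorem ev_mon {n : ℕ} (μ : n.Partition) (p : Polynomial ℤ) :
    ev n (MvPolynomial.monomial (fv μ) p) =
      MvPolynomial.C p * (μ.parts.map (es (xx n))).prod := by
  unfold ev
  rw [MvPolynomial.aeval_monomial, Finsupp.prod_fintype _ _ (fun i => pow_zero _),
    prod_count n (es (xx n)) μ.parts (part_mem μ)]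
  rfl

end PARaux

theorem tPAR : S_PHI → S_PAR := by
  intro hP m hm n U hU
  obtain ⟨hinj, hev, -, -, -⟩ := hP
  obtain ⟨a, ha⟩ := HOOK.exists_exp n n (XX m (qq n) (xx n) U)
    (HOOK.XX_symm Pool.Agent.SWK.AllE.xf m hm n U)
    (by
      have h := HOOK.XX_hom n m U
      rw [hU] at h
      exact h)
  have hPh : Ph m n U = ∑ μ : n.Partition, MvPolynomial.monomial (PARaux.fv μ) (a μ) := by
    apply hinj n
    rw [hev m hm n U, ha, map_sum]
    exact Finset.sum_congr rfl fun μ _ => (PARaux.ev_mon μ (a μ)).symm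
  refine ⟨a, PARaux.fv, ha, fun μ => ⟨?_, ?_, fun i => PARaux.fv_apply μ i⟩⟩
  · unfold cf
    rw [hPh, MvPolynomial.coeff_sum, Finset.sum_eq_single μ]
    · rw [MvPolynomial.coeff_monomial, if_pos rfl]
    · intro ν _ hν
      rw [MvPolynomial.coeff_monomial, if_neg (fun e => hν (PARaux.fv_inj ν μ e))]
    · intro h
      exact absurd (Finset.mem_univ μ) h
  · unfold len
    exact PARaux.card_count n μ.parts (PARaux.part_mem μ)

end Pool.Agent.LOW
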