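import Pool.Agent.Lib.MP_263316_co.LOW.Spec

/-!
MP_263316_co, project LOW: the e-expansion as a polynomial (task PHI).
-/

set_option autoImplicit false

namespace Pool.Agent.LOW

open Finset Pool.Agent.SWC

namespace PHIaux

theorem ev_eq (N : ℕ) (P : AN N) : ev N P =
    (MvPolynomial.esymmAlgHom (Fin N) (Polynomial ℤ) N P).val :=
  (MvPolynomial.esymmAlgHom_apply (σ := Fin N) (R := Polynomial ℤ) P).symm

theorem inj (N : ℕ) : Function.Injective (ev N) := by
  intro P Q h
  rw [ev_eq, ev_eq] at h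
  exact MvPolynomial.esymmAlgHom_fin_injective (Polynomial ℤ) (le_refl N) (Subtype.ext h)

theorem ex (m : ℕ → ℕ) (hm : Monotone m) (N : ℕ) (U : Finset ℕ) :
    ∃ P : AN N, ev N P = XX m (qq N) (xx N) U := by
  obtain ⟨P, hP⟩ := MvPolynomial.esymmAlgHom_fin_surjective (Polynomial ℤ) (le_refl N)
    ⟨XX m (qq N) (xx N) U, Pool.Agent.HOOK.XX_symm Pool.Agent.SWK.AllE.xf m hm N U⟩
  refine ⟨P, ?_⟩
  rw [ev_eq, hP]

theorem evPh (m : ℕ → ℕ) (hm : Monotone m) (N : ℕ) (U : Finset ℕ) :
    ev N (Ph m N U) = XX m (qq N) (xx N) U := by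
  unfold Ph
  rw [dif_pos (ex m hm N U)]
  exact (ex m hm N U).choose_spec

theorem es_one {R : Type} [CommRing R] {N : ℕ} (x : Fin N → R) : es x 1 = ∑ k, x k := by
  unfold es
  rw [Finset.powersetCard_one, Finset.sum_map]
  exact Finset.sum_congr rfl fun k _ => Finset.prod_singleton _ _

end PHIaux

theorem tPHI : S_PHI := by
  refine ⟨PHIaux.inj, PHIaux.evPh, ?_, ?_, ?_⟩
  · intro m hm N
    apply PHIaux.inj N
    rw [PHIaux.evPh m hm, map_one]
    simp [XX]
  · intro m hm N A B hAB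
    apply PHIaux.inj N
    rw [PHIaux.evPh m hm, map_mul, PHIaux.evPh m hm, PHIaux.evPh m hm]
    have hd : Disjoint A B := by
      rw [Finset.disjoint_left]
      intro u h1 h2
      exact lt_irrefl _ (hAB u h1 u h2).1
    unfold XX
    refine Z_union hd (fun u hu v hv => ?_) _
    have := hAB u hu v hv
    omega
  · intro m hm N h v
    apply PHIaux.inj N
    rw [PHIaux.evPh m hm]
    have h1 : ev N (MvPolynomial.X (⟨0, h⟩ : Fin N)) = es (xx N) 1 := by
      unfold ev
      rw [MvPolynomial.aeval_X]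
    rw [h1, PHIaux.es_one]
    unfold XX
    exact Z_singleton _ _ _ _

end Pool.Agent.LOW
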