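import Pool.Agent.Lib.MP_263316_co.LOW.Spec

/-!
MP_263316_co, project LOW, task PRD: products of chromatic quasisymmetric functions.
-/

set_option autoImplicit false

namespace Pool.Agent.LOW

open Finset Pool.Agent.SWC

namespace PRDaux

private theorem aL_left (m : ℕ → ℕ) (A B : Finset ℕ) (h : ∀ u ∈ A, ∀ v ∈ B, u < v ∧ m u < v)
    (v : ℕ) (hv : v ∈ A) : aL m (A ∪ B) v = aL m A v := by
  unfold aL
  apply congrArg
  ext u
  simp only [Finset.mem_filter, Finset.mem_union]
  constructor
  · rintro ⟨hu, h1, h2⟩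
    refine ⟨?_, h1, h2⟩
    rcases hu with hu | hu
    · exact hu
    · have := (h v hv u hu).1
      omega
  · rintro ⟨hu, h1, h2⟩
    exact ⟨Or.inl hu, h1, h2⟩

private theorem aL_right (m : ℕ → ℕ) (A B : Finset ℕ) (h : ∀ u ∈ A, ∀ v ∈ B, u < v ∧ m u < v)
    (v : ℕ) (hv : v ∈ B) : aL m (A ∪ B) v = aL m B v := by
  unfold aL
  apply congrArg
  ext u
  simp only [Finset.mem_filter, Finset.mem_union]
  constructor
  · rintro ⟨hu, h1, h2⟩
    refine ⟨?_, h1, h2⟩
    rcases hu with hu | hu
    · have := (h u hu v hv).2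
      omega
    · exact hu
  · rintro ⟨hu, h1, h2⟩
    exact ⟨Or.inr hu, h1, h2⟩

private theorem disj (m : ℕ → ℕ) (A B : Finset ℕ) (h : ∀ u ∈ A, ∀ v ∈ B, u < v ∧ m u < v) :
    Disjoint A B := by
  rw [Finset.disjoint_left]
  intro u hu hu'
  have := (h u hu u hu').1
  omega

private theorem cn_union (m : ℕ → ℕ) (A B : Finset ℕ)
    (h : ∀ u ∈ A, ∀ v ∈ B, u < v ∧ m u < v) : cn m (A ∪ B) = cn m A + cn m B := by
  unfold cn
  rw [Finset.filter_union, Finset.card_union_of_disjoint]
  · congr 1
    · apply congrArg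
      apply Finset.filter_congr
      intro v hv
      rw [aL_left m A B h v hv]
    · apply congrArg
      apply Finset.filter_congr
      intro v hv
      rw [aL_right m A B h v hv]
  · exact Finset.disjoint_filter_filter (disj m A B h)

private theorem len_add {N : ℕ} (f g : Fin N →₀ ℕ) : len (f + g) = len f + len g := by
  unfold len
  rw [← Finset.sum_add_distrib]
  rfl

private theorem cf_union (hP : S_PHI) (m : ℕ → ℕ) (hm : Monotone m) (N : ℕ) (A B : Finset ℕ)
    (h : ∀ u ∈ A, ∀ v ∈ B, u < v ∧ m u < v) (f : Fin N →₀ ℕ) :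
    cf m N (A ∪ B) f = ∑ x ∈ Finset.HasAntidiagonal.antidiagonal f, cf m N A x.1 * cf m N B x.2 := by
  unfold cf
  rw [hP.2.2.2.1 m hm N A B h, MvPolynomial.coeff_mul]

end PRDaux

open PRDaux in
theorem tPRD : S_PHI → S_ORD → S_PRD := by
  intro hP hO m hm N A B h hN
  have hA : A.card ≤ N := le_trans (Finset.card_le_card Finset.subset_union_left) hN
  have hB : B.card ≤ N := le_trans (Finset.card_le_card Finset.subset_union_right) hN
  refine ⟨?_, ?_⟩
  · intro h1 h2 f
    unfold Lw
    split_ifs with hc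
    · rw [cf_union hP m hm N A B h f, Polynomial.finset_sum_coeff]
      apply Finset.sum_nonneg
      intro x hx
      rw [Polynomial.coeff_mul]
      apply Finset.sum_nonneg
      intro ij hij
      have hx' : x.1 + x.2 = f := Finset.HasAntidiagonal.mem_antidiagonal.mp hx
      have hij' : ij.1 + ij.2 = len f - cn m (A ∪ B) := Finset.HasAntidiagonal.mem_antidiagonal.mp hij
      rw [cn_union m A B h] at hc hij'
      have hl : len f = len x.1 + len x.2 := by rw [← hx', len_add]
      by_cases c1 : ij.1 + cn m A < len x.1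
      · rw [hO m hm N A hA x.1 ij.1 c1, zero_mul]
      by_cases c2 : ij.2 + cn m B < len x.2
      · rw [hO m hm N B hB x.2 ij.2 c2, mul_zero]
      have e1 : ij.1 = len x.1 - cn m A := by omega
      have e1' : cn m A ≤ len x.1 := by omega
      have e2 : ij.2 = len x.2 - cn m B := by omega
      have e2' : cn m B ≤ len x.2 := by omega
      have g1 := h1 x.1
      have g2 := h2 x.2
      unfold Lw at g1 g2
      rw [if_pos e1', ← e1] at g1
      rw [if_pos e2', ← e2] at g2
      exact mul_nonneg g1 g2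
    · exact le_refl _
  · intro h1 h2 f j hj
    rw [cf_union hP m hm N A B h f, Polynomial.finset_sum_coeff]
    apply Finset.sum_nonneg
    intro x _
    rw [Polynomial.coeff_mul]
    apply Finset.sum_nonneg
    intro ij hij
    have hij' : ij.1 + ij.2 = j := Finset.HasAntidiagonal.mem_antidiagonal.mp hij
    exact mul_nonneg (h1 x.1 ij.1 (by omega)) (h2 x.2 ij.2 (by omega))

end Pool.Agent.LOW
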