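import Pool.Agent.Lib.MP_263316_co.LOW.Spec

/-!
MP_263316_co, project LOW, task PUL: at most one part larger than 2.
-/

set_option autoImplicit false

namespace Pool.Agent.LOW

open Finset Pool.Agent.SWC

namespace PULaux

/-- the number of parts larger than two -/
def bg {N : ℕ} (f : Fin N →₀ ℕ) : ℕ := ∑ i ∈ Finset.univ.filter (fun i : Fin N => 2 ≤ (i : ℕ)), f i

theorem bg_add {N : ℕ} (f g : Fin N →₀ ℕ) : bg (f + g) = bg f + bg g := by
  unfold bg
  rw [← Finset.sum_add_distrib]
  exact Finset.sum_congr rfl fun i _ => Finsupp.add_apply f g i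

theorem bg_single {N : ℕ} (i : Fin N) :
    bg (Finsupp.single i 1) = if 2 ≤ (i : ℕ) then 1 else 0 := by
  unfold bg
  by_cases h : 2 ≤ (i : ℕ)
  · rw [if_pos h, Finset.sum_eq_single i]
    · exact Finsupp.single_eq_same
    · intro j _ hj
      exact Finsupp.single_eq_of_ne hj
    · intro hi
      exact absurd (Finset.mem_filter.mpr ⟨Finset.mem_univ i, h⟩) hi
  · rw [if_neg h]
    refine Finset.sum_eq_zero fun j hj => ?_
    refine Finsupp.single_eq_of_ne ?_
    rintro rfl
    exact h (Finset.mem_filter.mp hj).2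

theorem es_zero {N : ℕ} : es (xx N) 0 = 1 := by
  simp [es]

theorem es_big {N k : ℕ} (h : N < k) : es (xx N) k = 0 := by
  unfold es
  rw [Finset.powersetCard_eq_empty.mpr (by rw [Finset.card_univ, Fintype.card_fin]; exact h),
    Finset.sum_empty]

theorem ev_X {N : ℕ} (i : Fin N) : ev N (MvPolynomial.X i) = es (xx N) ((i : ℕ) + 1) := by
  unfold ev
  rw [MvPolynomial.aeval_X]

theorem ev_C {N : ℕ} (p : Polynomial ℤ) : ev N (MvPolynomial.C p) = MvPolynomial.C p := by
  unfold ev
  rw [MvPolynomial.aeval_C]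
  rfl

theorem mono {N : ℕ} (l : Multiset ℕ) : (l.map (es (xx N))).prod = 0 ∨
    ∃ g : Fin N →₀ ℕ, ev N (MvPolynomial.monomial g 1) = (l.map (es (xx N))).prod ∧
      bg g = Pool.Agent.LV2.big3 l := by
  induction l using Multiset.induction_on with
  | empty =>
    right
    refine ⟨0, ?_, ?_⟩
    · rw [Multiset.map_zero, Multiset.prod_zero, MvPolynomial.monomial_zero', map_one, map_one]
    · simp [bg, Pool.Agent.LV2.big3]
  | cons k l ih =>
    rw [Multiset.map_cons, Multiset.prod_cons]
    rcases ih with ih | ⟨g, hg, hb⟩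
    · left
      rw [ih, mul_zero]
    · rcases Nat.lt_or_ge N k with hk | hk
      · left
        rw [es_big hk, zero_mul]
      · right
        rcases Nat.eq_zero_or_pos k with h0 | h0
        · subst h0
          refine ⟨g, ?_, ?_⟩
          · rw [es_zero, one_mul, hg]
          · rw [hb]
            unfold Pool.Agent.LV2.big3
            rw [Multiset.filter_cons_of_neg _ (by omega)]
        · obtain ⟨i, hi⟩ : ∃ i : Fin N, (i : ℕ) + 1 = k := ⟨⟨k - 1, by omega⟩, by
            show k - 1 + 1 = k
            omega⟩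
          refine ⟨g + Finsupp.single i 1, ?_, ?_⟩
          · have h1 : MvPolynomial.monomial (g + Finsupp.single i 1) (1 : Polynomial ℤ) =
                MvPolynomial.monomial g 1 * MvPolynomial.X i := by
              rw [MvPolynomial.X, MvPolynomial.monomial_mul, mul_one]
            rw [h1, map_mul, hg, ev_X, hi, mul_comm]
          · rw [bg_add, hb, bg_single]
            unfold Pool.Agent.LV2.big3
            by_cases h3 : 3 ≤ k
            · rw [if_pos (by omega), Multiset.filter_cons_of_pos _ h3, Multiset.card_cons]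
            · rw [if_neg (by omega), Multiset.filter_cons_of_neg _ h3, add_zero]

theorem clo {N n d : ℕ} (F : AN N) (hF : F ∈ Pool.Agent.LV2.HC3 N n d) :
    ∃ P : AN N, ev N P = F ∧ ∀ f : Fin N →₀ ℕ, bg f ≤ 1 → MvPolynomial.coeff f P ∈ PU d := by
  classical
  unfold Pool.Agent.LV2.HC3 at hF
  induction hF using AddSubmonoid.closure_induction with
  | mem F hF =>
    obtain ⟨l, p, -, hp, rfl⟩ := hF
    rcases mono (N := N) l with h | ⟨g, hg, hb⟩
    · refine ⟨0, ?_, fun f _ => ?_⟩
      · rw [map_zero, h, mul_zero]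
      · rw [MvPolynomial.coeff_zero]
        exact (PU d).zero_mem
    · refine ⟨MvPolynomial.monomial g p, ?_, fun f hf => ?_⟩
      · have h1 : MvPolynomial.monomial g p = MvPolynomial.C p * MvPolynomial.monomial g 1 := by
          rw [MvPolynomial.C_mul_monomial, mul_one]
        rw [h1, map_mul, ev_C, hg]
      · rw [MvPolynomial.coeff_monomial]
        split_ifs with h
        · subst h
          exact hp (by rw [← hb]; exact hf)
        · exact (PU d).zero_mem
  | zero =>
    refine ⟨0, map_zero _, fun f _ => ?_⟩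
    rw [MvPolynomial.coeff_zero]
    exact (PU d).zero_mem
  | add F G _ _ ihF ihG =>
    obtain ⟨P, hP, hP'⟩ := ihF
    obtain ⟨Q, hQ, hQ'⟩ := ihG
    refine ⟨P + Q, ?_, fun f hf => ?_⟩
    · rw [map_add, hP, hQ]
    · rw [MvPolynomial.coeff_add]
      exact (PU d).add_mem (hP' f hf) (hQ' f hf)

end PULaux

theorem tPUL : S_PHI → S_PUL := by
  intro hPHI m hm N U hN f hf
  obtain ⟨hinj, hev, -⟩ := hPHI
  obtain ⟨P, hP, hP'⟩ := PULaux.clo _ (Pool.Agent.T2.allV hm U N hN)
  have h1 : Ph m N U = P := hinj N (by rw [hev m hm N U, hP])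
  unfold cf
  rw [h1]
  exact hP' f hf

end Pool.Agent.LOW
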