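import Pool.Agent.Lib.MP_263316_co.LOW.Spec

/-!
MP_263316_co, project LOW, module REC: the recursion for coefficients.
-/

set_option autoImplicit false

namespace Pool.Agent.LOW

open Finset Pool.Agent.SWC

namespace RECaux

/-- the variable standing for `e_k` -/
noncomputable def Yv (N k : ℕ) : AN N :=
  if h : 1 ≤ k ∧ k ≤ N then MvPolynomial.X (⟨k - 1, by omega⟩ : Fin N) else 0

theorem ev_C (N : ℕ) (p : Polynomial ℤ) : ev N (MvPolynomial.C p) = MvPolynomial.C p := by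
  unfold ev
  rw [MvPolynomial.aeval_C]
  rfl

theorem ev_Yv (N k : ℕ) (h1 : 1 ≤ k) (h2 : k ≤ N) : ev N (Yv N k) = es (xx N) k := by
  unfold ev Yv
  rw [dif_pos ⟨h1, h2⟩, MvPolynomial.aeval_X]
  congr 1
  show k - 1 + 1 = k
  omega

theorem Pi_C (m : ℕ → ℕ) (N r : ℕ) (C : Finset ℕ) :
    Pi m (qq N) r C = MvPolynomial.C (Pi m (Polynomial.X : Polynomial ℤ) r C) := by
  unfold Pi
  rw [map_prod]
  refine Finset.prod_congr rfl fun v _ => ?_
  unfold qn
  rw [map_sum]
  refine Finset.sum_congr rfl fun i _ => ?_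
  rw [map_pow]
  rfl

theorem w_C (m : ℕ → ℕ) (N r : ℕ) (U C : Finset ℕ) :
    Pi m (qq N) r C * (qq N ^ ea m U C - qq N ^ (C.card + eb m U C)) =
      MvPolynomial.C (wC m U r C) := by
  unfold wC
  rw [map_mul, map_sub, map_pow, map_pow, Pi_C]
  rfl

theorem coeff_Yv (N k : ℕ) (h1 : 1 ≤ k) (h2 : k ≤ N) (f : Fin N →₀ ℕ) (P : AN N) :
    MvPolynomial.coeff f (Yv N k * P) =
      ∑ i : Fin N, if (i : ℕ) + 1 = k ∧ 0 < f i then
        MvPolynomial.coeff (f - Finsupp.single i 1) P else 0 := by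
  unfold Yv
  rw [dif_pos ⟨h1, h2⟩, MvPolynomial.coeff_X_mul']
  rw [Finset.sum_eq_single (⟨k - 1, by omega⟩ : Fin N)]
  · have e : (((⟨k - 1, by omega⟩ : Fin N) : ℕ) + 1 = k ∧
        0 < f (⟨k - 1, by omega⟩ : Fin N)) ↔ (⟨k - 1, by omega⟩ : Fin N) ∈ f.support := by
      rw [Finsupp.mem_support_iff]
      constructor
      · intro h
        exact Nat.pos_iff_ne_zero.1 h.2
      · intro h
        refine ⟨?_, Nat.pos_of_ne_zero h⟩
        show k - 1 + 1 = k
        omega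
    exact if_congr e.symm rfl rfl
  · intro i _ hi
    rw [if_neg]
    rintro ⟨h3, -⟩
    exact hi (Fin.ext (by show (i : ℕ) = k - 1; omega))
  · intro h
    exact absurd (Finset.mem_univ _) h

end RECaux

open RECaux

theorem tREC : S_RB → S_PHI → S_REC := by
  intro hRB hPHI m hm N U r hr hmin hN f
  have key : MvPolynomial.C (1 - Polynomial.X) * Ph m N U =
      ∑ C ∈ U.powerset.filter (fun C => r ∈ C),
        MvPolynomial.C (wC m U r C) * (Yv N C.card * Ph m N (U \ C)) := by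
    apply hPHI.1 N
    rw [map_mul, map_sum, ev_C, hPHI.2.1 m hm N U]
    have e1 : (MvPolynomial.C (1 - Polynomial.X) : AN N) = 1 - qq N := by
      rw [map_sub, map_one]
      rfl
    rw [e1, hRB m hm N U r hr hmin]
    refine Finset.sum_congr rfl fun C hC => ?_
    obtain ⟨hCU, hrC⟩ := Finset.mem_filter.1 hC
    rw [Finset.mem_powerset] at hCU
    have h1 : 1 ≤ C.card := Finset.card_pos.2 ⟨r, hrC⟩
    have h2 : C.card ≤ N := (Finset.card_le_card hCU).trans hN
    rw [map_mul, map_mul, ev_C, ev_Yv N _ h1 h2, hPHI.2.1 m hm N (U \ C), w_C, mul_assoc]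
  have h3 := congrArg (MvPolynomial.coeff f) key
  rw [MvPolynomial.coeff_C_mul, MvPolynomial.coeff_sum] at h3
  unfold cf
  rw [h3]
  refine Finset.sum_congr rfl fun C hC => ?_
  obtain ⟨hCU, hrC⟩ := Finset.mem_filter.1 hC
  rw [Finset.mem_powerset] at hCU
  have h1 : 1 ≤ C.card := Finset.card_pos.2 ⟨r, hrC⟩
  have h2 : C.card ≤ N := (Finset.card_le_card hCU).trans hN
  rw [MvPolynomial.coeff_C_mul, coeff_Yv N _ h1 h2]
  rfl

end Pool.Agent.LOW
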