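import Pool.Agent.Lib.MP_263316_co.LOW.Spec

/-!
MP_263316_co, project LOW, module STAR: the formula (**) for the lowest coefficient.
-/

set_option autoImplicit false

namespace Pool.Agent.LOW

open Finset Pool.Agent.SWC

namespace STARaux

/-- positive left degree -/
theorem aL_pos {m : ℕ → ℕ} {S : Finset ℕ} {v : ℕ} :
    0 < aL m S v ↔ ∃ u ∈ S, u < v ∧ v ≤ m u := by
  unfold aL
  rw [Finset.card_pos]
  constructor
  · rintro ⟨u, hu⟩
    rw [Finset.mem_filter] at hu
    exact ⟨u, hu.1, hu.2⟩
  · rintro ⟨u, hu, h⟩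
    exact ⟨u, Finset.mem_filter.2 ⟨hu, h⟩⟩

/-- the first vertex is the only one without left neighbour -/
theorem left_of {m : ℕ → ℕ} {U : Finset ℕ} {r : ℕ} (hr : r ∈ U) (hmin : ∀ u ∈ U, r ≤ u)
    (hc : cn m U = 1) {v : ℕ} (hv : v ∈ U) (hvr : v ≠ r) : ∃ u ∈ U, u < v ∧ v ≤ m u := by
  rw [← aL_pos]
  by_contra h0
  have h1 : aL m U v = 0 := by omega
  have h2 : aL m U r = 0 := by
    by_contra h3
    obtain ⟨u, hu, h4, -⟩ := aL_pos.1 (Nat.pos_of_ne_zero h3)
    have := hmin u hu
    omega
  unfold cn at hc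
  rw [Finset.card_eq_one] at hc
  obtain ⟨a, ha⟩ := hc
  have h5 : v ∈ U.filter (fun v => aL m U v = 0) := Finset.mem_filter.2 ⟨hv, h1⟩
  have h6 : r ∈ U.filter (fun v => aL m U v = 0) := Finset.mem_filter.2 ⟨hr, h2⟩
  rw [ha, Finset.mem_singleton] at h5 h6
  exact hvr (h5.trans h6.symm)

/-- without the first vertex the graph is still connected -/
theorem cn_sdiff {m : ℕ → ℕ} (hm : Monotone m) {U : Finset ℕ} {r r2 : ℕ} (hr : r ∈ U)
    (hr2 : r2 ∈ U) (h12 : r < r2) (hU : ∀ u ∈ U, u = r ∨ r2 ≤ u) (hc : cn m U = 1) :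
    cn m (U \ {r}) = 1 := by
  have hmin : ∀ u ∈ U, r ≤ u := by
    intro u hu
    rcases hU u hu with h | h <;> omega
  unfold cn
  rw [Finset.card_eq_one]
  refine ⟨r2, ?_⟩
  ext v
  rw [Finset.mem_filter, Finset.mem_singleton, Finset.mem_sdiff, Finset.mem_singleton]
  constructor
  · rintro ⟨⟨hv, hvr⟩, h0⟩
    by_contra hne
    obtain ⟨u, hu, h1, h2⟩ := left_of hr hmin hc hv hvr
    have h3 : 0 < aL m (U \ {r}) v := by
      rw [aL_pos]
      by_cases hur : u = r
      · subst hur
        refine ⟨r2, Finset.mem_sdiff.2 ⟨hr2, by rw [Finset.mem_singleton]; omega⟩, ?_,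
          h2.trans (hm h12.le)⟩
        rcases hU v hv with h | h
        · exact absurd h hvr
        · omega
      · exact ⟨u, Finset.mem_sdiff.2 ⟨hu, by rw [Finset.mem_singleton]; exact hur⟩, h1, h2⟩
    omega
  · intro h
    subst h
    refine ⟨⟨hr2, by omega⟩, ?_⟩
    by_contra h3
    obtain ⟨u, hu, h4, -⟩ := aL_pos.1 (Nat.pos_of_ne_zero h3)
    rw [Finset.mem_sdiff, Finset.mem_singleton] at hu
    rcases hU u hu.1 with h | h
    · exact hu.2 h
    · omega

/-- the part 1 -/
theorem Lwd_one (m : ℕ → ℕ) (N : ℕ) (h : 0 < N) (W : Finset ℕ) (f : Fin N →₀ ℕ) :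
    Lwd m N W f 1 =
      if 0 < f ⟨0, h⟩ then Lw m N W (f - Finsupp.single ⟨0, h⟩ 1) else 0 := by
  unfold Lwd
  rw [Finset.sum_eq_single (⟨0, h⟩ : Fin N)]
  · simp
  · intro i _ hi
    rw [if_neg]
    rintro ⟨h1, -⟩
    apply hi
    apply Fin.ext
    simp only
    omega
  · intro h1
    exact absurd (Finset.mem_univ _) h1

/-- the second vertex in `C` or not -/
theorem split2 (m : ℕ → ℕ) (U : Finset ℕ) (r r2 : ℕ) (g : Finset ℕ → ℤ) :
    ∑ C ∈ U.powerset.filter (fun C => r ∈ C ∧ Ok m U C), g C =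
      ∑ C ∈ U.powerset.filter (fun C => (r ∈ C ∧ r2 ∈ C) ∧ Ok m U C), g C +
        ∑ C ∈ U.powerset.filter (fun C => (r ∈ C ∧ r2 ∉ C) ∧ Ok m U C), g C := by
  rw [Finset.sum_filter, Finset.sum_filter, Finset.sum_filter, ← Finset.sum_add_distrib]
  refine Finset.sum_congr rfl fun C _ => ?_
  by_cases h1 : r ∈ C <;> by_cases h2 : r2 ∈ C <;> by_cases h3 : Ok m U C <;> simp [h1, h2, h3]

/-- the case where the first vertex has only one neighbour -/
theorem caseA {m : ℕ → ℕ} (hm : Monotone m) {N : ℕ} {U : Finset ℕ} {r r2 : ℕ} (hr : r ∈ U)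
    (hr2 : r2 ∈ U) (h12 : r < r2) (hU : ∀ u ∈ U, u = r ∨ r2 ≤ u) (hc : cn m U = 1)
    (hA : ∀ u ∈ U, u = r ∨ u = r2 ∨ m r < u) (f : Fin N →₀ ℕ) :
    ∑ C ∈ U.powerset.filter (fun C => (r ∈ C ∧ r2 ∉ C) ∧ Ok m U C), Lwd m N (U \ C) f C.card =
      Lwd m N (U \ {r}) f 1 := by
  have hmin : ∀ u ∈ U, r ≤ u := by
    intro u hu
    rcases hU u hu with h | h <;> omega
  have hadj : r2 ≤ m r := by
    obtain ⟨u, hu, h1, h2⟩ := left_of hr hmin hc hr2 (by omega)
    rcases hU u hu with h | h
    · rw [← h]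
      exact h2
    · omega
  have hfil : U.powerset.filter (fun C => (r ∈ C ∧ r2 ∉ C) ∧ Ok m U C) = {{r}} := by
    ext C
    rw [Finset.mem_filter, Finset.mem_powerset, Finset.mem_singleton]
    constructor
    · rintro ⟨hCU, ⟨hrC, hr2C⟩, hOk, -⟩
      by_contra hne
      have hex : (C.erase r).Nonempty := by
        rw [Finset.nonempty_iff_ne_empty]
        intro h0
        apply hne
        ext x
        rw [Finset.mem_singleton]
        constructor
        · intro hx
          by_contra hxr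
          have h2 : x ∈ C.erase r := Finset.mem_erase.2 ⟨hxr, hx⟩
          rw [h0] at h2
          exact absurd h2 (Finset.notMem_empty x)
        · intro hx
          rw [hx]
          exact hrC
      obtain ⟨v, hv, hle⟩ : ∃ v ∈ C.erase r, ∀ u ∈ C.erase r, v ≤ u :=
        ⟨(C.erase r).min' hex, Finset.min'_mem _ hex, fun u hu => Finset.min'_le _ u hu⟩
      rw [Finset.mem_erase] at hv
      obtain ⟨hvr, hvC⟩ := hv
      have hrv : r < v := by
        have := hmin v (hCU hvC)
        omega
      obtain ⟨u, hu, h1, h2⟩ := aL_pos.1 (hOk v hvC ⟨r, hrC, hrv⟩)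
      have hur : u = r := by
        by_contra hur
        have := hle u (Finset.mem_erase.2 ⟨hur, hu⟩)
        omega
      rw [hur] at h2
      rcases hA v (hCU hvC) with h | h | h
      · exact hvr h
      · exact hr2C (h ▸ hvC)
      · omega
    · intro hC
      subst hC
      refine ⟨Finset.singleton_subset_iff.2 hr, ⟨Finset.mem_singleton_self r, ?_⟩, ?_, ?_⟩
      · rw [Finset.mem_singleton]
        omega
      · intro v hv hw
        obtain ⟨w, hw, hwv⟩ := hw
        rw [Finset.mem_singleton] at hv hw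
        omega
      · rw [cn_sdiff hm hr hr2 h12 hU hc]
        unfold ea
        rw [Finset.sum_eq_single r2]
        · unfold aL
          rw [Finset.card_eq_one]
          refine ⟨r, ?_⟩
          ext x
          rw [Finset.mem_filter, Finset.mem_singleton]
          constructor
          · rintro ⟨h, -⟩
            exact h
          · intro h
            rw [h]
            exact ⟨rfl, h12, hadj⟩
        · intro v hv hne
          rw [Finset.mem_sdiff, Finset.mem_singleton] at hv
          by_contra h0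
          obtain ⟨u, hu, h1, h2⟩ := aL_pos.1 (Nat.pos_of_ne_zero h0)
          rw [Finset.mem_singleton] at hu
          rw [hu] at h2
          rcases hA v hv.1 with h | h | h
          · exact hv.2 h
          · exact hne h
          · omega
        · intro h
          exfalso
          apply h
          rw [Finset.mem_sdiff, Finset.mem_singleton]
          exact ⟨hr2, by omega⟩
  rw [hfil, Finset.sum_singleton, Finset.card_singleton]

end STARaux

open STARaux in
theorem tSTAR : S_LWR → S_ISO → S_BIJ → S_STAR := by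
  intro hLWR hISO hBIJ m hm N U
  obtain ⟨n, hn⟩ : ∃ n : ℕ, n = U.card := ⟨_, rfl⟩
  induction n using Nat.strong_induction_on generalizing U with
  | _ n ih =>
    intro r r2 hr hr2 h12 hU hN hc f
    have hmin : ∀ u ∈ U, r ≤ u := by
      intro u hu
      rcases hU u hu with h | h <;> omega
    have hcard : 2 ≤ U.card := by
      have h1 : ({r, r2} : Finset ℕ) ⊆ U := by
        intro x hx
        rw [Finset.mem_insert, Finset.mem_singleton] at hx
        rcases hx with h | h
        · rw [h]; exact hr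
        · rw [h]; exact hr2
      have h2 := Finset.card_le_card h1
      rw [Finset.card_pair (by omega)] at h2
      exact h2
    rw [hLWR m hm N U r hr hmin hN hcard hc f, split2 m U r r2]
    suffices hs : ∑ C ∈ U.powerset.filter (fun C => (r ∈ C ∧ r2 ∉ C) ∧ Ok m U C),
        Lwd m N (U \ C) f C.card = Lwd m N (U \ {r}) f 1 by
      rw [hs]
      ring
    by_cases hA : ∀ u ∈ U, u = r ∨ u = r2 ∨ m r < u
    · exact caseA hm hr hr2 h12 hU hc hA f
    · have hA' : ∃ u ∈ U, u ≠ r ∧ u ≠ r2 ∧ u ≤ m r := by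
        by_contra h0
        apply hA
        intro u hu
        by_contra h1
        apply h0
        exact ⟨u, hu, fun h => h1 (Or.inl h), fun h => h1 (Or.inr (Or.inl h)), by
          by_contra h2
          exact h1 (Or.inr (Or.inr (by omega)))⟩
      obtain ⟨u0, hu0, hu1, hu2, hu3⟩ := hA'
      have hex : ((U.erase r).erase r2).Nonempty :=
        ⟨u0, Finset.mem_erase.2 ⟨hu2, Finset.mem_erase.2 ⟨hu1, hu0⟩⟩⟩
      obtain ⟨r3, hv, hle⟩ : ∃ v ∈ (U.erase r).erase r2, ∀ u ∈ (U.erase r).erase r2, v ≤ u :=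
        ⟨((U.erase r).erase r2).min' hex, Finset.min'_mem _ hex,
          fun u hu => Finset.min'_le _ u hu⟩
      rw [Finset.mem_erase, Finset.mem_erase] at hv
      obtain ⟨h32, h31, hr3⟩ := hv
      have h23 : r2 < r3 := by
        rcases hU r3 hr3 with h | h
        · exact absurd h h31
        · omega
      have h3m : r3 ≤ m r :=
        (hle u0 (Finset.mem_erase.2 ⟨hu2, Finset.mem_erase.2 ⟨hu1, hu0⟩⟩)).trans hu3
      have hU3 : ∀ u ∈ U, u = r ∨ u = r2 ∨ r3 ≤ u := by
        intro u hu
        by_cases h1 : u = r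
        · exact Or.inl h1
        · by_cases h2 : u = r2
          · exact Or.inr (Or.inl h2)
          · exact Or.inr (Or.inr (hle u (Finset.mem_erase.2 ⟨h2, Finset.mem_erase.2 ⟨h1, hu⟩⟩)))
      have hN0 : 0 < N := by omega
      obtain ⟨hb1, hb2⟩ := hBIJ m hm U r r2 r3 hr hr2 hr3 h12 h23 hU3 hc h3m
        (fun V k => Lwd m N V f k)
      have hWlt : (U \ {r}).card < U.card := by
        refine Finset.card_lt_card ?_
        rw [Finset.ssubset_iff_of_subset Finset.sdiff_subset]
        refine ⟨r, hr, ?_⟩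
        rw [Finset.mem_sdiff, Finset.mem_singleton]
        exact fun h => h.2 rfl
      have hW2 : r2 ∈ U \ {r} := by
        rw [Finset.mem_sdiff, Finset.mem_singleton]
        exact ⟨hr2, by omega⟩
      have hW3 : r3 ∈ U \ {r} := by
        rw [Finset.mem_sdiff, Finset.mem_singleton]
        exact ⟨hr3, by omega⟩
      have hWU : ∀ u ∈ U \ {r}, u = r2 ∨ r3 ≤ u := by
        intro u hu
        rw [Finset.mem_sdiff, Finset.mem_singleton] at hu
        rcases hU3 u hu.1 with h | h | h
        · exact absurd h hu.2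
        · exact Or.inl h
        · exact Or.inr h
      have hIH := ih (U \ {r}).card (by omega) (U \ {r}) rfl r2 r3 hW2 hW3 h23 hWU (by omega)
        (cn_sdiff hm hr hr2 h12 hU hc)
      rw [hb1, Lwd_one m N hN0]
      have hterm : ∀ C ∈ (U \ {r}).powerset.filter
          (fun C => (r2 ∈ C ∧ r3 ∈ C) ∧ Ok m (U \ {r}) C),
          Lwd m N (insert r2 ((U \ {r}) \ C)) f C.card =
            if 0 < f ⟨0, hN0⟩ then
              Lwd m N ((U \ {r}) \ C) (f - Finsupp.single ⟨0, hN0⟩ 1) C.card else 0 := by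
        intro C hC
        rw [Finset.mem_filter, Finset.mem_powerset] at hC
        obtain ⟨hCU, ⟨h2C, h3C⟩, hOk⟩ := hC
        obtain ⟨hk, hsep⟩ := hb2 C hCU h2C h3C hOk
        exact (hISO m hm N hN0 ((U \ {r}) \ C) r2 hsep f).2 C.card hk
      rw [Finset.sum_congr rfl hterm]
      by_cases h0 : 0 < f ⟨0, hN0⟩
      · simp only [if_pos h0]
        rw [hIH]
      · simp only [if_neg h0]
        rw [Finset.sum_const_zero]

end Pool.Agent.LOW
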