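import Pool.Agent.Lib.MP_263316_co.LOW.Spec

/-!
MP_263316_co, project LOW: the coefficients of index 0, 1, 2 (helper35).
-/

set_option autoImplicit false

namespace Pool.Agent.LOW

open Finset Pool.Agent.SWC

namespace THREEaux

theorem conn (hORD : S_ORD) (hINC : S_INC) (hNNG : S_NNG) (hPUL : S_PUL) (m : ℕ → ℕ)
    (hm : Monotone m) (N : ℕ) (U : Finset ℕ) (hU : U.card ≤ N) (hc : cn m U = 1)
    (f : Fin N →₀ ℕ) : (∀ j ≤ 2, 0 ≤ (cf m N U f).coeff j) ∧
    (4 ≤ eE m U → (cf m N U f).coeff 0 ≤ (cf m N U f).coeff 1 ∧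
      (cf m N U f).coeff 1 ≤ (cf m N U f).coeff 2) := by
  by_cases hb : (∑ i ∈ Finset.univ.filter (fun i : Fin N => 2 ≤ (i : ℕ)), f i) ≤ 1
  · obtain ⟨p1, _, _, p4⟩ := t_PUcoeff (eE m U) (cf m N U f) (hPUL m hm N U hU f hb)
    exact ⟨fun j _ => p1 j, fun h4 => ⟨p4 0 1 (by omega) (by omega), p4 1 2 (by omega) (by omega)⟩⟩
  · have hsplit : (∑ i ∈ Finset.univ.filter (fun i : Fin N => 2 ≤ (i : ℕ)), f i) +
        (∑ i ∈ Finset.univ.filter (fun i : Fin N => ¬ 2 ≤ (i : ℕ)), f i) = len f := by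
      unfold len
      exact Finset.sum_filter_add_sum_filter_not _ _ _
    rcases Nat.lt_or_ge (len f) 3 with h3 | h3
    · -- two parts, both at least 3
      have hlen : len f = 2 := by omega
      have hz : (∑ i ∈ Finset.univ.filter (fun i : Fin N => ¬ 2 ≤ (i : ℕ)), f i) = 0 := by omega
      have hparts : ∀ i : Fin N, 0 < f i → 3 ≤ (i : ℕ) + 1 := by
        intro i hi
        by_contra hcon
        have h0 := (Finset.sum_eq_zero_iff.1 hz) i
          (Finset.mem_filter.2 ⟨Finset.mem_univ i, by omega⟩)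
        omega
      have hf : f ≠ 0 := by
        rintro rfl
        unfold len at hlen
        simp at hlen
      obtain ⟨q1, q2⟩ := hINC m hm N U hU f 3 hparts
      rw [hc, hlen] at q1 q2
      refine ⟨fun j hj => q1 j (by omega), fun _ => ⟨q2 hf 0 (by omega), q2 hf 1 (by omega)⟩⟩
    · have hz : ∀ j : ℕ, j + 1 < len f → (cf m N U f).coeff j = 0 := by
        intro j hj
        exact hORD m hm N U hU f j (by rw [hc]; exact hj)
      have h0 := hz 0 (by omega)
      have h1 := hz 1 (by omega)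
      have h2 : 0 ≤ (cf m N U f).coeff 2 := by
        rcases Nat.lt_or_ge 3 (len f) with h4 | h4
        · rw [hz 2 (by omega)]
        · have hlen : len f = 3 := by omega
          have hL := hNNG m hm N U hU f
          unfold Lw at hL
          rw [hc, hlen, if_pos (by norm_num)] at hL
          exact hL
      refine ⟨fun j hj => ?_, fun _ => ⟨by rw [h0, h1], by rw [h1]; exact h2⟩⟩
      rcases Nat.lt_or_ge j 2 with hj2 | hj2
      · rw [hz j (by omega)]
      · have : j = 2 := by omega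
        rw [this]
        exact h2

theorem all (hPHI : S_PHI) (hORD : S_ORD) (hINC : S_INC) (hNNG : S_NNG) (hSPLT : S_SPLT)
    (hPRD : S_PRD) (hPUL : S_PUL) (m : ℕ → ℕ) (hm : Monotone m) (N : ℕ) :
    ∀ (n : ℕ) (U : Finset ℕ), U.card ≤ n → U.card ≤ N →
      ∀ f : Fin N →₀ ℕ, ∀ j ≤ 2, 0 ≤ (cf m N U f).coeff j := by
  intro n
  induction n with
  | zero =>
    intro U hn hU f j hj
    have hU0 : U = ∅ := Finset.card_eq_zero.1 (by omega)
    subst hU0
    unfold cf
    rw [hPHI.2.2.1 m hm N, MvPolynomial.coeff_one]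
    split_ifs
    · rw [Polynomial.coeff_one]
      split_ifs <;> norm_num
    · simp
  | succ n ih =>
    intro U hn hU f j hj
    rcases U.eq_empty_or_nonempty with h0 | hne
    · exact ih U (by rw [h0]; simp) hU f j hj
    · rcases hSPLT m hm U hne with hc | ⟨A, B, hA, hB, hAB, hAc, hBc, hadj⟩
      · exact (conn hORD hINC hNNG hPUL m hm N U hU hc f).1 j hj
      · have h2 := (hPRD m hm N A B hadj (by rw [hAB]; exact hU)).2
          (fun g k hk => ih A (by omega) (by omega) g k hk)
          (fun g k hk => ih B (by omega) (by omega) g k hk) f j hj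
        rw [hAB] at h2
        exact h2

end THREEaux

/-- TASK THREE -/
theorem tTHREE : S_PHI → S_ORD → S_INC → S_NNG → S_SPLT → S_PRD → S_PUL → S_THREE := by
  intro hPHI hORD hINC hNNG hSPLT hPRD hPUL m hm N U hU f
  refine ⟨THREEaux.all hPHI hORD hINC hNNG hSPLT hPRD hPUL m hm N U.card U le_rfl hU f,
    fun hc h4 => ?_⟩
  exact (THREEaux.conn hORD hINC hNNG hPUL m hm N U hU hc f).2 h4

end Pool.Agent.LOW
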