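import Pool.Agent.Lib.MP_263316_co.LOW.RB
import Pool.Agent.Lib.MP_263316_co.LOW.PHI
import Pool.Agent.Lib.MP_263316_co.LOW.REC
import Pool.Agent.Lib.MP_263316_co.LOW.CNT
import Pool.Agent.Lib.MP_263316_co.LOW.ORD
import Pool.Agent.Lib.MP_263316_co.LOW.INC
import Pool.Agent.Lib.MP_263316_co.LOW.LWR
import Pool.Agent.Lib.MP_263316_co.LOW.ISO
import Pool.Agent.Lib.MP_263316_co.LOW.BIJ
import Pool.Agent.Lib.MP_263316_co.LOW.STAR
import Pool.Agent.Lib.MP_263316_co.LOW.PRD
import Pool.Agent.Lib.MP_263316_co.LOW.SPLT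
import Pool.Agent.Lib.MP_263316_co.LOW.NNG
import Pool.Agent.Lib.MP_263316_co.LOW.PUL
import Pool.Agent.Lib.MP_263316_co.LOW.THREE
import Pool.Agent.Lib.MP_263316_co.LOW.PAR
import Pool.Agent.Lib.MP_263316_co.LOW.END

/-!
MP_263316_co, project LOW: assembly.
-/

set_option autoImplicit false

namespace Pool.Agent.LOW.All

open Pool.Agent.LOW

theorem phi : S_PHI := tPHI
theorem rc : S_REC := tREC tRB phi
theorem ord : S_ORD := tORD phi rc tCNT
theorem inc : S_INC := tINC phi rc tCNT ord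
theorem star : S_STAR := tSTAR (tLWR rc tCNT ord) (tISO phi) tBIJ
theorem prd : S_PRD := tPRD phi ord
theorem nng : S_NNG := tNNG phi star tSPLT prd
theorem three : S_THREE := tTHREE phi ord inc nng tSPLT prd (tPUL phi)
theorem final : S_END := tEND ord inc nng three (tPAR phi)

end Pool.Agent.LOW.All
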