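import Pool.Agent.Lib.MP_263316_co.T2.ALLV
import Pool.Agent.Lib.MP_263316_co.SWK.AllE
import Pool.Agent.Lib.MP_263316_co.HOOK.SYM
import Pool.Agent.Lib.MP_263316_co.HOOK.EX

/-!
MP_263316_co, project LOW (helper30): the low coefficients of the e-coefficients of the chromatic
quasisymmetric functions of all natural unit interval graphs. Definitions.

Graphs as in Base.lean (`m` monotone, `u < v` adjacent iff `v ≤ m u`). The e-expansion of `X_U` is
encoded as a polynomial `Ph m N U` in `N` variables over `ℤ[q]`, the variable `i : Fin N` standing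
for `e_(i+1)`. An exponent vector `f : Fin N →₀ ℕ` is the partition with `f i` parts equal to
`i + 1`.
-/

set_option autoImplicit false

namespace Pool.Agent.LOW

open Finset Pool.Agent.SWC

/-- the evaluation: the variable `i` goes to `e_(i+1)` -/
noncomputable def ev (N : ℕ) : AN N →ₐ[Polynomial ℤ] AN N :=
  MvPolynomial.aeval (fun i : Fin N => es (xx N) ((i : ℕ) + 1))

/-- the e-expansion of `X_U` -/
noncomputable def Ph (m : ℕ → ℕ) (N : ℕ) (U : Finset ℕ) : AN N :=
  open Classical in
  if h : ∃ P : AN N, ev N P = XX m (qq N) (xx N) U then h.choose else 0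

/-- the coefficient of `e_f` in `X_U` -/
noncomputable def cf (m : ℕ → ℕ) (N : ℕ) (U : Finset ℕ) (f : Fin N →₀ ℕ) : Polynomial ℤ :=
  MvPolynomial.coeff f (Ph m N U)

/-- the coefficient of `e_f / e_k` in `X_U` (zero if `k` is not a part of `f`) -/
noncomputable def cfd (m : ℕ → ℕ) (N : ℕ) (U : Finset ℕ) (f : Fin N →₀ ℕ) (k : ℕ) :
    Polynomial ℤ :=
  ∑ i : Fin N, if (i : ℕ) + 1 = k ∧ 0 < f i then cf m N U (f - Finsupp.single i 1) else 0

/-- number of parts -/
def len {N : ℕ} (f : Fin N →₀ ℕ) : ℕ := ∑ i, f i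

/-- number of components (vertices without left neighbour) -/
def cn (m : ℕ → ℕ) (U : Finset ℕ) : ℕ := (U.filter (fun v => aL m U v = 0)).card

/-- the weight of the cluster `C` in `U` with first vertex `r` -/
noncomputable def wC (m : ℕ → ℕ) (U : Finset ℕ) (r : ℕ) (C : Finset ℕ) : Polynomial ℤ :=
  Pi m (Polynomial.X : Polynomial ℤ) r C *
    (Polynomial.X ^ ea m U C - Polynomial.X ^ (C.card + eb m U C))

/-- the lowest possible coefficient (of `q^(l - c)`) -/
noncomputable def Lw (m : ℕ → ℕ) (N : ℕ) (U : Finset ℕ) (f : Fin N →₀ ℕ) : ℤ :=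
  if cn m U ≤ len f then (cf m N U f).coeff (len f - cn m U) else 0

/-- the same for `f` without one part `k` -/
noncomputable def Lwd (m : ℕ → ℕ) (N : ℕ) (U : Finset ℕ) (f : Fin N →₀ ℕ) (k : ℕ) : ℤ :=
  ∑ i : Fin N, if (i : ℕ) + 1 = k ∧ 0 < f i then Lw m N U (f - Finsupp.single i 1) else 0

/-- `C` is connected and sends exactly one edge to the right into every component of `U \ C` -/
def Ok (m : ℕ → ℕ) (U C : Finset ℕ) : Prop :=
  (∀ v ∈ C, (∃ w ∈ C, w < v) → 0 < aL m C v) ∧ ea m U C = cn m (U \ C)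

instance (m : ℕ → ℕ) (U C : Finset ℕ) : Decidable (Ok m U C) := by unfold Ok; infer_instance

end Pool.Agent.LOW
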