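import Pool.Agent.Lib.MP_263316_co.LOW.Spec
import Pool.Agent.Lib.MP_263316_co.FIN
import Pool.Agent.Lib.MP_263316_co.FUN

/-!
MP_263316_co, project LOW: final assembly.
-/

set_option autoImplicit false

namespace Pool.Agent.LOW

open Finset Pool.Agent.SWC

namespace FINaux

open FinAux in
theorem cn_mh {n : ℕ} (h : Fin n → Fin n) :
    cn (mh h) (range n) =
      (Finset.univ.filter (fun i : Fin n => ∀ j : Fin n, j < i → h j < i)).card := by
  classical
  unfold cn
  rw [Finset.card_filter, Finset.card_filter, Finset.sum_range]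
  refine Finset.sum_congr rfl fun i _ => ?_
  have hiff : aL (mh h) (range n) (i : ℕ) = 0 ↔ ∀ j : Fin n, j < i → h j < i := by
    unfold aL
    rw [Finset.card_eq_zero, Finset.filter_eq_empty_iff]
    constructor
    · intro H j hj
      by_contra hc
      refine H (Finset.mem_range.2 j.2) ⟨hj, ?_⟩
      rw [mh_fin]
      exact not_lt.1 hc
    · rintro H u hu ⟨h1, h2⟩
      have h3 := H ⟨u, Finset.mem_range.1 hu⟩ h1
      have h4 : mh h u = (h ⟨u, Finset.mem_range.1 hu⟩ : ℕ) :=
        mh_fin h ⟨u, Finset.mem_range.1 hu⟩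
      rw [h4] at h2
      exact absurd h3 (not_lt.2 h2)
  by_cases hd : aL (mh h) (range n) (i : ℕ) = 0
  · rw [if_pos hd, if_pos (hiff.1 hd)]
  · rw [if_neg hd, if_neg (fun h' => hd (hiff.2 h'))]

end FINaux

open FinAux FINaux in
theorem tFIN : S_FIN := by
  intro hINC hNNG hTHREE hPAR n h hm _ E c hE hc
  have hg : Monotone (mh h) := mh_mono h hm
  obtain ⟨a, fv, ha, hfv⟩ := hPAR (mh h) hg n (range n) (Finset.card_range n)
  have hU : (range n).card ≤ n := le_of_eq (Finset.card_range n)
  have hcn : cn (mh h) (range n) = c := (cn_mh h).trans hc.symm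
  have hEe : eE (mh h) (range n) = E := (eE_mh h).trans hE.symm
  refine ⟨a, (sum_eq h t_FUN).trans ha, fun μ => ?_⟩
  obtain ⟨h1, h2, h3⟩ := hfv μ
  obtain ⟨t1, t2⟩ := hTHREE (mh h) hg n (range n) hU (fv μ)
  rw [← h1] at t1 t2
  rw [hcn, hEe] at t2
  refine ⟨fun s hs hmin i j hij hj => ?_, ?_, t1, t2⟩
  · obtain ⟨i1, i2⟩ := hINC (mh h) hg n (range n) hU (fv μ) s (fun k hk => by
      rw [h3 k] at hk
      exact hmin _ (Multiset.count_pos.1 hk))
    have hne : fv μ ≠ 0 := by
      intro h0
      have h4 : len (fv μ) = 0 := by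
        rw [h0]
        simp [len]
      rw [h2, Multiset.card_eq_zero] at h4
      rw [h4] at hs
      exact absurd hs (Multiset.notMem_zero s)
    have i2' := i2 hne
    rw [hcn, h2, ← h1] at i1 i2'
    refine ⟨i1 i (by omega), ?_⟩
    clear i2
    induction j, hij using Nat.le_induction with
    | base => exact le_rfl
    | succ j hij ih => exact (ih (by omega)).trans (i2' j (by omega))
  · by_cases hle : c ≤ Multiset.card μ.parts
    · have h4 := hNNG (mh h) hg n (range n) hU (fv μ)
      unfold Lw at h4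
      rw [hcn, h2, if_pos hle, ← h1] at h4
      exact h4
    · rw [Nat.sub_eq_zero_of_le (by omega)]
      exact t1 0 (by omega)

end Pool.Agent.LOW
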