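import Pool.Agent.Lib.MP_263316_co.LOW.Spec

/-!
MP_263316_co, project LOW: the recursion for the first vertex (`tRB`).
-/

set_option autoImplicit false

namespace Pool.Agent.LOW

open Finset Pool.Agent.SWC

namespace RBaux

theorem sum_aR (m : ℕ → ℕ) (A B : Finset ℕ) :
    ∑ u ∈ A, aR m B u = ∑ v ∈ B, aL m A v := by
  unfold aR aL
  simp only [Finset.card_filter]
  rw [Finset.sum_comm]

theorem aL_split (m : ℕ → ℕ) (U C : Finset ℕ) (h : C ⊆ U) (u : ℕ) :
    aL m U u = aL m C u + aL m (U \ C) u := by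
  unfold aL
  simp only [Finset.card_filter]
  rw [add_comm, Finset.sum_sdiff h]

theorem qn_map {R R' : Type} [CommRing R] [CommRing R'] (φ : R →+* R') (q : R) (k : ℕ) :
    φ (qn q k) = qn (φ q) k := by
  unfold qn
  rw [map_sum]
  exact Finset.sum_congr rfl fun i _ => map_pow φ q i

theorem Pi_map {R R' : Type} [CommRing R] [CommRing R'] (φ : R →+* R') (m : ℕ → ℕ) (q : R)
    (r : ℕ) (C : Finset ℕ) : φ (Pi m q r C) = Pool.Agent.SWK.PiR m (φ q) {r} C := by
  unfold Pi Pool.Agent.SWK.PiR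
  rw [map_prod, Finset.sdiff_singleton_eq_erase]
  exact Finset.prod_congr rfl fun v _ => qn_map φ q _

theorem ks {K : Type} [Field K] (m : ℕ → ℕ) (q : K) (hq0 : q ≠ 0) (r : ℕ) (U C : Finset ℕ)
    (hC : C ⊆ U) (hr : r ∈ C) (hmin : ∀ u ∈ U, r ≤ u) :
    Pool.Agent.SWK.KS m q {r} (fun u => q ^ aR m (U \ C) u) (fun u => q ^ (1 + aL m U u)) C =
      Pool.Agent.SWK.PiR m q {r} C * (q ^ ea m U C - q ^ (C.card + eb m U C)) := by
  rw [Pool.Agent.HOOK.KS_single K m q r C _ _ hr]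
  have h1 : (∏ u ∈ C, q ^ aR m (U \ C) u) = q ^ ea m U C := by
    rw [Finset.prod_pow_eq_pow_sum, sum_aR]
    rfl
  have h2 : ∏ u ∈ C \ {r}, (q⁻¹ ^ aL m C u * qn q (aL m C u)) =
      q⁻¹ ^ (∑ u ∈ C \ {r}, aL m C u) * Pool.Agent.SWK.PiR m q {r} C := by
    rw [Finset.prod_mul_distrib, Finset.prod_pow_eq_pow_sum]
    rfl
  have h3 : ∑ u ∈ C, aL m C u = ∑ u ∈ C \ {r}, aL m C u := by
    rw [← Finset.sum_sdiff (Finset.singleton_subset_iff.mpr hr), Finset.sum_singleton,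
      Pool.Agent.HOOK.aL_min (fun u hu => hmin u (hC hu)), add_zero]
  have h4 : ∑ u ∈ C, (1 + aL m U u) = C.card + eb m U C + ∑ u ∈ C \ {r}, aL m C u := by
    rw [Finset.sum_add_distrib, Finset.sum_const, smul_eq_mul, mul_one]
    have h5 : ∑ u ∈ C, aL m U u = ∑ u ∈ C, aL m C u + ∑ u ∈ C, aL m (U \ C) u := by
      rw [← Finset.sum_add_distrib]
      exact Finset.sum_congr rfl fun u _ => aL_split m U C hC u
    have h6 : ∑ u ∈ C, aL m (U \ C) u = eb m U C := (sum_aR m (U \ C) C).symm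
    rw [h5, h6, h3]
    ring
  have h7 : (∏ u ∈ C, q ^ (1 + aL m U u)) = q ^ (C.card + eb m U C) *
      q ^ (∑ u ∈ C \ {r}, aL m C u) := by
    rw [Finset.prod_pow_eq_pow_sum, h4, pow_add]
  have h8 : q ^ (∑ u ∈ C \ {r}, aL m C u) * q⁻¹ ^ (∑ u ∈ C \ {r}, aL m C u) = 1 := by
    rw [inv_pow, mul_inv_cancel₀ (pow_ne_zero _ hq0)]
  rw [h1, h2, h7]
  linear_combination (-(q ^ (C.card + eb m U C) * Pool.Agent.SWK.PiR m q {r} C)) * h8

end RBaux

open RBaux in
theorem tRB : S_RB := by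
  intro m hm N U r hr hmin
  have hinj : Function.Injective (algebraMap (AN N) (FractionRing (AN N))) :=
    IsFractionRing.injective (AN N) (FractionRing (AN N))
  obtain ⟨φ, hφ⟩ : ∃ φ : AN N →+* FractionRing (AN N), φ = algebraMap (AN N) (FractionRing (AN N)) :=
    ⟨_, rfl⟩
  rw [← hφ] at hinj
  have hq0 : φ (qq N) ≠ 0 := by
    intro h
    have h' := hinj (h.trans (map_zero φ).symm)
    unfold qq at h'
    rw [← MvPolynomial.C_0] at h'
    exact Polynomial.X_ne_zero (MvPolynomial.C_injective (Fin N) (Polynomial ℤ) h')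
  have hq1 : φ (qq N) ≠ 1 := by
    intro h
    have h' := hinj (h.trans (map_one φ).symm)
    unfold qq at h'
    rw [← MvPolynomial.C_1] at h'
    have h2 := MvPolynomial.C_injective (Fin N) (Polynomial ℤ) h'
    have h3 := congrArg (fun p => Polynomial.coeff p 0) h2
    simp at h3
  have hexp := Pool.Agent.SWK.AllE.xf (FractionRing (AN N)) m hm (φ (qq N)) hq0 hq1 N
    (fun k => φ (xx N k)) {r} U (Pool.Agent.HOOK.ini_single hr hmin)
  rw [Finset.card_singleton, pow_one, Pool.Agent.SWK.CONEaux.XX_map] at hexp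
  apply hinj
  rw [map_mul, map_sub, map_one, hexp, map_sum]
  have hfil : U.powerset.filter (fun S => {r} ⊆ S) = U.powerset.filter (fun C => r ∈ C) := by
    ext S
    rw [Finset.mem_filter, Finset.mem_filter, Finset.singleton_subset_iff]
  rw [hfil]
  refine Finset.sum_congr rfl fun C hC => ?_
  rw [Finset.mem_filter, Finset.mem_powerset] at hC
  rw [ks m (φ (qq N)) hq0 r U C hC.1 hC.2 hmin, Pool.Agent.SWK.CONEaux.XX_map,
    Pool.Agent.SWK.CONEaux.es_map, map_mul, map_mul, map_mul, map_sub, map_pow, map_pow, Pi_map]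

end Pool.Agent.LOW
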