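import Pool.Agent.Lib.MP_263316_co.LOW.Spec

/-!
MP_263316_co, project LOW, module SPLT (helper40): a graph with more than one component splits.
-/

set_option autoImplicit false

namespace Pool.Agent.LOW

open Finset Pool.Agent.SWC

theorem tSPLT : S_SPLT := by
  intro m _ U hU
  obtain ⟨r, hrdef⟩ : ∃ r, r = U.min' hU := ⟨_, rfl⟩
  have hrU : r ∈ U := by
    rw [hrdef]
    exact U.min'_mem hU
  have hmin : ∀ u ∈ U, r ≤ u := by
    intro u hu
    rw [hrdef]
    exact U.min'_le u hu
  have hr0 : aL m U r = 0 := by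
    unfold aL
    rw [Finset.card_eq_zero, Finset.filter_eq_empty_iff]
    intro u hu h
    have := hmin u hu
    omega
  have hrZ : r ∈ U.filter (fun v => aL m U v = 0) := Finset.mem_filter.2 ⟨hrU, hr0⟩
  by_cases hc : cn m U = 1
  · exact Or.inl hc
  · right
    have h1 : 0 < (U.filter (fun v => aL m U v = 0)).card := Finset.card_pos.2 ⟨r, hrZ⟩
    have h2 : 1 < (U.filter (fun v => aL m U v = 0)).card := by
      unfold cn at hc
      omega
    obtain ⟨v, hv, hvr⟩ := Finset.exists_mem_ne h2 r
    rw [Finset.mem_filter] at hv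
    obtain ⟨hvU, hv0⟩ := hv
    have hrv : r < v := lt_of_le_of_ne (hmin v hvU) (Ne.symm hvr)
    have hno : ∀ u ∈ U, u < v → m u < v := by
      intro u hu huv
      unfold aL at hv0
      rw [Finset.card_eq_zero, Finset.filter_eq_empty_iff] at hv0
      have := hv0 hu
      omega
    refine ⟨U.filter (fun u => u < v), U.filter (fun u => v ≤ u), ?_, ?_, ?_, ?_, ?_, ?_⟩
    · exact ⟨r, Finset.mem_filter.2 ⟨hrU, hrv⟩⟩
    · exact ⟨v, Finset.mem_filter.2 ⟨hvU, le_rfl⟩⟩
    · ext u
      simp only [Finset.mem_union, Finset.mem_filter]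
      constructor
      · rintro (h | h)
        · exact h.1
        · exact h.1
      · intro h
        rcases Nat.lt_or_ge u v with h3 | h3
        · exact Or.inl ⟨h, h3⟩
        · exact Or.inr ⟨h, h3⟩
    · refine Finset.card_lt_card (Finset.filter_ssubset.2 ⟨v, hvU, ?_⟩)
      omega
    · refine Finset.card_lt_card (Finset.filter_ssubset.2 ⟨r, hrU, ?_⟩)
      omega
    · intro u hu w hw
      rw [Finset.mem_filter] at hu hw
      have h4 := hno u hu.1 hu.2
      omega

end Pool.Agent.LOW
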