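import Pool.Agent.Lib.MP_263316_co.LOW.Def

/-!
MP_263316_co, project LOW (helper30), specification. Definitions in Def.lean. Paper proof: note 5489.

THEOREM. `G` any natural unit interval graph, `c` components, `X_G = ∑ a_μ e_μ`, `l` = number of
parts, `s` = smallest part of `μ`: `0 ≤ a_μ[0] ≤ ... ≤ a_μ[l-c+s-2]`, `0 ≤ a_μ[l-c]`,
`0 ≤ a_μ[0], a_μ[1], a_μ[2]` (increasing if `c = 1` and there are at least 4 edges).

NOTATION. `r` is always the first vertex of `U`. `cf U f` the coefficient of `e_f` in `X_U`, a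
polynomial in `q = Polynomial.X`; `cfd U f k` the coefficient of `e_f / e_k`; `cn U` the number of
components of `U`; `len f` the number of parts; `Ok U C`: `C` connected, `ea U C = cn (U \ C)`.
`hN : U.card ≤ N` everywhere (also true for all subsets). `Finset.sdiff` is `\`.
-/

set_option autoImplicit false

namespace Pool.Agent.LOW

open Finset Pool.Agent.SWC

/-- TASK RB. `XFc` (`Pool.Agent.SWK.AllE.xf`) with `K = FractionRing (AN N)`, `B = {r}`,
`HOOK.ini_single`, `HOOK.KS_single` (compare `HOOK.onepart` in HOOK/SYM.lean, where the case `S = U`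
is computed, and T2/LEFT.lean, `CONEaux.XX_map`, `CONEaux.es_map` for the transfer from the field to
`AN N`). In `KS_single` with `a u = q^(aR m (U \ C) u)`, `b u = q^(1 + aL m U u)`:
`∏_{u ∈ C} q^(aR m (U \ C) u) = q^(ea m U C)` because `∑_{u ∈ C} aR m (U \ C) u = ∑_{v ∈ U \ C} aL m C v`
(both count the pairs `u ∈ C`, `v ∈ U \ C`, `u < v ≤ m u`: `Finset.card_eq_sum_card_fiberwise` or
`Finset.sum_comm` after writing the cardinalities as sums of indicators; `ea`, `eb` are defined by the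
right-hand side), and `∏_{u ∈ C} q^(1 + aL m U u) * ∏_{u ∈ C \ {r}} (q⁻¹)^(aL m C u) [aL m C u] =
q^(|C| + eb m U C) * PiR m q {r} C` because `aL m U u = aL m C u + aL m (U \ C) u` (`C ⊆ U`),
`aL m C r = 0`, and `∑_{u ∈ C} aL m (U \ C) u = ∑_{v ∈ U \ C} aR m C v = eb m U C`. Finally
`PiR m q {r} C = Pi m q r C` (`C \ {r} = C.erase r`, `Finset.sdiff_singleton_eq_erase`). -/
def S_RB : Prop := ∀ (m : ℕ → ℕ), Monotone m → ∀ (N : ℕ) (U : Finset ℕ) (r : ℕ), r ∈ U →
  (∀ u ∈ U, r ≤ u) →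
  (1 - qq N) * XX m (qq N) (xx N) U = ∑ C ∈ U.powerset.filter (fun C => r ∈ C),
    (Pi m (qq N) r C * (qq N ^ ea m U C - qq N ^ (C.card + eb m U C))) *
      es (xx N) C.card * XX m (qq N) (xx N) (U \ C)

/-- TASK PHI. (1) `ev N` is injective: `MvPolynomial.esymmAlgHom_fin_injective (Polynomial ℤ)
(le_refl N)`, `MvPolynomial.esymmAlgHom_apply` (the coercion to `AN N` of `esymmAlgHom P` is
`aeval (fun i => esymm (Fin N) _ (i+1)) P`, and `es (xx N) k = MvPolynomial.esymm (Fin N) _ k` by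
`rfl`); see HOOK/EX.lean `exists_exp`. (2) existence: `HOOK.XX_symm Pool.Agent.SWK.AllE.xf` and
`MvPolynomial.esymmAlgHom_fin_surjective` (as in `exists_exp`), then `Ph` unfolds with `dif_pos` and
`Exists.choose_spec`. (3) `XX ∅ = 1` and injectivity. (4) `XX (A ∪ B) = XX A * XX B` by `Z_union`
(as in LV2/UNI3.lean `all`), then injectivity. (5) for a single vertex `XX m q x {v} = ∑ k, x k =
es x 1` (`Z_singleton`; `Finset.powersetCard_one`, `Finset.sum_map`), the variable `0`. -/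
def S_PHI : Prop := (∀ N : ℕ, Function.Injective (ev N)) ∧
  (∀ (m : ℕ → ℕ), Monotone m → ∀ (N : ℕ) (U : Finset ℕ),
    ev N (Ph m N U) = XX m (qq N) (xx N) U) ∧
  (∀ (m : ℕ → ℕ), Monotone m → ∀ N : ℕ, Ph m N ∅ = 1) ∧
  (∀ (m : ℕ → ℕ), Monotone m → ∀ (N : ℕ) (A B : Finset ℕ),
    (∀ u ∈ A, ∀ v ∈ B, u < v ∧ m u < v) → Ph m N (A ∪ B) = Ph m N A * Ph m N B) ∧
  (∀ (m : ℕ → ℕ), Monotone m → ∀ (N : ℕ) (h : 0 < N) (v : ℕ),
    Ph m N {v} = MvPolynomial.X (⟨0, h⟩ : Fin N))

/-- TASK REC (the recursion for coefficients). Put `Y k = MvPolynomial.X ⟨k - 1, _⟩` for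
`1 ≤ k ≤ N` (`dite`, else `0`). From `S_RB` and injectivity of `ev` (both sides mapped by `ev N`;
`ev N (MvPolynomial.C p) = MvPolynomial.C p` since `ev` is a `Polynomial ℤ`-algebra map,
`qq N = MvPolynomial.C X`, `Pi m (qq N) r C = MvPolynomial.C (Pi m X r C)` by `map_prod`, `map_sum`,
`map_pow`; `1 ≤ |C| ≤ |U| ≤ N`):
`MvPolynomial.C (1 - X) * Ph U = ∑_C MvPolynomial.C (wC m U r C) * Y |C| * Ph (U \ C)`.
Take the coefficient of `f`: `MvPolynomial.coeff_C_mul`, `MvPolynomial.coeff_X_mul'`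
(`coeff f (X i * P) = if i ∈ f.support then coeff (f - single i 1) P else 0`), and in `cfd` only the
index `i = ⟨|C| - 1, _⟩` contributes (`Finset.sum_eq_single`). -/
def S_REC : Prop := ∀ (m : ℕ → ℕ), Monotone m → ∀ (N : ℕ) (U : Finset ℕ) (r : ℕ), r ∈ U →
  (∀ u ∈ U, r ≤ u) → U.card ≤ N → ∀ f : Fin N →₀ ℕ,
  (1 - Polynomial.X) * cf m N U f = ∑ C ∈ U.powerset.filter (fun C => r ∈ C),
    wC m U r C * cfd m N (U \ C) f C.card

/-- TASK CNT. (1) A `v ∈ U \ C` with `aL m (U \ C) v = 0` has `aL m U v = 0`, and then `v ≠ r`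
(`r ∈ C`), or `1 ≤ aL m C v` (`aL m U v = aL m C v + aL m (U \ C) v`). So `cn (U \ C)` is at most
`(cn U - 1) + ea` (`r` is counted in `cn U`: `aL m U r = 0`; `ea m U C = ∑_{v ∈ U \ C} aL m C v`).
(2) First `cn m U = (U.filter (fun v => aR m U v = 0)).card` for every finite `U`: induction on the
maximum (`Finset.induction_on_max`): for `insert t U` with `t` larger than all elements of `U`: the
`aL` of the elements of `U` do not change, `aL t > 0` iff the maximum `p` of `U` is adjacent to `t`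
(`t ≤ m p`; if `u < t ≤ m u` then `u ≤ p` and `t ≤ m u ≤ m p`); `aR t = 0`, the `aR` of `u ∈ U`
changes only if `t ≤ m u`, and then `u = p` or `aR m U u > 0` already (`u < p ≤ t ≤ m u`); `aR m U p
= 0` before. So both counts grow by 1 if `U = ∅` or `m p < t`, otherwise both do not change. Then (2)
as (1) with right neighbours: `v ∈ U \ C` with `aR m (U \ C) v = 0` has `aR m U v = 0` or
`1 ≤ aR m C v`. -/
def S_CNT : Prop := ∀ (m : ℕ → ℕ), Monotone m → ∀ (U C : Finset ℕ) (r : ℕ), r ∈ U →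
  (∀ u ∈ U, r ≤ u) → C ⊆ U → r ∈ C →
  cn m (U \ C) + 1 ≤ cn m U + ea m U C ∧ cn m (U \ C) ≤ cn m U + eb m U C

/-- TASK ORD (coefficients below `l - c` vanish). Strong induction on `|U|`. `U = ∅`: `Ph = 1`
(`S_PHI`), `coeff f 1 = 0` unless `f = 0`, and for `f = 0` the hypothesis `j + 0 < 0` is false.
`U ≠ ∅`: it suffices that all coefficients of `(1 - X) * cf U f` of index `i` with
`i + cn U < len f` vanish (if `(1 - X) a = b` then `a_j = ∑_{i ≤ j} b_i`; induction on `j`: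
`a_0 = b_0`, `a_(j+1) = a_j + b_(j+1)`, from `Polynomial.coeff_X_mul` after `sub_mul, one_mul`). By
`S_REC`: in `cfd m N (U \ C) f |C|` every term is `cf (U \ C) f'` with `len f' + 1 = len f`, whose
coefficients of index `j'`, `j' + cn (U \ C) < len f'`, vanish; it is multiplied by polynomials
divisible by `X^(ea)` and `X^(|C| + eb)` and both exponents `e` satisfy
`cn (U \ C) + 1 ≤ cn U + e` (`S_CNT`, `|C| ≥ 1`). Use: if `p.coeff j = 0` for `j + a < L` then
`(g * (X^e * p)).coeff j = 0` for `j + a < L + e` (divisibility by powers of `X`: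
`Polynomial.X_pow_dvd_iff`). -/
def S_ORD : Prop := ∀ (m : ℕ → ℕ), Monotone m → ∀ (N : ℕ) (U : Finset ℕ), U.card ≤ N →
  ∀ (f : Fin N →₀ ℕ) (j : ℕ), j + cn m U < len f → (cf m N U f).coeff j = 0

/-- TASK INC (the coefficients up to `l - c + s - 2`). Strong induction on `|U|` for the first
statement. `U = ∅`: `Ph = 1`, coefficients of `1` are nonnegative. `U ≠ ∅`: claim
(*) `0 ≤ ((1 - X) * cf U f).coeff j` whenever `j + cn U + 1 < len f + s`; this gives the first
statement by `a_j = ∑_{i ≤ j} b_i` and the second (for `U ≠ ∅`) by `b_(j+1) = a_(j+1) - a_j`. Proof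
of (*) by `S_REC`: let `k = |C|` be a part of `f` (otherwise `cfd = 0`), so `s ≤ k`,
`len f' + 1 = len f`, all parts of `f' = f - single i 1` are at least `s`. The subtracted term
`Pi * X^(k + eb) * cf (U \ C) f'` has zero coefficient at `j`: by `S_ORD` its coefficients of index
`< k + eb + (len f' - cn (U \ C))` vanish, and `j + cn U + 1 < len f + s`,
`cn (U \ C) ≤ cn U + eb` (`S_CNT`). The term `Pi * X^ea * cf (U \ C) f'` has nonnegative coefficient
at `j`: `Pi` has nonnegative coefficients, and for `j' ≤ j - ea` the coefficient of index `j'` of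
`cf (U \ C) f'` is nonnegative by induction: `j' + cn (U \ C) + 1 < len f' + s` because
`cn (U \ C) + 1 ≤ cn U + ea` (`S_CNT`) (if `j < ea` the coefficient is zero). Second statement for
`U = ∅`, `f ≠ 0`: all coefficients are zero. -/
def S_INC : Prop := ∀ (m : ℕ → ℕ), Monotone m → ∀ (N : ℕ) (U : Finset ℕ), U.card ≤ N →
  ∀ (f : Fin N →₀ ℕ) (s : ℕ), (∀ i : Fin N, 0 < f i → s ≤ (i : ℕ) + 1) →
  (∀ j : ℕ, j + cn m U + 1 < len f + s → 0 ≤ (cf m N U f).coeff j) ∧
  (f ≠ 0 → ∀ j : ℕ, j + 1 + cn m U + 1 < len f + s →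
    (cf m N U f).coeff j ≤ (cf m N U f).coeff (j + 1))

/-- TASK LWR (recursion for the lowest coefficient, `U` connected). `len f = 0`: then both sides are
zero (`cn m U = 1`; no part, so all `Lwd = 0`). `len f ≥ 1`: take the coefficient of index
`j = len f - 1` in `S_REC`. Left: `a_j - a_(j-1) = a_j = Lw` by `S_ORD`. Right, term `C`: if some
`v ∈ C` with a smaller element in `C` has `aL m C v = 0` then `Pi = 0` (`v ≠ r`, `qn q 0 = 0`);
otherwise `(Pi).coeff 0 = 1` (`qn X k` has constant coefficient 1 for `k ≥ 1`). With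
`f' = f - single i 1`, `len f' = len f - 1 = j`, `c' = cn (U \ C)`: the coefficients of `cf (U \ C) f'`
of index below `j - c'` vanish (`S_ORD`); `c' ≤ ea` by `S_CNT` (`cn U = 1`), so the coefficient at `j`
of `Pi * X^ea * cf` is `Lw (U \ C) f'` if `ea = c'` (and `c' ≤ j`; it is zero for `c' > j`, as
`Lw` is) and `0` if `ea > c'`. Second part: `c' ≤ 1 + eb`, so `|C| + eb ≥ c'`, with equality only
for `|C| = 1`, i.e. `C = {r}`; for `C = {r}`: `eb m U {r} = 0` (nothing is smaller than `r`) and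
`cn m (U \ {r}) = 1` (`|U| ≥ 2`: for the minimum `r2` of `U \ {r}` the `aL` is 0; for another `v`,
its predecessor `p` in `U`, `p ≠ r`, is adjacent to `v`: `aL m U v > 0` gives `u < v ≤ m u ≤ m p`),
`Pi m q r {r} = 1`, so the contribution is `- Lwd (U \ {r}) f 1`; for `|C| ≥ 2` it is zero. -/
def S_LWR : Prop := ∀ (m : ℕ → ℕ), Monotone m → ∀ (N : ℕ) (U : Finset ℕ) (r : ℕ), r ∈ U →
  (∀ u ∈ U, r ≤ u) → U.card ≤ N → 2 ≤ U.card → cn m U = 1 → ∀ f : Fin N →₀ ℕ,
  Lw m N U f = ∑ C ∈ U.powerset.filter (fun C => r ∈ C ∧ Ok m U C), Lwd m N (U \ C) f C.card -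
    Lwd m N (U \ {r}) f 1

/-- TASK ISO (an isolated first vertex). `v` smaller than all elements of `V` and not adjacent to
them: `Ph (insert v V) = X 0 * Ph V` (`S_PHI` (4), (5)), `cn (insert v V) = cn V + 1`. So
`cf (insert v V) f = if 0 < f 0 then cf V (f - single 0 1) else 0` (`MvPolynomial.coeff_X_mul'`),
`len (f - single 0 1) = len f - 1`; this is the first statement. Second: for `k ≥ 2` and `i` with
`i + 1 = k`, `i ≠ 0`, so `f - single i 1 - single 0 1 = f - single 0 1 - single i 1` and the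
conditions `0 < f i`, `0 < f 0` are not changed by the other subtraction. -/
def S_ISO : Prop := ∀ (m : ℕ → ℕ), Monotone m → ∀ (N : ℕ) (h : 0 < N) (V : Finset ℕ) (v : ℕ),
  (∀ u ∈ V, v < u ∧ m v < u) → ∀ f : Fin N →₀ ℕ,
  (Lw m N (insert v V) f =
    if 0 < f ⟨0, h⟩ then Lw m N V (f - Finsupp.single ⟨0, h⟩ 1) else 0) ∧
  ∀ k : ℕ, 2 ≤ k → Lwd m N (insert v V) f k =
    if 0 < f ⟨0, h⟩ then Lwd m N V (f - Finsupp.single ⟨0, h⟩ 1) k else 0

/-- TASK BIJ (pure combinatorics of finite sets). `U` connected (`cn m U = 1`: every element other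
than the first has a left neighbour in `U`, hence is adjacent to its predecessor), `r < r2 < r3` the
first three elements, `r` adjacent to `r3` (`r3 ≤ m r`), `W = U \ {r}`. First note (M): for
`r ∈ C ⊆ U`, `ea m U C = cn m (U \ C)` iff every `v ∈ U \ C` has
`aL m C v = if aL m (U \ C) v = 0 then 1 else 0`: the inequality `≥` holds for every `v` (`U` is
connected, `v ≠ r`), and `ea` and `cn` are the sums of the two sides. Same for `W` (connected, first
element `r2`). Then the map `C ↦ insert r (C.erase r2)` is a bijection from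
`{C ⊆ W : r2 ∈ C, r3 ∈ C, Ok m W C}` to `{C' ⊆ U : r ∈ C', r2 ∉ C', Ok m U C'}` with inverse
`C' ↦ insert r2 (C'.erase r)`, `|C'| = |C|`, `U \ C' = insert r2 (W \ C)` and `r2` is not adjacent
to `W \ C`. Forward: if `r2` is adjacent to `v ∈ W \ C` then `v > r3` and `r3` is adjacent to `v`, so
`aL m C v ≥ 2`, against (M) in `W`. Hence `r2`, and `r` (`m r ≤ m r2`), have no neighbour in
`W \ C`. `C'` connected: `r3` has the left neighbour `r`; another `v ∈ C` (`v > r3`) has a left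
neighbour in `C`, which is not `r2` or else `r3` is also one. (M) in `U`: `aL m C' r2 = 1` (only `r`),
`aL m (U \ C') r2 = 0`; for `v ∈ W \ C` nothing changes (`r`, `r2` not adjacent to `v`).
Backward: `r2 ∈ U \ C'`. `r3 ∈ C'`: otherwise `r3` has the left neighbours `r2 ∈ U \ C'` and
`r ∈ C'`, against (M). No `v ∈ (U \ C') \ {r2}` is adjacent to `r2`: it would have the left
neighbours `r2 ∈ U \ C'` and `r3 ∈ C'`. So `r` is not adjacent to it either. `C` connected: a
`v ∈ C' \ {r}` with the left neighbour `r` is adjacent to `r2`. (M) in `W`: nothing changes.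
(Use `Finset.sum_bij'` or `Finset.sum_nbij'`.) The statement is for an arbitrary function `F` of
`(U \ C', |C'|)`. -/
def S_BIJ : Prop := ∀ (m : ℕ → ℕ), Monotone m → ∀ (U : Finset ℕ) (r r2 r3 : ℕ), r ∈ U →
  r2 ∈ U → r3 ∈ U → r < r2 → r2 < r3 → (∀ u ∈ U, u = r ∨ u = r2 ∨ r3 ≤ u) → cn m U = 1 →
  r3 ≤ m r → ∀ F : Finset ℕ → ℕ → ℤ,
  (∑ C ∈ U.powerset.filter (fun C => (r ∈ C ∧ r2 ∉ C) ∧ Ok m U C), F (U \ C) C.card =
    ∑ C ∈ (U \ {r}).powerset.filter (fun C => (r2 ∈ C ∧ r3 ∈ C) ∧ Ok m (U \ {r}) C),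
      F (insert r2 ((U \ {r}) \ C)) C.card) ∧
  ∀ C ⊆ U \ {r}, r2 ∈ C → r3 ∈ C → Ok m (U \ {r}) C →
    2 ≤ C.card ∧ ∀ u ∈ (U \ {r}) \ C, r2 < u ∧ m r2 < u

/-- TASK STAR (the formula (**)). Strong induction on `|U|`. By `S_LWR` it suffices that the sum of
`Lwd (U \ C) f |C|` over the `C` with `r ∈ C`, `r2 ∉ C`, `Ok m U C` equals `Lwd (U \ {r}) f 1`.
Case `r` is adjacent only to `r2` (every `u ∈ U`, `u ≠ r, r2` has `m r < u`): the only such `C` is
`{r}`: another element `v` of `C` (take the smallest one) has a left neighbour in `C`, which can only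
be `r`, so `v ≤ m r` and `v = r2`, contradiction. `{r}` is `Ok`: `ea m U {r} = 1` (only `r2` is a
neighbour of `r`: `r2 ≤ m r` because `cn m U = 1`) and `cn m (U \ {r}) = 1` (see LWR). So the sum is
`Lwd (U \ {r}) f 1`. Otherwise `|U| ≥ 3`, `r3` := the third element, `r3 ≤ m r`; `S_BIJ` with
`F V k = Lwd m N V f k` and `S_ISO` (`k = |C| ≥ 2`; `0 < N`) turn the sum into
`∑_{C ⊆ W, r2, r3 ∈ C, Ok m W C} (if 0 < f 0 then Lwd (W \ C) (f - single 0 1) |C| else 0)`,
which is `if 0 < f 0 then Lw W (f - single 0 1) else 0` by the induction hypothesis for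
`W = U \ {r}` (connected, `|W| ≥ 2`, first elements `r2 < r3`), and this is `Lwd W f 1` (in
`Lwd .. 1` only the index `0` contributes). -/
def S_STAR : Prop := ∀ (m : ℕ → ℕ), Monotone m → ∀ (N : ℕ) (U : Finset ℕ) (r r2 : ℕ), r ∈ U →
  r2 ∈ U → r < r2 → (∀ u ∈ U, u = r ∨ r2 ≤ u) → U.card ≤ N → cn m U = 1 →
  ∀ f : Fin N →₀ ℕ, Lw m N U f =
    ∑ C ∈ U.powerset.filter (fun C => (r ∈ C ∧ r2 ∈ C) ∧ Ok m U C), Lwd m N (U \ C) f C.card

/-- TASK PRD (products). `A` before `B`, no edges between them: `Ph (A ∪ B) = Ph A * Ph B`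
(`S_PHI` (4)), `cn (A ∪ B) = cn A + cn B` (`A`, `B` are disjoint). The coefficient of `f` is the sum
over `Finset.antidiagonal f` of `cf A g * cf B g'` (`MvPolynomial.coeff_mul`), `g + g' = f`,
`len g + len g' = len f`. Coefficient of index `len f - cn` of a product of polynomials: by
`S_ORD` only the product of the lowest coefficients (`Polynomial.coeff_mul`; all other pairs of
indices have one of them below its bound); if `len g < cn A` then `cf A g = 0`?? is not needed: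
in that case the pair contributes `(cf A g) * (cf B g')` with `cf B g'` of order `> len f - cn`:
its coefficients of index `≤ len f - cn A - cn B < len g' - cn B` vanish, and `Lw A g = 0` by
definition. First statement: `Lw (A ∪ B) f = ∑_{(g, g')} Lw A g * Lw B g'`, in particular it is
nonnegative if all `Lw A g`, `Lw B g'` are. Second: coefficients of index `0, 1, 2`. -/
def S_PRD : Prop := ∀ (m : ℕ → ℕ), Monotone m → ∀ (N : ℕ) (A B : Finset ℕ),
  (∀ u ∈ A, ∀ v ∈ B, u < v ∧ m u < v) → (A ∪ B).card ≤ N →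
  ((∀ g, 0 ≤ Lw m N A g) → (∀ g, 0 ≤ Lw m N B g) → ∀ f, 0 ≤ Lw m N (A ∪ B) f) ∧
  ((∀ g, ∀ j ≤ 2, 0 ≤ (cf m N A g).coeff j) → (∀ g, ∀ j ≤ 2, 0 ≤ (cf m N B g).coeff j) →
    ∀ f, ∀ j ≤ 2, 0 ≤ (cf m N (A ∪ B) f).coeff j)

/-- TASK SPLT. If `U` is nonempty then `cn m U = 1`, or `U = A ∪ B` with nonempty `A`, `B`, `A`
before `B` and no edges between them: take `v ∈ U` other than the first vertex with
`aL m U v = 0`, `A = {u ∈ U : u < v}`, `B = {u ∈ U : v ≤ u}`: for `u ∈ A`, `w ∈ B`: `m u < v ≤ w`.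
(`cn m U ≥ 1`: the first vertex.) -/
def S_SPLT : Prop := ∀ (m : ℕ → ℕ), Monotone m → ∀ U : Finset ℕ, U.Nonempty → cn m U = 1 ∨
  ∃ A B : Finset ℕ, A.Nonempty ∧ B.Nonempty ∧ A ∪ B = U ∧ A.card < U.card ∧ B.card < U.card ∧
    ∀ u ∈ A, ∀ v ∈ B, u < v ∧ m u < v

/-- TASK NNG (the lowest coefficient is nonnegative). Strong induction on `|U|`: `U = ∅`: `Ph = 1`,
`cn = 0`, the coefficient of index `len f` of `coeff f 1` (`1` or `0`). `cn m U = 1` and
`|U| ≥ 2`: `S_STAR` (`r`, `r2` the two first elements), every `Lwd (U \ C)` is a sum of values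
`Lw (U \ C) f'`, nonnegative by induction. `|U| = 1`: `Ph = X 0` (`S_PHI` (5)), `0` or `1`. Otherwise
`S_SPLT` and `S_PRD`. -/
def S_NNG : Prop := ∀ (m : ℕ → ℕ), Monotone m → ∀ (N : ℕ) (U : Finset ℕ), U.card ≤ N →
  ∀ f : Fin N →₀ ℕ, 0 ≤ Lw m N U f

/-- TASK PUL (at most one part larger than 2). `T2.allV` gives `XX ∈ HC3 N |U| (eE m U)`. Show by
closure induction: for `F ∈ HC3 N n d` there is `P : AN N` with `ev N P = F` and
`coeff f P ∈ PU d` for all `f` with at most one part `≥ 3`. Generator `C p * ∏_{k ∈ l} e_k`: let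
`Y 0 = 1`, `Y k = X ⟨k-1, _⟩` for `1 ≤ k ≤ N`, `Y k = 0` for `k > N` (`ev N (Y k) = es (xx N) k`:
`es x 0 = 1`, `es x k = 0` for `k > N` since `powersetCard k univ = ∅`), `P = C p * (l.map Y).prod`,
which is `0` if some `k ∈ l` is larger than `N`, otherwise `monomial f_l p` with `f_l` the vector of
multiplicities of `l`; its coefficient at `f` is `p` if `f = f_l`, else `0`, and
`∑_{i ≥ 2} f_l i = big3 l`. Then `P = Ph m N U` by injectivity (`S_PHI`). -/
def S_PUL : Prop := ∀ (m : ℕ → ℕ), Monotone m → ∀ (N : ℕ) (U : Finset ℕ), U.card ≤ N →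
  ∀ f : Fin N →₀ ℕ, (∑ i ∈ Finset.univ.filter (fun i : Fin N => 2 ≤ (i : ℕ)), f i) ≤ 1 →
  cf m N U f ∈ PU (eE m U)

/-- TASK THREE. First statement for `cn m U = 1` together with the second one. `f = 0`: `len = 0`;
`∑_{i ≥ 2} f i = 0`, so `S_PUL` and `S_PUcoeff` (`Pool.Agent.T2`/`t_PUcoeff`: all coefficients
nonnegative; weakly increasing up to the middle; indices 0, 1, 2 with `2 * 2 ≤ eE`). In general: if
at most one part is `≥ 3`, `S_PUL`. Otherwise at least two parts are `≥ 3`, `len f ≥ 2`.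
`len f ≥ 4`: the coefficients 0, 1, 2 are zero (`S_ORD`: `j + 1 < len f`). `len f = 3`:
coefficients 0, 1 are zero, coefficient 2 is `Lw m N U f ≥ 0` (`S_NNG`; `len f - 1 = 2`). `len f = 2`:
both parts are `≥ 3`, `S_INC` with `s = 3`: nonnegative for `j + 2 < 5`, increasing for
`j + 1 + 2 < 5`, i.e. `j = 0, 1`. General `U` (first statement): strong induction on `|U|`: `U = ∅`:
`Ph = 1` (`S_PHI`); `S_SPLT`: connected, or `S_PRD`, second part. -/
def S_THREE : Prop := ∀ (m : ℕ → ℕ), Monotone m → ∀ (N : ℕ) (U : Finset ℕ), U.card ≤ N →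
  ∀ f : Fin N →₀ ℕ, (∀ j ≤ 2, 0 ≤ (cf m N U f).coeff j) ∧
  (cn m U = 1 → 4 ≤ eE m U → (cf m N U f).coeff 0 ≤ (cf m N U f).coeff 1 ∧
    (cf m N U f).coeff 1 ≤ (cf m N U f).coeff 2)

/-- TASK PAR (partitions). For a homogeneous symmetric polynomial: `HOOK.exists_exp N n f` (apply it
with `N = n = |U|`, `HOOK.XX_symm Pool.Agent.SWK.AllE.xf`, `HOOK.XX_hom`) gives `a` with
`XX = ∑_μ C (a μ) * (μ.parts.map (es (xx n))).prod`. Let `fv μ : Fin n →₀ ℕ` be the vector with
`fv μ i = μ.parts.count (i + 1)`. `ev n (monomial (fv μ) (a μ))` is the term of `μ`, so by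
injectivity (`S_PHI`) `Ph = ∑_μ monomial (fv μ) (a μ)`, and `fv` is injective (all parts are between
1 and `n`; `Multiset.ext`), so `a μ = coeff (fv μ) Ph = cf m n U (fv μ)`. `len (fv μ) = card
μ.parts` (`Multiset.toFinset_sum_count_eq`, or induction on the multiset). -/
def S_PAR : Prop := ∀ (m : ℕ → ℕ), Monotone m → ∀ (n : ℕ) (U : Finset ℕ), U.card = n →
  ∃ (a : n.Partition → Polynomial ℤ) (fv : n.Partition → Fin n →₀ ℕ),
    XX m (qq n) (xx n) U = ∑ μ : n.Partition, MvPolynomial.C (a μ) *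
      (μ.parts.map (es (xx n))).prod ∧
    ∀ μ, a μ = cf m n U (fv μ) ∧ len (fv μ) = Multiset.card μ.parts ∧
      ∀ i : Fin n, fv μ i = μ.parts.count ((i : ℕ) + 1)

/-- THE THEOREM. -/
def S_FINAL : Prop := ∀ (n : ℕ) (h : Fin n → Fin n), Monotone h → (∀ i, i ≤ h i) →
    ∀ E c : ℕ, E = (Finset.univ.filter (fun p : Fin n × Fin n => p.1 < p.2 ∧ p.2 ≤ h p.1)).card →
    c = (Finset.univ.filter (fun i : Fin n => ∀ j : Fin n, j < i → h j < i)).card →
    ∃ a : Nat.Partition n → Polynomial ℤ,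
      ((∑ κ ∈ (Finset.univ.filter
            (fun κ : Fin n → Fin n => ∀ i j : Fin n, i < j → j ≤ h i → κ i ≠ κ j)),
          MvPolynomial.C (Polynomial.X ^ ((Finset.univ.filter
            (fun p : Fin n × Fin n => p.1 < p.2 ∧ p.2 ≤ h p.1 ∧ κ p.1 < κ p.2)).card))
            * ∏ i : Fin n, MvPolynomial.X (κ i) : MvPolynomial (Fin n) (Polynomial ℤ))
        = ∑ μ : Nat.Partition n, MvPolynomial.C (a μ) *
            (μ.parts.map (fun k => MvPolynomial.esymm (Fin n) (Polynomial ℤ) k)).prod)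
      ∧ ∀ μ : Nat.Partition n,
          (∀ s ∈ μ.parts, (∀ p ∈ μ.parts, s ≤ p) → ∀ i j : ℕ, i ≤ j →
            j + c + 2 ≤ Multiset.card μ.parts + s →
            0 ≤ (a μ).coeff i ∧ (a μ).coeff i ≤ (a μ).coeff j)
          ∧ 0 ≤ (a μ).coeff (Multiset.card μ.parts - c)
          ∧ (∀ j : ℕ, j ≤ 2 → 0 ≤ (a μ).coeff j)
          ∧ (c = 1 → 4 ≤ E → (a μ).coeff 0 ≤ (a μ).coeff 1 ∧ (a μ).coeff 1 ≤ (a μ).coeff 2)

/-- TASK FIN (final assembly, as T2/FinT.lean `final` and LV2/UNI3.lean `tUNI3`: `FinAux.mh`,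
`mh_mono`, `sum_eq h t_FUN`, `eE_mh`; `U = range n`, graph `mh h`). `c = cn (mh h) (range n)`: the
vertices `i` without left neighbour (`Finset.card_bij` / `Fin.val`; `mh_fin`). `a μ = cf (fv μ)` by
`S_PAR`. Increasing: `S_INC` with `s` (the parts of `fv μ` are the parts of `μ`: `0 < count` iff
member), `fv μ ≠ 0` because `s ∈ μ.parts` (`len (fv μ) ≥ 1`), chain from `i` to `j` by
`Nat.le_induction`. Lowest: if `c ≤ card μ.parts`, `S_NNG` (`Lw` unfolds with `if_pos`); otherwise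
the truncated difference is `0` and `S_THREE` (index 0). Rest: `S_THREE`. -/
def S_FIN : Prop := S_INC → S_NNG → S_THREE → S_PAR → S_FINAL

end Pool.Agent.LOW
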